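import Pool.Agent.helper616_TS.Defs

/-!
# Project TQ (helper616): definitions
-/

set_option autoImplicit false

open Finset MeasureTheory Filter Topology
open Pool.Agent.helper616_TS (e LogBdd S_VDC Psi)

namespace Pool.Agent.helper616_TQ

/-- the indicator function of a residue class, minus its mean -/
noncomputable def gq (q b n : ℕ) : ℝ := (if n % q = b % q then 1 else 0) - 1 / (q : ℝ)

/-- the kernel -/
noncomputable def ker (ξ x : ℝ) : ℂ := ((1 / x : ℝ) : ℂ) * e (-(ξ * Real.log x))

/-- the sum of the kernel over the elements of the progression `r + q ℕ` in `(X0, X1]` -/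
noncomputable def apS (q : ℕ) (r X0 X1 ξ : ℝ) : ℂ :=
  ∑ j ∈ (range (⌊X1⌋₊ + 1)).filter (fun j : ℕ => X0 < r + q * j ∧ r + q * j ≤ X1), ker ξ (r + q * j)

end Pool.Agent.helper616_TQ
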