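import Pool.Agent.helper616_TQ.Defs

/-!
# Project TQ (helper616): a trivial bound
-/

set_option autoImplicit false
set_option maxHeartbeats 4000000

open Finset MeasureTheory Filter Topology
open Pool.Agent.helper616_TS (e LogBdd S_VDC Psi)

namespace Pool.Agent.helper616_TQ

namespace TQ10


theorem cnt_fiber (A : ℝ) (hA : 0 < A) (α : ℝ) (hα : A ≤ α) (S : Finset ℕ) (k : ℕ) :
    (((S.filter fun n : ℕ => ⌊α * (n : ℝ)⌋₊ = k).card : ℕ) : ℝ) ≤ 1 / A + 1 := by
  have hα0 : 0 < α := lt_of_lt_of_le hA hα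
  set F := S.filter fun n : ℕ => ⌊α * (n : ℝ)⌋₊ = k with hF
  have hA1 : 0 < 1 / A := by positivity
  rcases F.eq_empty_or_nonempty with he | hne
  · rw [he]
    simp only [Finset.card_empty, Nat.cast_zero]
    positivity
  · set m := F.min' hne with hm
    have hmF : m ∈ F := F.min'_mem hne
    have hmk : ⌊α * (m : ℝ)⌋₊ = k := (Finset.mem_filter.1 hmF).2
    have hsub : F ⊆ Finset.Icc m (m + ⌊1 / α⌋₊) := by
      intro n hn
      have hmn : m ≤ n := F.min'_le n hn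
      have hnk : ⌊α * (n : ℝ)⌋₊ = k := (Finset.mem_filter.1 hn).2
      refine Finset.mem_Icc.2 ⟨hmn, ?_⟩
      have h1 : α * (n : ℝ) < k + 1 := by
        have := Nat.lt_floor_add_one (α * (n : ℝ))
        rw [hnk] at this
        exact this
      have h2 : (k : ℝ) ≤ α * (m : ℝ) := by
        have := Nat.floor_le (show 0 ≤ α * (m : ℝ) by positivity)
        rw [hmk] at this
        exact this
      have h3 : α * ((n : ℝ) - m) < 1 := by linarith
      have h4 : ((n - m : ℕ) : ℝ) ≤ 1 / α := by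
        rw [Nat.cast_sub hmn, le_div_iff₀ hα0]
        linarith
      have h5 : n - m ≤ ⌊1 / α⌋₊ := Nat.le_floor h4
      omega
    have hc := Finset.card_le_card hsub
    rw [Nat.card_Icc] at hc
    have hc2 : F.card ≤ ⌊1 / α⌋₊ + 1 := by omega
    have h6 : ((⌊1 / α⌋₊ : ℕ) : ℝ) ≤ 1 / α := Nat.floor_le (by positivity)
    have h7 : 1 / α ≤ 1 / A := one_div_le_one_div_of_le hA hα
    have h8 : (F.card : ℝ) ≤ (⌊1 / α⌋₊ : ℝ) + 1 := by exact_mod_cast hc2
    linarith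

theorem cnt_progression (q b a c : ℕ) (hq : 1 ≤ q) (hac : a ≤ c) :
    ((((Finset.Icc a c).filter fun k : ℕ => k % q = b % q).card : ℕ) : ℝ) ≤
      ((c : ℝ) - a) / q + 2 := by
  have hq0 : (0 : ℝ) < q := by exact_mod_cast hq
  have hinj : Set.InjOn (fun k : ℕ => k / q)
      (((Finset.Icc a c).filter fun k : ℕ => k % q = b % q : Finset ℕ) : Set ℕ) := by
    intro k hk l hl hkl
    have h1 := (Finset.mem_filter.1 (Finset.mem_coe.1 hk)).2
    have h2 := (Finset.mem_filter.1 (Finset.mem_coe.1 hl)).2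
    have h3 : k / q = l / q := hkl
    rw [← Nat.div_add_mod k q, ← Nat.div_add_mod l q, h1, h2, h3]
  have hmaps : ∀ k ∈ (Finset.Icc a c).filter (fun k : ℕ => k % q = b % q),
      k / q ∈ Finset.Icc (a / q) (c / q) := by
    intro k hk
    have h1 := Finset.mem_Icc.1 (Finset.mem_filter.1 hk).1
    exact Finset.mem_Icc.2 ⟨Nat.div_le_div_right h1.1, Nat.div_le_div_right h1.2⟩
  have hcard := Finset.card_le_card_of_injOn (fun k : ℕ => k / q) hmaps hinj
  rw [Nat.card_Icc] at hcard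
  have h1 : a / q ≤ c / q := Nat.div_le_div_right hac
  have h2 : ((c / q : ℕ) : ℝ) ≤ (c : ℝ) / q := Nat.cast_div_le
  have h3 : (a : ℝ) / q < ((a / q : ℕ) : ℝ) + 1 := by
    rw [div_lt_iff₀ hq0]
    have := Nat.lt_div_mul_add (a := a) (b := q) hq
    have h4 : (a : ℝ) < (a / q : ℕ) * q + q := by exact_mod_cast this
    linarith
  have h5 : ((((Finset.Icc a c).filter fun k : ℕ => k % q = b % q).card : ℕ) : ℝ) + (a / q : ℕ) ≤
      (c / q : ℕ) + 1 := by
    have : ((Finset.Icc a c).filter fun k : ℕ => k % q = b % q).card + a / q ≤ c / q + 1 := by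
      omega
    exact_mod_cast this
  have h6 : ((c : ℝ) - a) / q = (c : ℝ) / q - (a : ℝ) / q := sub_div _ _ _
  rw [h6]
  linarith

theorem cnt (A : ℝ) (hA : 0 < A) : ∃ C : ℝ, 0 < C ∧ ∀ α ∈ Set.Icc A (2 * A), ∀ q b M M' : ℕ, 1 ≤ q → M ≤ M' →
    ∑ n ∈ Ioc M M', |gq q b ⌊α * n⌋₊| ≤ C * (((M' : ℝ) - M) / q + 1) := by
  have hA1 : 0 < 1 / A := by positivity
  refine ⟨(1 / A + 1) * (2 * A + 3) + 1, by positivity, ?_⟩
  intro α hα q b M M' hq hM
  have hα0 : 0 < α := lt_of_lt_of_le hA hα.1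
  have hq0 : (0 : ℝ) < q := by exact_mod_cast hq
  have hMM : (0 : ℝ) ≤ (M' : ℝ) - M := by
    have : (M : ℝ) ≤ M' := by exact_mod_cast hM
    linarith
  have hterm : ∀ n ∈ Ioc M M', |gq q b ⌊α * (n : ℝ)⌋₊| ≤
      (if ⌊α * (n : ℝ)⌋₊ % q = b % q then (1 : ℝ) else 0) + 1 / (q : ℝ) := by
    intro n _
    have h1 : 0 < 1 / (q : ℝ) := by positivity
    have h2 : 1 / (q : ℝ) ≤ 1 := by
      rw [div_le_one hq0]
      exact_mod_cast hq
    unfold gq
    split_ifs
    · rw [abs_le]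
      constructor <;> linarith
    · rw [abs_le]
      constructor <;> linarith
  have hsum : ∑ n ∈ Ioc M M', |gq q b ⌊α * (n : ℝ)⌋₊| ≤
      (((Ioc M M').filter fun n : ℕ => ⌊α * (n : ℝ)⌋₊ % q = b % q).card : ℝ) +
        ((M' : ℝ) - M) / q := by
    refine (Finset.sum_le_sum hterm).trans ?_
    rw [Finset.sum_add_distrib, Finset.sum_boole, Finset.sum_const, Nat.card_Ioc, nsmul_eq_mul,
      Nat.cast_sub hM]
    apply le_of_eq
    ring
  set a := ⌊α * (M : ℝ)⌋₊ with ha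
  set c := ⌊α * (M' : ℝ)⌋₊ with hc
  have hac : a ≤ c := by
    apply Nat.floor_le_floor
    apply mul_le_mul_of_nonneg_left _ hα0.le
    exact_mod_cast hM
  set S := (Ioc M M').filter fun n : ℕ => ⌊α * (n : ℝ)⌋₊ % q = b % q with hS
  set T := (Finset.Icc a c).filter fun k : ℕ => k % q = b % q with hT
  have hST : ∀ n ∈ S, ⌊α * (n : ℝ)⌋₊ ∈ T := by
    intro n hn
    obtain ⟨hn1, hn2⟩ := Finset.mem_filter.1 hn
    obtain ⟨hn3, hn4⟩ := Finset.mem_Ioc.1 hn1
    refine Finset.mem_filter.2 ⟨Finset.mem_Icc.2 ⟨?_, ?_⟩, hn2⟩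
    · apply Nat.floor_le_floor
      apply mul_le_mul_of_nonneg_left _ hα0.le
      exact_mod_cast hn3.le
    · apply Nat.floor_le_floor
      apply mul_le_mul_of_nonneg_left _ hα0.le
      exact_mod_cast hn4
  have hScard : (S.card : ℝ) ≤ (T.card : ℝ) * (1 / A + 1) := by
    rw [Finset.card_eq_sum_card_fiberwise hST]
    push_cast
    rw [← nsmul_eq_mul, ← Finset.sum_const]
    apply Finset.sum_le_sum
    intro k _
    exact cnt_fiber A hA α hα.1 S k
  have hTcard : (T.card : ℝ) ≤ ((c : ℝ) - a) / q + 2 := cnt_progression q b a c hq hac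
  have hca : (c : ℝ) - a ≤ 2 * A * ((M' : ℝ) - M) + 1 := by
    have h1 : (c : ℝ) ≤ α * M' := Nat.floor_le (by positivity)
    have h2 : α * (M : ℝ) < a + 1 := Nat.lt_floor_add_one _
    have h3 : α * ((M' : ℝ) - M) ≤ 2 * A * ((M' : ℝ) - M) :=
      mul_le_mul_of_nonneg_right hα.2 hMM
    linarith
  have hdiv : ((c : ℝ) - a) / q ≤ 2 * A * (((M' : ℝ) - M) / q) + 1 := by
    have h1 : ((c : ℝ) - a) / q ≤ (2 * A * ((M' : ℝ) - M) + 1) / q :=
      div_le_div_of_nonneg_right hca hq0.le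
    have h2 : (2 * A * ((M' : ℝ) - M) + 1) / q = 2 * A * (((M' : ℝ) - M) / q) + 1 / q := by
      ring
    have h3 : 1 / (q : ℝ) ≤ 1 := by
      rw [div_le_one hq0]
      exact_mod_cast hq
    linarith
  have hD : 0 ≤ ((M' : ℝ) - M) / q := by positivity
  set D := ((M' : ℝ) - M) / q with hDdef
  have h1 : (S.card : ℝ) ≤ (2 * A * D + 3) * (1 / A + 1) := by
    refine hScard.trans ?_
    apply mul_le_mul_of_nonneg_right _ (by positivity)
    linarith
  have h2 : (2 * A * D + 3) * (1 / A + 1) ≤ (1 / A + 1) * (2 * A + 3) * (D + 1) := by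
    have h3 : 2 * A * D + 3 ≤ (2 * A + 3) * (D + 1) := by nlinarith
    have h4 : 0 ≤ 1 / A + 1 := by positivity
    nlinarith [mul_le_mul_of_nonneg_right h3 h4]
  calc ∑ n ∈ Ioc M M', |gq q b ⌊α * (n : ℝ)⌋₊| ≤ (S.card : ℝ) + D := hsum
    _ ≤ (1 / A + 1) * (2 * A + 3) * (D + 1) + (D + 1) := by linarith
    _ = ((1 / A + 1) * (2 * A + 3) + 1) * (D + 1) := by ring

end TQ10

end Pool.Agent.helper616_TQ
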