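import Pool.Agent.helper616_TQ.Defs
import Pool.Agent.helper616_TQ.TQ10

/-!
# Project TQ (helper616): from the mean square to almost all parameters in a dyadic interval
-/

set_option autoImplicit false
set_option maxHeartbeats 4000000

open Finset MeasureTheory Filter Topology
open Pool.Agent.helper616_TS (e LogBdd S_VDC Psi)

namespace Pool.Agent.helper616_TQ

open TQ10 (cnt)

namespace TQ11


/-- the sum -/
noncomputable def dS (w : ℕ → ℝ) (q b P M : ℕ) (u : ℝ) : ℝ :=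
  ∑ n ∈ Ioc P M, w n * gq q b ⌊Real.exp u * n⌋₊

theorem dS_meas (w : ℕ → ℝ) (q b P M : ℕ) : Measurable (dS w q b P M) := by
  unfold dS
  refine Finset.measurable_sum _ fun n _ => ?_
  refine Measurable.const_mul ?_ _
  have h1 : Measurable (fun u : ℝ => ⌊Real.exp u * n⌋₊) :=
    Nat.measurable_floor.comp (Real.measurable_exp.mul_const _)
  exact (measurable_of_countable (gq q b)).comp h1

/-- harmonic sum -/
theorem harm_le (j Q : ℕ) (hQ : (Q : ℝ) ≤ 2 ^ j) : ∑ q ∈ Icc 1 Q, 1 / (q : ℝ) ≤ 1 + j := by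
  have h1 : ((harmonic Q : ℚ) : ℝ) ≤ 1 + Real.log Q := harmonic_le_one_add_log Q
  rw [harmonic_eq_sum_Icc] at h1
  push_cast at h1
  have h2 : Real.log Q ≤ j := by
    rcases Nat.eq_zero_or_pos Q with h | h
    · subst h; simp
    · have h3 : Real.log Q ≤ Real.log ((2 : ℝ) ^ j) :=
        Real.log_le_log (by exact_mod_cast h) hQ
      rw [Real.log_pow] at h3
      have h4 : Real.log 2 ≤ 1 := by
        have := Real.log_two_lt_d9; linarith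
      have h5 : (j : ℝ) * Real.log 2 ≤ j * 1 := mul_le_mul_of_nonneg_left h4 (Nat.cast_nonneg _)
      linarith
  have h6 : ∑ q ∈ Icc 1 Q, 1 / (q : ℝ) = ∑ q ∈ Icc 1 Q, ((q : ℝ))⁻¹ := by
    simp
  rw [h6]
  linarith

/-- the grid step -/
noncomputable def gst (κ : ℝ) (j : ℕ) : ℕ := ⌈((2 : ℝ) ^ j) ^ (1 - κ)⌉₊

/-- the grid points -/
noncomputable def gpt (κ : ℝ) (j l : ℕ) : ℕ := min (2 ^ j + l * gst κ j) (2 ^ (j + 1))

/-- the number of the grid points -/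
noncomputable def gnum (κ : ℝ) (j : ℕ) : ℕ := ⌊((2 : ℝ) ^ j) ^ κ⌋₊ + 1

/-- the big sum of squares -/
noncomputable def bigPhi (w : ℕ → ℝ) (b : ℕ → ℕ → ℕ) (ε κ η : ℝ) (j : ℕ) (u : ℝ) : ENNReal :=
  ∑ q ∈ Icc 1 ⌊((2 : ℝ) ^ j) ^ (1 - ε)⌋₊, ∑ l ∈ range (gnum κ j), ∑ i ∈ range (gnum η j),
    ENNReal.ofReal (q : ℝ) * ‖dS w q (b q i) (2 ^ j) (gpt κ j l) u‖ₑ ^ 2

theorem bigPhi_meas (w : ℕ → ℝ) (b : ℕ → ℕ → ℕ) (ε κ η : ℝ) (j : ℕ) :
    Measurable (bigPhi w b ε κ η j) := by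
  unfold bigPhi
  refine Finset.measurable_sum _ fun q _ => Finset.measurable_sum _ fun l _ =>
    Finset.measurable_sum _ fun i _ => ?_
  exact ((dS_meas _ _ _ _ _).enorm.pow_const 2).const_mul _

theorem two_pow_one (j : ℕ) : (1 : ℝ) ≤ 2 ^ j := one_le_pow₀ (by norm_num)

theorem gnum_le (κ : ℝ) (hκ : 0 ≤ κ) (j : ℕ) : (gnum κ j : ℝ) ≤ 2 * ((2 : ℝ) ^ j) ^ κ := by
  unfold gnum
  have h1 : (1 : ℝ) ≤ ((2 : ℝ) ^ j) ^ κ := Real.one_le_rpow (two_pow_one j) hκ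
  have h2 := Nat.floor_le (a := ((2 : ℝ) ^ j) ^ κ) (by linarith)
  push_cast
  linarith

theorem bigPhi_int (w : ℕ → ℝ) (b : ℕ → ℕ → ℕ) (ε κ η δ : ℝ) (hε : 0 < ε) (hκ : 0 ≤ κ) (hη : 0 ≤ η)
    (j : ℕ) (A : ℝ)
    (H : ∀ q : ℕ, 1 ≤ q → (q : ℝ) ≤ ((2 : ℝ) ^ j) ^ (1 - ε) → ∀ b' M : ℕ, 2 ^ j ≤ M → M ≤ 2 ^ (j + 1) →
      ∫⁻ u in Set.Icc (Real.log A) (Real.log (2 * A)), ‖dS w q b' (2 ^ j) M u‖ₑ ^ 2 ≤
        ENNReal.ofReal (((2 : ℝ) ^ j / q) ^ 2 * ((2 : ℝ) ^ j) ^ (-δ))) :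
    ∫⁻ u in Set.Icc (Real.log A) (Real.log (2 * A)), bigPhi w b ε κ η j u ≤
      ENNReal.ofReal (4 * (1 + j) * ((2 : ℝ) ^ j) ^ (2 - δ + κ + η)) := by
  have hP := two_pow_one j
  have hP0 : (0 : ℝ) < 2 ^ j := by positivity
  unfold bigPhi
  have m1 : ∀ (q l i : ℕ), Measurable (fun u => ENNReal.ofReal (q : ℝ) *
      ‖dS w q (b q i) (2 ^ j) (gpt κ j l) u‖ₑ ^ 2) := fun q l i =>
    ((dS_meas _ _ _ _ _).enorm.pow_const 2).const_mul _
  rw [lintegral_finsetSum _ (fun q _ => Finset.measurable_sum _ fun l _ =>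
    Finset.measurable_sum _ fun i _ => m1 q l i)]
  have h1 : ∀ q ∈ Icc 1 ⌊((2 : ℝ) ^ j) ^ (1 - ε)⌋₊,
      ∫⁻ u in Set.Icc (Real.log A) (Real.log (2 * A)), ∑ l ∈ range (gnum κ j),
        ∑ i ∈ range (gnum η j), ENNReal.ofReal (q : ℝ) *
          ‖dS w q (b q i) (2 ^ j) (gpt κ j l) u‖ₑ ^ 2 ≤
      ENNReal.ofReal ((gnum κ j : ℝ) * (gnum η j) * ((1 / (q : ℝ)) * ((2 : ℝ) ^ j) ^ (2 - δ))) := by
    intro q hq
    rw [Finset.mem_Icc] at hq
    have hq1 : (1 : ℝ) ≤ q := by exact_mod_cast hq.1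
    have hq2 : (q : ℝ) ≤ ((2 : ℝ) ^ j) ^ (1 - ε) := by
      have := Nat.floor_le (a := ((2 : ℝ) ^ j) ^ (1 - ε)) (by positivity)
      exact (Nat.cast_le.2 hq.2).trans this
    rw [lintegral_finsetSum _ (fun l _ => Finset.measurable_sum _ fun i _ => m1 q l i)]
    have h2 : ∀ l ∈ range (gnum κ j), ∫⁻ u in Set.Icc (Real.log A) (Real.log (2 * A)),
        ∑ i ∈ range (gnum η j), ENNReal.ofReal (q : ℝ) *
          ‖dS w q (b q i) (2 ^ j) (gpt κ j l) u‖ₑ ^ 2 ≤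
        ENNReal.ofReal ((gnum η j) * ((1 / (q : ℝ)) * ((2 : ℝ) ^ j) ^ (2 - δ))) := by
      intro l _
      rw [lintegral_finsetSum _ (fun i _ => m1 q l i)]
      have h3 : ∀ i ∈ range (gnum η j), ∫⁻ u in Set.Icc (Real.log A) (Real.log (2 * A)),
          ENNReal.ofReal (q : ℝ) * ‖dS w q (b q i) (2 ^ j) (gpt κ j l) u‖ₑ ^ 2 ≤
          ENNReal.ofReal ((1 / (q : ℝ)) * ((2 : ℝ) ^ j) ^ (2 - δ)) := by
        intro i _
        rw [lintegral_const_mul _ ((dS_meas _ _ _ _ _).enorm.pow_const 2)]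
        refine (mul_le_mul_right (H q hq.1 hq2 (b q i) (gpt κ j l) ?_ ?_) _).trans ?_
        · unfold gpt
          exact le_min (by omega) (Nat.pow_le_pow_right (by norm_num) (by omega))
        · unfold gpt
          exact min_le_right _ _
        · rw [← ENNReal.ofReal_mul (by positivity)]
          apply le_of_eq
          congr 1
          rw [show (2 : ℝ) - δ = 2 + (-δ) by ring, Real.rpow_add hP0]
          have : ((2 : ℝ) ^ j) ^ (2 : ℝ) = ((2 : ℝ) ^ j) ^ 2 := by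
            exact_mod_cast Real.rpow_natCast ((2 : ℝ) ^ j) 2
          rw [this]
          field_simp
      refine (Finset.sum_le_sum h3).trans ?_
      rw [Finset.sum_const, card_range, nsmul_eq_mul, ← ENNReal.ofReal_natCast,
        ← ENNReal.ofReal_mul (by positivity)]
    refine (Finset.sum_le_sum h2).trans ?_
    rw [Finset.sum_const, card_range, nsmul_eq_mul, ← ENNReal.ofReal_natCast,
      ← ENNReal.ofReal_mul (by positivity), mul_assoc]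
  refine (Finset.sum_le_sum h1).trans ?_
  rw [← ENNReal.ofReal_sum_of_nonneg (fun q _ => by positivity)]
  apply ENNReal.ofReal_le_ofReal
  rw [← Finset.mul_sum, ← Finset.sum_mul]
  have hH : ∑ q ∈ Icc 1 ⌊((2 : ℝ) ^ j) ^ (1 - ε)⌋₊, 1 / (q : ℝ) ≤ 1 + j := by
    apply harm_le
    refine (Nat.floor_le (by positivity)).trans ?_
    calc ((2 : ℝ) ^ j) ^ (1 - ε) ≤ ((2 : ℝ) ^ j) ^ (1 : ℝ) :=
          Real.rpow_le_rpow_of_exponent_le hP (by linarith)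
      _ = 2 ^ j := Real.rpow_one _
  have hsum0 : 0 ≤ ∑ q ∈ Icc 1 ⌊((2 : ℝ) ^ j) ^ (1 - ε)⌋₊, 1 / (q : ℝ) :=
    Finset.sum_nonneg fun _ _ => by positivity
  have e1 : ((2 : ℝ) ^ j) ^ (2 - δ + κ + η) =
      ((2 : ℝ) ^ j) ^ (2 - δ) * ((2 : ℝ) ^ j) ^ κ * ((2 : ℝ) ^ j) ^ η := by
    rw [Real.rpow_add hP0, Real.rpow_add hP0]
  rw [e1]
  calc (gnum κ j : ℝ) * (gnum η j) * ((∑ q ∈ Icc 1 ⌊((2 : ℝ) ^ j) ^ (1 - ε)⌋₊, 1 / (q : ℝ)) *
        ((2 : ℝ) ^ j) ^ (2 - δ))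
      ≤ (2 * ((2 : ℝ) ^ j) ^ κ) * (2 * ((2 : ℝ) ^ j) ^ η) * ((1 + j) * ((2 : ℝ) ^ j) ^ (2 - δ)) := by
        have := gnum_le κ hκ j
        have := gnum_le η hη j
        gcongr
    _ = _ := by ring

/-- almost everywhere bound for the big sum -/
theorem bigPhi_ae (w : ℕ → ℝ) (b : ℕ → ℕ → ℕ) (ε κ η δ : ℝ) (hε : 0 < ε) (hκ : 0 ≤ κ) (hη : 0 ≤ η)
    (hδ : 0 < δ) (hex : κ + η ≤ δ / 4) (A : ℝ) (j0 : ℕ)
    (H : ∀ j : ℕ, j0 ≤ j → ∀ q : ℕ, 1 ≤ q → (q : ℝ) ≤ ((2 : ℝ) ^ j) ^ (1 - ε) → ∀ b' M : ℕ, 2 ^ j ≤ M →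
      M ≤ 2 ^ (j + 1) →
      ∫⁻ u in Set.Icc (Real.log A) (Real.log (2 * A)), ‖dS w q b' (2 ^ j) M u‖ₑ ^ 2 ≤
        ENNReal.ofReal (((2 : ℝ) ^ j / q) ^ 2 * ((2 : ℝ) ^ j) ^ (-δ))) :
    ∀ᵐ u ∂(volume.restrict (Set.Icc (Real.log A) (Real.log (2 * A)))), ∀ᶠ j : ℕ in atTop,
      bigPhi w b ε κ η j u < ENNReal.ofReal (((2 : ℝ) ^ j) ^ (2 - δ / 2)) := by
  set μ := volume.restrict (Set.Icc (Real.log A) (Real.log (2 * A))) with hμ
  set s : ℕ → Set ℝ := fun j => if j0 ≤ j then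
    {u | ENNReal.ofReal (((2 : ℝ) ^ j) ^ (2 - δ / 2)) ≤ bigPhi w b ε κ η j u} else ∅ with hs
  have hP0 : ∀ j : ℕ, (0 : ℝ) < 2 ^ j := fun j => by positivity
  set r : ℝ := (2 : ℝ) ^ (-(δ / 4)) with hr
  have hr0 : 0 < r := by positivity
  have hr1 : r < 1 := Real.rpow_lt_one_of_one_lt_of_neg (by norm_num) (by linarith)
  have hrj : ∀ j : ℕ, ((2 : ℝ) ^ j) ^ (-(δ / 4)) = r ^ j := fun j => by
    rw [hr, ← Real.rpow_natCast, ← Real.rpow_natCast, ← Real.rpow_mul (by norm_num),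
      ← Real.rpow_mul (by norm_num), mul_comm]
  have hb : ∀ j, μ (s j) ≤ ENNReal.ofReal (4 * (1 + j) * r ^ j) := by
    intro j
    by_cases hj : j0 ≤ j
    · have h1 : s j = {u | ENNReal.ofReal (((2 : ℝ) ^ j) ^ (2 - δ / 2)) ≤ bigPhi w b ε κ η j u} := by
        simp only [hs, if_pos hj]
      have hpos : 0 < ((2 : ℝ) ^ j) ^ (2 - δ / 2) := Real.rpow_pos_of_pos (hP0 j) _
      rw [h1]
      refine (meas_ge_le_lintegral_div (bigPhi_meas w b ε κ η j).aemeasurable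
        (by simpa using hpos) ENNReal.ofReal_ne_top).trans ?_
      refine (ENNReal.div_le_div_right (bigPhi_int w b ε κ η δ hε hκ hη j A (H j hj)) _).trans ?_
      rw [← ENNReal.ofReal_div_of_pos hpos]
      apply ENNReal.ofReal_le_ofReal
      rw [div_le_iff₀ hpos, mul_assoc, mul_assoc (4 * (1 + (j : ℝ)))  (r ^ j), mul_assoc]
      rw [← mul_assoc 4, ← hrj j, ← Real.rpow_add (hP0 j)]
      rw [← mul_assoc 4]
      apply mul_le_mul_of_nonneg_left _ (by positivity)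
      exact Real.rpow_le_rpow_of_exponent_le (two_pow_one j) (by linarith)
    · have h1 : s j = ∅ := by simp only [hs, if_neg hj]
      rw [h1]; simp
  have hsummable : Summable (fun j : ℕ => 4 * (1 + (j : ℝ)) * r ^ j) := by
    have hn : ‖r‖ < 1 := by rwa [Real.norm_of_nonneg hr0.le]
    have h1 := summable_pow_mul_geometric_of_norm_lt_one (R := ℝ) 1 hn
    have h0 := summable_pow_mul_geometric_of_norm_lt_one (R := ℝ) 0 hn
    refine ((h0.add h1).mul_left 4).congr fun j => ?_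
    ring
  have hfin : ∑' j, μ (s j) ≠ ⊤ := by
    refine ne_top_of_le_ne_top (hsummable.tsum_ofReal_ne_top) (ENNReal.tsum_le_tsum hb)
  have hae := ae_eventually_notMem hfin
  filter_upwards [hae] with u hu
  filter_upwards [hu, eventually_ge_atTop j0] with j hj hj0
  by_contra hcon
  push Not at hcon
  apply hj
  simp only [hs, if_pos hj0]
  exact hcon

/-- polynomials against exponentials -/
theorem poly_exp (B : ℝ) (hB : 0 < B) (k : ℕ) (c : ℝ) (hc : 0 < c) :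
    ∀ᶠ j : ℕ in atTop, B * ((j : ℝ) + 2) ^ k ≤ ((2 : ℝ) ^ j) ^ c := by
  set r : ℝ := (2 : ℝ) ^ c with hr
  have hr1 : 1 < r := Real.one_lt_rpow (by norm_num) hc
  have hr0 : 0 < r := by linarith
  have h1 := (tendsto_pow_const_div_const_pow_of_one_lt k hr1).comp (tendsto_add_atTop_nat 2)
  have h2 : (0 : ℝ) < 1 / (B * r ^ 2) := by positivity
  filter_upwards [h1.eventually (gt_mem_nhds h2)] with j hj
  have h3 : ((2 : ℝ) ^ j) ^ c = r ^ j := by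
    rw [hr, ← Real.rpow_natCast, ← Real.rpow_natCast, ← Real.rpow_mul (by norm_num),
      ← Real.rpow_mul (by norm_num), mul_comm]
  rw [h3]
  simp only [Function.comp] at hj
  rw [div_lt_div_iff₀ (by positivity) (by positivity)] at hj
  push_cast at hj
  rw [pow_add] at hj
  have h4 : r ^ 2 * (B * ((j : ℝ) + 2) ^ k) ≤ r ^ 2 * r ^ j := by nlinarith
  exact le_of_mul_le_mul_left h4 (by positivity)

theorem dyadic (ε δ : ℝ) (hε : 0 < ε) (hε1 : ε < 1) (hδ : 0 < δ)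
    (hms : ∀ (w : ℕ → ℝ) (_ : LogBdd w) (A : ℝ) (_ : 0 < A), ∃ P₀ : ℕ, ∀ P : ℕ, P₀ ≤ P → ∀ q : ℕ, 1 ≤ q →
      (q : ℝ) ≤ (P : ℝ) ^ (1 - ε) → ∀ b M : ℕ, P ≤ M → M ≤ 2 * P →
      ∫⁻ u in Set.Icc (Real.log A) (Real.log (2 * A)), ‖∑ n ∈ Ioc P M, w n * gq q b ⌊Real.exp u * n⌋₊‖ₑ ^ 2 ≤
        ENNReal.ofReal (((P : ℝ) / q) ^ 2 * (P : ℝ) ^ (-δ))) :
    ∃ η : ℝ, 0 < η ∧ η < 1 ∧ ∀ (w : ℕ → ℝ) (_ : LogBdd w) (b : ℕ → ℕ → ℕ) (A : ℝ) (_ : 0 < A),
      ∀ᵐ u ∂(volume.restrict (Set.Icc (Real.log A) (Real.log (2 * A)))), ∀ᶠ j : ℕ in atTop, ∀ M i : ℕ → ℕ,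
        (∀ q, 2 ^ j ≤ M q ∧ M q ≤ 2 ^ (j + 1)) → (∀ q, (i q : ℝ) ≤ ((2 : ℝ) ^ j) ^ η) →
        ∑ q ∈ Icc 1 ⌊((2 : ℝ) ^ j) ^ (1 - ε)⌋₊, |∑ n ∈ Ioc (2 ^ j) (M q), w n * gq q (b q (i q)) ⌊Real.exp u * n⌋₊| ≤
          ((2 : ℝ) ^ j) ^ (1 - η) := by
  -- the exponents
  set d : ℝ := min δ 1 with hd
  have hd0 : 0 < d := lt_min hδ one_pos
  have hdδ : d ≤ δ := min_le_left _ _
  have hd1 : d ≤ 1 := min_le_right _ _
  set κ1 : ℝ := d / 8 with hκ1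
  set κ : ℝ := min κ1 ε with hκ
  have hκ0 : 0 < κ := lt_min (by positivity) hε
  have hκκ : κ ≤ κ1 := min_le_left _ _
  have hκε : κ ≤ ε := min_le_right _ _
  refine ⟨κ / 2, by positivity, by linarith, fun w hw b A hA => ?_⟩
  obtain ⟨P₀, hP₀⟩ := hms w hw A hA
  obtain ⟨C, hC, hcnt⟩ := cnt A hA
  obtain ⟨Cw, k, hCw⟩ := hw
  have H : ∀ j : ℕ, P₀ ≤ j → ∀ q : ℕ, 1 ≤ q → (q : ℝ) ≤ ((2 : ℝ) ^ j) ^ (1 - ε) → ∀ b' M : ℕ,
      2 ^ j ≤ M → M ≤ 2 ^ (j + 1) →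
      ∫⁻ u in Set.Icc (Real.log A) (Real.log (2 * A)), ‖dS w q b' (2 ^ j) M u‖ₑ ^ 2 ≤
        ENNReal.ofReal (((2 : ℝ) ^ j / q) ^ 2 * ((2 : ℝ) ^ j) ^ (-d)) := by
    intro j hj q hq1 hq2 b' M hM1 hM2
    have h1 := hP₀ (2 ^ j) (hj.trans (Nat.lt_two_pow_self).le) q hq1 (by push_cast; exact hq2) b' M
      hM1 (by rw [pow_succ] at hM2; omega)
    refine h1.trans (ENNReal.ofReal_le_ofReal ?_)
    push_cast
    apply mul_le_mul_of_nonneg_left _ (by positivity)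
    exact Real.rpow_le_rpow_of_exponent_le (two_pow_one j) (by linarith)
  have hae := bigPhi_ae w b ε κ1 (κ / 2) d hε (by positivity) (by positivity) hd0
    (by linarith) A P₀ H
  have hmem : ∀ᵐ u ∂(volume.restrict (Set.Icc (Real.log A) (Real.log (2 * A)))),
      u ∈ Set.Icc (Real.log A) (Real.log (2 * A)) := ae_restrict_mem measurableSet_Icc
  filter_upwards [hae, hmem] with u hu humem
  have hα : Real.exp u ∈ Set.Icc A (2 * A) := by
    constructor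
    · rw [← Real.exp_log hA]; exact Real.exp_le_exp.2 humem.1
    · rw [← Real.exp_log (show 0 < 2 * A by positivity)]; exact Real.exp_le_exp.2 humem.2
  have hB : (0 : ℝ) < 1 + 3 * (|Cw| * C) := by positivity
  filter_upwards [hu, poly_exp _ hB (k + 1) (κ / 2) (by positivity)] with j hj hpe
  intro M i hM hi
  have hP := two_pow_one j
  have hP0 : (0 : ℝ) < 2 ^ j := by positivity
  -- the grid index
  have hg1 : 1 ≤ gst κ1 j := by
    unfold gst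
    exact Nat.ceil_pos.2 (Real.rpow_pos_of_pos hP0 _)
  have hg2 : (gst κ1 j : ℝ) ≤ 2 * ((2 : ℝ) ^ j) ^ (1 - κ1) := by
    unfold gst
    have h1 : (1 : ℝ) ≤ ((2 : ℝ) ^ j) ^ (1 - κ1) := Real.one_le_rpow hP (by linarith)
    have := Nat.ceil_lt_add_one (a := ((2 : ℝ) ^ j) ^ (1 - κ1)) (by positivity)
    linarith
  have hg3 : ((2 : ℝ) ^ j) ^ (1 - κ1) ≤ gst κ1 j := Nat.le_ceil _
  set l : ℕ → ℕ := fun q => (M q - 2 ^ j) / gst κ1 j with hl
  have hl1 : ∀ q, gpt κ1 j (l q) = 2 ^ j + l q * gst κ1 j := fun q => by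
    unfold gpt
    rw [min_eq_left]
    have h1 : l q * gst κ1 j ≤ M q - 2 ^ j := Nat.div_mul_le_self _ _
    have h2 := hM q
    omega
  have hl2 : ∀ q, gpt κ1 j (l q) ≤ M q := fun q => by
    rw [hl1]
    have h1 : l q * gst κ1 j ≤ M q - 2 ^ j := Nat.div_mul_le_self _ _
    have h2 := hM q
    omega
  have hl3 : ∀ q, (M q : ℝ) - gpt κ1 j (l q) ≤ gst κ1 j := fun q => by
    have h1 : M q - 2 ^ j < gst κ1 j * (l q + 1) := Nat.lt_mul_div_succ _ (by omega)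
    have h2 := hM q
    have h3 : M q ≤ gpt κ1 j (l q) + gst κ1 j := by
      rw [hl1]
      have : gst κ1 j * (l q + 1) = l q * gst κ1 j + gst κ1 j := by ring
      omega
    have h4 : (M q : ℝ) ≤ gpt κ1 j (l q) + gst κ1 j := by exact_mod_cast h3
    linarith
  have hl4 : ∀ q, l q ∈ range (gnum κ1 j) := fun q => by
    rw [mem_range]
    unfold gnum
    rw [Nat.lt_add_one_iff, Nat.le_floor_iff (by positivity)]
    have h1 : l q * gst κ1 j ≤ M q - 2 ^ j := Nat.div_mul_le_self _ _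
    have h2 := (hM q).2
    have h3 : l q * gst κ1 j ≤ 2 ^ j := by
      rw [pow_succ] at h2
      omega
    have h4 : (l q : ℝ) * gst κ1 j ≤ 2 ^ j := by exact_mod_cast h3
    have h5 : (l q : ℝ) * ((2 : ℝ) ^ j) ^ (1 - κ1) ≤ 2 ^ j :=
      (mul_le_mul_of_nonneg_left hg3 (Nat.cast_nonneg _)).trans h4
    have h6 : ((2 : ℝ) ^ j) ^ κ1 * ((2 : ℝ) ^ j) ^ (1 - κ1) = 2 ^ j := by
      rw [← Real.rpow_add hP0]; simp
    exact le_of_mul_le_mul_right (h5.trans (le_of_eq h6.symm)) (Real.rpow_pos_of_pos hP0 _)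
  have hi4 : ∀ q, i q ∈ range (gnum (κ / 2) j) := fun q => by
    rw [mem_range]
    unfold gnum
    rw [Nat.lt_add_one_iff, Nat.le_floor_iff (by positivity)]
    exact hi q
  set Q : ℕ := ⌊((2 : ℝ) ^ j) ^ (1 - ε)⌋₊ with hQ
  have hQ1 : (Q : ℝ) ≤ ((2 : ℝ) ^ j) ^ (1 - ε) := Nat.floor_le (by positivity)
  have hQ2 : (Q : ℝ) ≤ 2 ^ j := by
    refine hQ1.trans ?_
    calc ((2 : ℝ) ^ j) ^ (1 - ε) ≤ ((2 : ℝ) ^ j) ^ (1 : ℝ) :=
          Real.rpow_le_rpow_of_exponent_le hP (by linarith)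
      _ = 2 ^ j := Real.rpow_one _
  have hH := harm_le j Q hQ2
  -- the grid part
  have hsq : ∑ q ∈ Icc 1 Q, (q : ℝ) * (dS w q (b q (i q)) (2 ^ j) (gpt κ1 j (l q)) u) ^ 2 ≤
      ((2 : ℝ) ^ j) ^ (2 - d / 2) := by
    have h1 : ENNReal.ofReal (∑ q ∈ Icc 1 Q, (q : ℝ) *
        (dS w q (b q (i q)) (2 ^ j) (gpt κ1 j (l q)) u) ^ 2) ≤ bigPhi w b ε κ1 (κ / 2) j u := by
      rw [ENNReal.ofReal_sum_of_nonneg (fun q _ => by positivity)]
      unfold bigPhi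
      refine Finset.sum_le_sum fun q _ => ?_
      have h2 : ENNReal.ofReal ((q : ℝ) * (dS w q (b q (i q)) (2 ^ j) (gpt κ1 j (l q)) u) ^ 2) =
          ENNReal.ofReal (q : ℝ) * ‖dS w q (b q (i q)) (2 ^ j) (gpt κ1 j (l q)) u‖ₑ ^ 2 := by
        rw [ENNReal.ofReal_mul (by positivity), Real.enorm_eq_ofReal_abs,
          ← ENNReal.ofReal_pow (abs_nonneg _), sq_abs]
      rw [h2]
      refine le_trans ?_ (Finset.single_le_sum (f := fun l' => ∑ i' ∈ range (gnum (κ / 2) j),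
        ENNReal.ofReal (q : ℝ) * ‖dS w q (b q i') (2 ^ j) (gpt κ1 j l') u‖ₑ ^ 2)
        (fun _ _ => bot_le) (hl4 q))
      exact Finset.single_le_sum (f := fun i' => ENNReal.ofReal (q : ℝ) *
        ‖dS w q (b q i') (2 ^ j) (gpt κ1 j (l q)) u‖ₑ ^ 2) (fun _ _ => bot_le) (hi4 q)
    have h3 := h1.trans hj.le
    exact (ENNReal.ofReal_le_ofReal_iff (by positivity)).1 h3
  have hgrid : ∑ q ∈ Icc 1 Q, |dS w q (b q (i q)) (2 ^ j) (gpt κ1 j (l q)) u| ≤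
      (1 + j) * ((2 : ℝ) ^ j) ^ (1 - d / 4) := by
    have h1 := Finset.sum_sq_le_sum_mul_sum_of_sq_eq_mul (Icc 1 Q)
      (r := fun q => |dS w q (b q (i q)) (2 ^ j) (gpt κ1 j (l q)) u|)
      (f := fun q => 1 / (q : ℝ))
      (g := fun q => (q : ℝ) * (dS w q (b q (i q)) (2 ^ j) (gpt κ1 j (l q)) u) ^ 2)
      (fun q _ => by positivity) (fun q _ => by positivity) (fun q hq => by
        rw [Finset.mem_Icc] at hq
        have : (q : ℝ) ≠ 0 := by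
          have := hq.1
          positivity
        rw [sq_abs]; field_simp)
    have h2 : (∑ q ∈ Icc 1 Q, |dS w q (b q (i q)) (2 ^ j) (gpt κ1 j (l q)) u|) ^ 2 ≤
        ((1 + j) * ((2 : ℝ) ^ j) ^ (1 - d / 4)) ^ 2 := by
      refine h1.trans ?_
      have h3 : (((2 : ℝ) ^ j) ^ (1 - d / 4)) ^ 2 = ((2 : ℝ) ^ j) ^ (2 - d / 2) := by
        rw [← Real.rpow_natCast, ← Real.rpow_mul hP0.le]
        congr 1
        push_cast
        ring
      rw [mul_pow, h3]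
      have h4 : (1 + (j : ℝ)) ≤ (1 + (j : ℝ)) ^ 2 := by
        have : (0 : ℝ) ≤ j := Nat.cast_nonneg _
        nlinarith
      calc (∑ q ∈ Icc 1 Q, 1 / (q : ℝ)) * ∑ q ∈ Icc 1 Q, (q : ℝ) *
            (dS w q (b q (i q)) (2 ^ j) (gpt κ1 j (l q)) u) ^ 2
          ≤ (1 + j) * ((2 : ℝ) ^ j) ^ (2 - d / 2) := by
            apply mul_le_mul hH hsq
            · exact Finset.sum_nonneg fun q _ => by positivity
            · positivity
        _ ≤ _ := mul_le_mul_of_nonneg_right h4 (by positivity)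
    exact le_of_sq_le_sq h2 (by positivity)
  -- the rest
  have hW : ∀ n : ℕ, n ≤ 2 ^ (j + 1) → |w n| ≤ |Cw| * ((j : ℝ) + 2) ^ k := by
    intro n hn
    have h1 : Real.log ((n : ℝ) + 2) ≤ (j : ℝ) + 2 := by
      have h2 : (n : ℝ) + 2 ≤ 2 ^ (j + 2) := by
        have h3 : n + 2 ≤ 2 ^ (j + 2) := by
          have : 1 ≤ 2 ^ j := Nat.one_le_two_pow
          rw [pow_succ] at hn
          rw [pow_succ, pow_succ]
          omega
        exact_mod_cast h3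
      have h3 : Real.log ((n : ℝ) + 2) ≤ Real.log ((2 : ℝ) ^ (j + 2)) :=
        Real.log_le_log (by positivity) h2
      rw [Real.log_pow] at h3
      have h4 : Real.log 2 ≤ 1 := by
        have := Real.log_two_lt_d9; linarith
      have h5 : ((j + 2 : ℕ) : ℝ) * Real.log 2 ≤ ((j + 2 : ℕ) : ℝ) * 1 :=
        mul_le_mul_of_nonneg_left h4 (Nat.cast_nonneg _)
      push_cast at h3 h5
      linarith
    have h0 : 0 ≤ Real.log ((n : ℝ) + 2) := Real.log_nonneg (by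
      have : (0 : ℝ) ≤ n := Nat.cast_nonneg _
      linarith)
    calc |w n| ≤ Cw * Real.log ((n : ℝ) + 2) ^ k := hCw n
      _ ≤ |Cw| * Real.log ((n : ℝ) + 2) ^ k :=
          mul_le_mul_of_nonneg_right (le_abs_self _) (by positivity)
      _ ≤ |Cw| * ((j : ℝ) + 2) ^ k :=
          mul_le_mul_of_nonneg_left (pow_le_pow_left₀ h0 h1 k) (abs_nonneg _)
  set W : ℝ := |Cw| * ((j : ℝ) + 2) ^ k with hWdef
  have hW0 : 0 ≤ W := by positivity
  have hterm : ∀ q ∈ Icc 1 Q,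
      |∑ n ∈ Ioc (2 ^ j) (M q), w n * gq q (b q (i q)) ⌊Real.exp u * n⌋₊| ≤
      |dS w q (b q (i q)) (2 ^ j) (gpt κ1 j (l q)) u| + W * (C * (gst κ1 j * (1 / (q : ℝ)) + 1)) := by
    intro q hq
    rw [Finset.mem_Icc] at hq
    have hq0 : (0 : ℝ) < q := by
      have := hq.1
      exact_mod_cast this
    have h1 : 2 ^ j ≤ gpt κ1 j (l q) := by rw [hl1]; omega
    have h2 : ∑ n ∈ Ioc (2 ^ j) (M q), w n * gq q (b q (i q)) ⌊Real.exp u * n⌋₊ =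
        dS w q (b q (i q)) (2 ^ j) (gpt κ1 j (l q)) u +
        ∑ n ∈ Ioc (gpt κ1 j (l q)) (M q), w n * gq q (b q (i q)) ⌊Real.exp u * n⌋₊ := by
      unfold dS
      rw [← Finset.sum_union]
      · rw [Finset.Ioc_union_Ioc_eq_Ioc h1 (hl2 q)]
      · rw [Finset.disjoint_left]
        intro n hn hn'
        rw [Finset.mem_Ioc] at hn hn'
        omega
    rw [h2]
    refine (abs_add_le _ _).trans (add_le_add le_rfl ?_)
    refine (Finset.abs_sum_le_sum_abs _ _).trans ?_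
    calc ∑ n ∈ Ioc (gpt κ1 j (l q)) (M q), |w n * gq q (b q (i q)) ⌊Real.exp u * n⌋₊|
        ≤ ∑ n ∈ Ioc (gpt κ1 j (l q)) (M q), W * |gq q (b q (i q)) ⌊Real.exp u * n⌋₊| := by
          refine Finset.sum_le_sum fun n hn => ?_
          rw [Finset.mem_Ioc] at hn
          rw [abs_mul]
          exact mul_le_mul_of_nonneg_right (hW n (hn.2.trans (hM q).2)) (abs_nonneg _)
      _ = W * ∑ n ∈ Ioc (gpt κ1 j (l q)) (M q), |gq q (b q (i q)) ⌊Real.exp u * n⌋₊| := by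
          rw [Finset.mul_sum]
      _ ≤ W * (C * (((M q : ℝ) - gpt κ1 j (l q)) / q + 1)) :=
          mul_le_mul_of_nonneg_left (hcnt _ hα q (b q (i q)) _ _ hq.1 (hl2 q)) hW0
      _ ≤ W * (C * (gst κ1 j * (1 / (q : ℝ)) + 1)) := by
          have h3 : ((M q : ℝ) - gpt κ1 j (l q)) / q ≤ gst κ1 j * (1 / (q : ℝ)) := by
            rw [mul_one_div]
            exact div_le_div_of_nonneg_right (hl3 q) hq0.le
          gcongr
  refine (Finset.sum_le_sum hterm).trans ?_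
  rw [Finset.sum_add_distrib]
  have hrest : ∑ q ∈ Icc 1 Q, W * (C * (gst κ1 j * (1 / (q : ℝ)) + 1)) ≤
      W * (C * (2 * ((2 : ℝ) ^ j) ^ (1 - κ1) * (1 + j) + ((2 : ℝ) ^ j) ^ (1 - ε))) := by
    rw [← Finset.mul_sum, ← Finset.mul_sum, Finset.sum_add_distrib, ← Finset.mul_sum]
    refine mul_le_mul_of_nonneg_left (mul_le_mul_of_nonneg_left ?_ hC.le) hW0
    have h1 : ∑ q ∈ Icc 1 Q, (1 : ℝ) = Q := by simp
    rw [h1]
    refine add_le_add ?_ hQ1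
    apply mul_le_mul hg2 hH
    · exact Finset.sum_nonneg fun q _ => by positivity
    · positivity
  refine (add_le_add hgrid hrest).trans ?_
  -- final comparison
  set R : ℝ := ((2 : ℝ) ^ j) ^ (1 - κ) with hR
  have hR0 : 0 < R := Real.rpow_pos_of_pos hP0 _
  have r1 : ((2 : ℝ) ^ j) ^ (1 - d / 4) ≤ R := Real.rpow_le_rpow_of_exponent_le hP (by linarith)
  have r2 : ((2 : ℝ) ^ j) ^ (1 - κ1) ≤ R := Real.rpow_le_rpow_of_exponent_le hP (by linarith)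
  have r3 : ((2 : ℝ) ^ j) ^ (1 - ε) ≤ R := Real.rpow_le_rpow_of_exponent_le hP (by linarith)
  have hj0 : (0 : ℝ) ≤ j := Nat.cast_nonneg _
  have hfin : ((2 : ℝ) ^ j) ^ (1 - κ / 2) = R * ((2 : ℝ) ^ j) ^ (κ / 2) := by
    rw [hR, ← Real.rpow_add hP0]
    congr 1
    ring
  rw [hfin]
  have hpow1 : (1 : ℝ) ≤ ((j : ℝ) + 2) ^ k := one_le_pow₀ (by linarith)
  calc (1 + (j : ℝ)) * ((2 : ℝ) ^ j) ^ (1 - d / 4) +
        W * (C * (2 * ((2 : ℝ) ^ j) ^ (1 - κ1) * (1 + j) + ((2 : ℝ) ^ j) ^ (1 - ε)))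
      ≤ (1 + (j : ℝ)) * R + W * (C * (2 * R * (1 + j) + R)) := by gcongr
    _ ≤ R * ((1 + 3 * (|Cw| * C)) * ((j : ℝ) + 2) ^ (k + 1)) := by
        have e1 : (1 + (j : ℝ)) ≤ ((j : ℝ) + 2) ^ (k + 1) := by
          rw [pow_succ]
          nlinarith
        have e2 : 2 * (1 + (j : ℝ)) + 1 ≤ 3 * ((j : ℝ) + 2) := by linarith
        have e3 : W * (C * (2 * R * (1 + j) + R)) ≤ R * (3 * (|Cw| * C) * ((j : ℝ) + 2) ^ (k + 1)) := by
          have e4 : W * (C * (2 * R * (1 + j) + R)) =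
              (|Cw| * C * ((j : ℝ) + 2) ^ k * R) * (2 * (1 + (j : ℝ)) + 1) := by
            rw [hWdef]; ring
          rw [e4]
          refine (mul_le_mul_of_nonneg_left e2 (by positivity)).trans (le_of_eq ?_)
          rw [pow_succ]; ring
        have e5 : (1 + (j : ℝ)) * R ≤ ((j : ℝ) + 2) ^ (k + 1) * R :=
          mul_le_mul_of_nonneg_right e1 hR0.le
        calc (1 + (j : ℝ)) * R + W * (C * (2 * R * (1 + j) + R))
            ≤ ((j : ℝ) + 2) ^ (k + 1) * R + R * (3 * (|Cw| * C) * ((j : ℝ) + 2) ^ (k + 1)) :=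
              add_le_add e5 e3
          _ = _ := by ring
    _ ≤ R * ((2 : ℝ) ^ j) ^ (κ / 2) := mul_le_mul_of_nonneg_left hpe hR0.le

end TQ11

end Pool.Agent.helper616_TQ
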