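import Pool.Agent.helper616_TQ.Defs
import Pool.Agent.helper616_TQ.TQ10
import Pool.Agent.helper616_TS.TS12

/-!
# Project TQ (helper616): from dyadic intervals to all intervals
-/

set_option autoImplicit false
set_option maxHeartbeats 4000000

open Finset MeasureTheory Filter Topology
open Pool.Agent.helper616_TS (e LogBdd S_VDC Psi)

namespace Pool.Agent.helper616_TQ

open TQ10 (cnt)
open Pool.Agent.helper616_TS.TS12 (ae_exp)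

namespace TQ12


theorem fin_ae (Q : ℝ → Prop) (h : ∀ A : ℝ, 0 < A →
      ∀ᵐ u ∂(volume.restrict (Set.Icc (Real.log A) (Real.log (2 * A)))), Q (Real.exp u)) :
    ∀ᵐ α : ℝ, 0 < α → Q α := by
  refine ae_exp Q fun a b _ => ?_
  have h1 : ∀ᵐ u ∂(volume.restrict (⋃ k : ℕ, Set.Icc (Real.log (Real.exp a * 2 ^ k))
      (Real.log (2 * (Real.exp a * 2 ^ k))))), Q (Real.exp u) := by
    rw [ae_restrict_iUnion_iff]
    exact fun k => h _ (by positivity)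
  refine ae_restrict_of_ae_restrict_of_subset ?_ h1
  intro u hu
  rw [Set.mem_iUnion]
  have hl2 : 0 < Real.log 2 := Real.log_pos one_lt_two
  have hlog : ∀ k : ℕ, Real.log (Real.exp a * 2 ^ k) = a + k * Real.log 2 := by
    intro k
    rw [Real.log_mul (Real.exp_ne_zero _) (by positivity), Real.log_exp, Real.log_pow]
  have hlog2 : ∀ k : ℕ, Real.log (2 * (Real.exp a * 2 ^ k)) = Real.log 2 + (a + k * Real.log 2) := by
    intro k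
    rw [Real.log_mul two_ne_zero (by positivity), hlog]
  have h0 : 0 ≤ (u - a) / Real.log 2 := div_nonneg (by linarith [hu.1]) hl2.le
  refine ⟨⌊(u - a) / Real.log 2⌋₊, ?_⟩
  rw [hlog, hlog2]
  have h2 := Nat.floor_le h0
  have h3 := Nat.lt_floor_add_one ((u - a) / Real.log 2)
  rw [le_div_iff₀ hl2] at h2
  rw [div_lt_iff₀ hl2] at h3
  constructor
  · linarith
  · linarith

theorem fin_log (k : ℕ) (η : ℝ) (hη : 0 < η) : ∃ C : ℝ, 0 < C ∧ ∀ N : ℕ, 1 ≤ N →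
    (Real.log (N + 2) + 1) ^ k ≤ C * (N : ℝ) ^ η := by
  have hk : (0 : ℝ) < (k : ℝ) + 1 := by positivity
  have hδ : 0 < η / ((k : ℝ) + 1) := by positivity
  refine ⟨(1 / (η / ((k : ℝ) + 1)) + 1) ^ k * 3 ^ η, by positivity, fun N hN => ?_⟩
  have hN1 : (1 : ℝ) ≤ N := by exact_mod_cast hN
  have h1 := Real.log_le_rpow_div (x := (N : ℝ) + 2) (by positivity) hδ
  have h2 : (1 : ℝ) ≤ ((N : ℝ) + 2) ^ (η / ((k : ℝ) + 1)) := Real.one_le_rpow (by linarith) hδ.le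
  have h0 : 0 ≤ Real.log ((N : ℝ) + 2) := Real.log_nonneg (by linarith)
  have h3 : Real.log ((N : ℝ) + 2) + 1 ≤
      (1 / (η / ((k : ℝ) + 1)) + 1) * ((N : ℝ) + 2) ^ (η / ((k : ℝ) + 1)) := by
    calc _ ≤ ((N : ℝ) + 2) ^ (η / ((k : ℝ) + 1)) / (η / ((k : ℝ) + 1)) +
        ((N : ℝ) + 2) ^ (η / ((k : ℝ) + 1)) := add_le_add h1 h2
      _ = _ := by ring
  have h4 : (((N : ℝ) + 2) ^ (η / ((k : ℝ) + 1))) ^ k ≤ 3 ^ η * (N : ℝ) ^ η := by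
    rw [← Real.rpow_natCast, ← Real.rpow_mul (by positivity), ← Real.mul_rpow (by norm_num)
      (by positivity)]
    refine le_trans (Real.rpow_le_rpow_of_exponent_le (by linarith) (?_ : _ ≤ η))
      (Real.rpow_le_rpow (by positivity) (by linarith) hη.le)
    rw [div_mul_eq_mul_div, div_le_iff₀ hk]
    nlinarith
  calc (Real.log (N + 2) + 1) ^ k
      ≤ ((1 / (η / ((k : ℝ) + 1)) + 1) * ((N : ℝ) + 2) ^ (η / ((k : ℝ) + 1))) ^ k :=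
        pow_le_pow_left₀ (by linarith) h3 k
    _ = (1 / (η / ((k : ℝ) + 1)) + 1) ^ k * (((N : ℝ) + 2) ^ (η / ((k : ℝ) + 1))) ^ k := mul_pow _ _ _
    _ ≤ (1 / (η / ((k : ℝ) + 1)) + 1) ^ k * (3 ^ η * (N : ℝ) ^ η) :=
        mul_le_mul_of_nonneg_left h4 (by positivity)
    _ = _ := by ring

theorem fin_split (f : ℕ → ℝ) (m j1 : ℕ) : ∀ J, j1 ≤ J →
    ∑ n ∈ Ioc 0 (min m (2 ^ J)), f n = ∑ n ∈ Ioc 0 (min m (2 ^ j1)), f n +
      ∑ j ∈ Ico j1 J, ∑ n ∈ Ioc (2 ^ j) (max (2 ^ j) (min (2 ^ (j + 1)) m)), f n := by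
  intro J hJ
  induction J, hJ using Nat.le_induction with
  | base => simp
  | succ J hJ ih =>
    rw [Finset.sum_Ico_succ_top hJ, ← add_assoc, ← ih]
    have h2 : 2 ^ J ≤ 2 ^ (J + 1) := Nat.pow_le_pow_right (by norm_num) (Nat.le_succ J)
    by_cases h : m ≤ 2 ^ J
    · have h3 : m ≤ 2 ^ (J + 1) := h.trans h2
      rw [min_eq_left h, min_eq_left h3, min_eq_right h3, max_eq_left h, Ioc_self, sum_empty,
        add_zero]
    · push Not at h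
      rw [min_eq_right h.le, max_eq_right (le_min h2 h.le), min_comm m,
        Finset.sum_Ioc_consecutive f (Nat.zero_le _) (le_min h2 h.le)]

theorem fin_harm (Q N : ℕ) (hQ : Q ≤ N) :
    ∑ q ∈ Icc 1 Q, (1 / (q : ℝ)) ≤ Real.log (N + 2) + 1 := by
  have h1 := harmonic_le_one_add_log Q
  rw [harmonic_eq_sum_Icc] at h1
  push_cast at h1
  have h2 : Real.log Q ≤ Real.log (N + 2) := by
    rcases Nat.eq_zero_or_pos Q with h | h
    · subst h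
      simp only [Nat.cast_zero, Real.log_zero]
      exact Real.log_nonneg (by have : (0 : ℝ) ≤ N := Nat.cast_nonneg N
                                linarith)
    · apply Real.log_le_log (by exact_mod_cast h)
      have : (Q : ℝ) ≤ N := by exact_mod_cast hQ
      linarith
  simp only [one_div]
  linarith

theorem fin_det (ε η₀ θ η : ℝ) (hε1 : ε < 1) (hη₀ : 0 < η₀) (hη₁ : η₀ < 1)
    (hθ0 : 0 < θ) (hθ1 : θ < 1) (hθe : θ * (1 - ε / 2) = 1 - ε) (hη : 0 < η)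
    (e1 : 2 * η ≤ θ * η₀) (e2 : 2 * η ≤ 1 - θ) (e3 : 2 * η ≤ ε)
    (w : ℕ → ℝ) (hw : LogBdd w) (b : ℕ → ℕ → ℕ) (α : ℝ) (hα0 : 0 < α)
    (hα : ∀ᶠ j : ℕ in atTop, ∀ M i : ℕ → ℕ,
        (∀ q, 2 ^ j ≤ M q ∧ M q ≤ 2 ^ (j + 1)) → (∀ q, (i q : ℝ) ≤ ((2 : ℝ) ^ j) ^ η₀) →
        ∑ q ∈ Icc 1 ⌊((2 : ℝ) ^ j) ^ (1 - ε / 2)⌋₊,
          |∑ n ∈ Ioc (2 ^ j) (M q), w n * gq q (b q (i q)) ⌊α * n⌋₊| ≤
          ((2 : ℝ) ^ j) ^ (1 - η₀)) :
    ∃ C : ℝ, ∀ N : ℕ, 1 ≤ N →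
      ∀ M i : ℕ → ℕ, (∀ q, M q ≤ N) → (∀ q, (i q : ℝ) ≤ (N : ℝ) ^ η) →
        ∑ q ∈ Icc 1 ⌊(N : ℝ) ^ (1 - ε)⌋₊, |∑ n ∈ Icc 1 (M q), w n * gq q (b q (i q)) ⌊α * n⌋₊| ≤
          C * (N : ℝ) ^ (1 - η) := by
  obtain ⟨Cw, k, hCw⟩ := hw
  have hCw0 : 0 ≤ Cw := by
    have h1 := (abs_nonneg _).trans (hCw 0)
    have h2 : 0 < (Real.log (((0 : ℕ) : ℝ) + 2)) ^ k := by
      apply pow_pos
      apply Real.log_pos
      norm_num
    by_contra h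
    push Not at h
    nlinarith [mul_neg_of_neg_of_pos h h2]
  obtain ⟨C1, hC1, hcnt⟩ := cnt α hα0
  obtain ⟨C2, hC2, hlog⟩ := fin_log (k + 1) η hη
  obtain ⟨j0, hj0⟩ := eventually_atTop.1 hα
  refine ⟨C2 * (Cw * C1 * (2 ^ (j0 + 1) + 1) + 2), fun N hN M i hM hi => ?_⟩
  have hN1 : (1 : ℝ) ≤ N := by exact_mod_cast hN
  have hN0 : (0 : ℝ) < N := by linarith
  have hlN : Real.log N ≤ Real.log (N + 2) := Real.log_le_log hN0 (by linarith)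
  have hlN0 : 0 ≤ Real.log N := Real.log_nonneg hN1
  set L : ℝ := Real.log (N + 2) + 1 with hL
  have hL1 : 1 ≤ L := by linarith
  have hθN : 1 ≤ (N : ℝ) ^ θ := Real.one_le_rpow hN1 hθ0.le
  obtain ⟨n, hn1, hn2⟩ := exists_nat_pow_near hθN one_lt_two
  obtain ⟨j1, hj1⟩ : ∃ j1, j1 = max j0 (n + 1) := ⟨_, rfl⟩
  have hj01 : j0 ≤ j1 := hj1 ▸ le_max_left _ _
  have hnj1 : n + 1 ≤ j1 := hj1 ▸ le_max_right _ _
  have h2j1 : (N : ℝ) ^ θ ≤ 2 ^ j1 :=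
    hn2.le.trans (pow_le_pow_right₀ one_le_two hnj1)
  have h2j1' : (2 : ℝ) ^ j1 ≤ 2 ^ (j0 + 1) * (N : ℝ) ^ θ := by
    rcases le_total j0 (n + 1) with h | h
    · rw [hj1, max_eq_right h]
      calc (2 : ℝ) ^ (n + 1) = 2 * 2 ^ n := by ring
        _ ≤ 2 * (N : ℝ) ^ θ := by linarith
        _ ≤ 2 ^ (j0 + 1) * (N : ℝ) ^ θ := by
          apply mul_le_mul_of_nonneg_right _ (by linarith)
          calc (2 : ℝ) = 2 ^ 1 := by norm_num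
            _ ≤ 2 ^ (j0 + 1) := pow_le_pow_right₀ one_le_two (by omega)
    · rw [hj1, max_eq_left h]
      calc (2 : ℝ) ^ j0 ≤ 2 ^ (j0 + 1) := pow_le_pow_right₀ one_le_two (by omega)
        _ = 2 ^ (j0 + 1) * 1 := (mul_one _).symm
        _ ≤ _ := mul_le_mul_of_nonneg_left hθN (by positivity)
  obtain ⟨J2, hJ2⟩ : ∃ J2, J2 = max j1 (Nat.log 2 N + 1) := ⟨_, rfl⟩
  have hj1J2 : j1 ≤ J2 := hJ2 ▸ le_max_left _ _
  have hNJ2 : N ≤ 2 ^ J2 := by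
    have h1 := (Nat.lt_pow_succ_log_self (b := 2) (by norm_num) N).le
    exact h1.trans (Nat.pow_le_pow_right (by norm_num) (hJ2 ▸ le_max_right _ _))
  set Q : ℕ := ⌊(N : ℝ) ^ (1 - ε)⌋₊ with hQ
  have hQR : (Q : ℝ) ≤ (N : ℝ) ^ (1 - ε) := Nat.floor_le (by positivity)
  have hε0 : 0 < ε := by linarith
  have hQN : Q ≤ N := by
    have : (Q : ℝ) ≤ N := hQR.trans (by
      calc (N : ℝ) ^ (1 - ε) ≤ (N : ℝ) ^ (1 : ℝ) :=
          Real.rpow_le_rpow_of_exponent_le hN1 (by linarith)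
        _ = N := Real.rpow_one _)
    exact_mod_cast this
  -- the splitting
  have hsplit : ∀ q, ∑ n ∈ Icc 1 (M q), w n * gq q (b q (i q)) ⌊α * n⌋₊ =
      ∑ n ∈ Ioc 0 (min (M q) (2 ^ j1)), w n * gq q (b q (i q)) ⌊α * n⌋₊ +
      ∑ j ∈ Ico j1 J2, ∑ n ∈ Ioc (2 ^ j) (max (2 ^ j) (min (2 ^ (j + 1)) (M q))),
        w n * gq q (b q (i q)) ⌊α * n⌋₊ := by
    intro q
    rw [← fin_split (fun n => w n * gq q (b q (i q)) ⌊α * n⌋₊) (M q) j1 J2 hj1J2,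
      min_eq_left ((hM q).trans hNJ2)]
    rfl
  -- the first part
  have hW : ∀ n : ℕ, n ≤ N → |w n| ≤ Cw * L ^ k := by
    intro n hn
    refine (hCw n).trans (mul_le_mul_of_nonneg_left (pow_le_pow_left₀ ?_ ?_ k) hCw0)
    · exact Real.log_nonneg (by have : (0 : ℝ) ≤ n := Nat.cast_nonneg n
                                linarith)
    · have h1 : (n : ℝ) ≤ N := by exact_mod_cast hn
      have h2 : (0 : ℝ) ≤ n := Nat.cast_nonneg n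
      have := Real.log_le_log (x := (n : ℝ) + 2) (y := N + 2) (by linarith) (by linarith)
      linarith
  have hW0 : 0 ≤ Cw * L ^ k := mul_nonneg hCw0 (by positivity)
  have hA : ∀ q ∈ Icc 1 Q, |∑ n ∈ Ioc 0 (min (M q) (2 ^ j1)), w n * gq q (b q (i q)) ⌊α * n⌋₊| ≤
      Cw * L ^ k * (C1 * (2 ^ j1 * (1 / (q : ℝ)) + 1)) := by
    intro q hq
    have hq1 : 1 ≤ q := (Finset.mem_Icc.1 hq).1
    have hq0 : (0 : ℝ) < q := by exact_mod_cast hq1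
    calc |∑ n ∈ Ioc 0 (min (M q) (2 ^ j1)), w n * gq q (b q (i q)) ⌊α * n⌋₊|
        ≤ ∑ n ∈ Ioc 0 (min (M q) (2 ^ j1)), |w n * gq q (b q (i q)) ⌊α * n⌋₊| :=
          Finset.abs_sum_le_sum_abs _ _
      _ ≤ ∑ n ∈ Ioc 0 (min (M q) (2 ^ j1)), Cw * L ^ k * |gq q (b q (i q)) ⌊α * n⌋₊| := by
          refine Finset.sum_le_sum fun n hn => ?_
          rw [abs_mul]
          have h1 := (Finset.mem_Ioc.1 hn).2
          have h2 : n ≤ N := h1.trans ((min_le_left _ _).trans (hM q))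
          exact mul_le_mul_of_nonneg_right (hW n h2) (abs_nonneg _)
      _ = Cw * L ^ k * ∑ n ∈ Ioc 0 (min (M q) (2 ^ j1)), |gq q (b q (i q)) ⌊α * n⌋₊| := by
          rw [Finset.mul_sum]
      _ ≤ Cw * L ^ k * (C1 * ((((min (M q) (2 ^ j1) : ℕ) : ℝ) - (0 : ℕ)) / q + 1)) :=
          mul_le_mul_of_nonneg_left
            (hcnt α ⟨le_rfl, by linarith⟩ q (b q (i q)) 0 _ hq1 (Nat.zero_le _)) hW0
      _ ≤ _ := by
          apply mul_le_mul_of_nonneg_left _ hW0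
          apply mul_le_mul_of_nonneg_left _ hC1.le
          have h3 : (((min (M q) (2 ^ j1) : ℕ) : ℝ)) ≤ 2 ^ j1 := by
            have : min (M q) (2 ^ j1) ≤ 2 ^ j1 := min_le_right _ _
            exact_mod_cast this
          rw [Nat.cast_zero, sub_zero, mul_one_div]
          have := div_le_div_of_nonneg_right h3 hq0.le
          linarith
  have hA2 : ∑ q ∈ Icc 1 Q, |∑ n ∈ Ioc 0 (min (M q) (2 ^ j1)),
      w n * gq q (b q (i q)) ⌊α * n⌋₊| ≤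
      L ^ (k + 1) * (N : ℝ) ^ (1 - 2 * η) * (Cw * C1 * (2 ^ (j0 + 1) + 1)) := by
    have hp1 : (N : ℝ) ^ θ ≤ (N : ℝ) ^ (1 - 2 * η) :=
      Real.rpow_le_rpow_of_exponent_le hN1 (by linarith)
    have hp2 : (N : ℝ) ^ (1 - ε) ≤ (N : ℝ) ^ (1 - 2 * η) :=
      Real.rpow_le_rpow_of_exponent_le hN1 (by linarith)
    have hP0 : 0 < (N : ℝ) ^ (1 - 2 * η) := by positivity
    calc _ ≤ ∑ q ∈ Icc 1 Q, Cw * L ^ k * (C1 * (2 ^ j1 * (1 / (q : ℝ)) + 1)) :=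
          Finset.sum_le_sum hA
      _ = Cw * L ^ k * (C1 * (2 ^ j1 * (∑ q ∈ Icc 1 Q, (1 / (q : ℝ))) + Q)) := by
          rw [← Finset.mul_sum, ← Finset.mul_sum, Finset.sum_add_distrib, ← Finset.mul_sum]
          simp
      _ ≤ Cw * L ^ k * (C1 * ((2 ^ (j0 + 1) * (N : ℝ) ^ (1 - 2 * η)) * L +
            (N : ℝ) ^ (1 - 2 * η) * L)) := by
          apply mul_le_mul_of_nonneg_left _ hW0
          apply mul_le_mul_of_nonneg_left _ hC1.le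
          apply add_le_add
          · apply mul_le_mul _ (fin_harm Q N hQN) _ (by positivity)
            · exact h2j1'.trans (mul_le_mul_of_nonneg_left hp1 (by positivity))
            · exact Finset.sum_nonneg fun q _ => by positivity
          · refine hQR.trans (hp2.trans ?_)
            nlinarith
      _ = _ := by ring
  -- the second part
  have hB : ∀ j ∈ Ico j1 J2, ∑ q ∈ Icc 1 Q,
      |∑ n ∈ Ioc (2 ^ j) (max (2 ^ j) (min (2 ^ (j + 1)) (M q))),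
        w n * gq q (b q (i q)) ⌊α * n⌋₊| ≤ (N : ℝ) ^ (1 - 2 * η) := by
    intro j hj
    obtain ⟨hj1', hjJ⟩ := Finset.mem_Ico.1 hj
    have hjlog : j ≤ Nat.log 2 N := by
      rw [hJ2] at hjJ
      rcases lt_max_iff.1 hjJ with h | h
      · omega
      · omega
    have h2jN : (2 : ℝ) ^ j ≤ N := by
      have h1 : 2 ^ j ≤ N := (Nat.pow_le_pow_right (by norm_num) hjlog).trans
        (Nat.pow_log_le_self 2 (by omega))
      exact_mod_cast h1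
    have hθj : (N : ℝ) ^ θ ≤ 2 ^ j := h2j1.trans (pow_le_pow_right₀ one_le_two hj1')
    have hQj : Q ≤ ⌊((2 : ℝ) ^ j) ^ (1 - ε / 2)⌋₊ := by
      rw [hQ]
      apply Nat.floor_le_floor
      calc (N : ℝ) ^ (1 - ε) = ((N : ℝ) ^ θ) ^ (1 - ε / 2) := by
            rw [← Real.rpow_mul hN0.le, hθe]
        _ ≤ _ := Real.rpow_le_rpow (by positivity) hθj (by linarith)
    have hij : ∀ q, (i q : ℝ) ≤ ((2 : ℝ) ^ j) ^ η₀ := by
      intro q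
      refine (hi q).trans ?_
      calc (N : ℝ) ^ η ≤ (N : ℝ) ^ (θ * η₀) :=
            Real.rpow_le_rpow_of_exponent_le hN1 (by linarith)
        _ = ((N : ℝ) ^ θ) ^ η₀ := Real.rpow_mul hN0.le _ _
        _ ≤ _ := Real.rpow_le_rpow (by positivity) hθj hη₀.le
    have hMj : ∀ q, 2 ^ j ≤ max (2 ^ j) (min (2 ^ (j + 1)) (M q)) ∧
        max (2 ^ j) (min (2 ^ (j + 1)) (M q)) ≤ 2 ^ (j + 1) := by
      intro q
      refine ⟨le_max_left _ _, max_le ?_ (min_le_left _ _)⟩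
      exact Nat.pow_le_pow_right (by norm_num) (Nat.le_succ j)
    have h1 := hj0 j (hj01.trans hj1') (fun q => max (2 ^ j) (min (2 ^ (j + 1)) (M q))) i hMj hij
    calc _ ≤ ∑ q ∈ Icc 1 ⌊((2 : ℝ) ^ j) ^ (1 - ε / 2)⌋₊,
          |∑ n ∈ Ioc (2 ^ j) (max (2 ^ j) (min (2 ^ (j + 1)) (M q))),
            w n * gq q (b q (i q)) ⌊α * n⌋₊| := by
          apply Finset.sum_le_sum_of_subset_of_nonneg
          · exact Finset.Icc_subset_Icc_right hQj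
          · intros; exact abs_nonneg _
      _ ≤ ((2 : ℝ) ^ j) ^ (1 - η₀) := h1
      _ ≤ (N : ℝ) ^ (1 - η₀) := Real.rpow_le_rpow (by positivity) h2jN (by linarith)
      _ ≤ (N : ℝ) ^ (1 - 2 * η) := by
          apply Real.rpow_le_rpow_of_exponent_le hN1
          have : θ * η₀ ≤ 1 * η₀ := mul_le_mul_of_nonneg_right hθ1.le hη₀.le
          linarith
  have hcard : ((J2 - j1 : ℕ) : ℝ) ≤ 2 * L ^ (k + 1) := by
    have h1 : J2 - j1 ≤ Nat.log 2 N + 1 := by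
      rw [hJ2]
      rcases le_total j1 (Nat.log 2 N + 1) with h | h
      · rw [max_eq_right h]; omega
      · rw [max_eq_left h]; omega
    have h2 : ((J2 - j1 : ℕ) : ℝ) ≤ (Nat.log 2 N : ℝ) + 1 := by exact_mod_cast h1
    have h3 : (Nat.log 2 N : ℝ) * Real.log 2 ≤ Real.log N := by
      rw [← Real.log_pow]
      apply Real.log_le_log (by positivity)
      exact_mod_cast Nat.pow_log_le_self 2 (by omega)
    have h4 : (1 / 2 : ℝ) < Real.log 2 := by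
      have := Real.log_two_gt_d9
      linarith
    have h5 : (Nat.log 2 N : ℝ) ≤ 2 * Real.log N := by
      have h6 : (0 : ℝ) ≤ (Nat.log 2 N : ℝ) := Nat.cast_nonneg _
      nlinarith
    have h7 : L ≤ L ^ (k + 1) := by
      calc L = L ^ 1 := (pow_one L).symm
        _ ≤ L ^ (k + 1) := pow_le_pow_right₀ hL1 (by omega)
    linarith
  have hP0 : 0 < (N : ℝ) ^ (1 - 2 * η) := by positivity
  calc ∑ q ∈ Icc 1 Q, |∑ n ∈ Icc 1 (M q), w n * gq q (b q (i q)) ⌊α * n⌋₊|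
      ≤ ∑ q ∈ Icc 1 Q, (|∑ n ∈ Ioc 0 (min (M q) (2 ^ j1)), w n * gq q (b q (i q)) ⌊α * n⌋₊| +
          ∑ j ∈ Ico j1 J2, |∑ n ∈ Ioc (2 ^ j) (max (2 ^ j) (min (2 ^ (j + 1)) (M q))),
            w n * gq q (b q (i q)) ⌊α * n⌋₊|) := by
        refine Finset.sum_le_sum fun q _ => ?_
        rw [hsplit q]
        exact (abs_add_le _ _).trans (add_le_add le_rfl (Finset.abs_sum_le_sum_abs _ _))
    _ = ∑ q ∈ Icc 1 Q, |∑ n ∈ Ioc 0 (min (M q) (2 ^ j1)), w n * gq q (b q (i q)) ⌊α * n⌋₊| +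
          ∑ j ∈ Ico j1 J2, ∑ q ∈ Icc 1 Q,
            |∑ n ∈ Ioc (2 ^ j) (max (2 ^ j) (min (2 ^ (j + 1)) (M q))),
              w n * gq q (b q (i q)) ⌊α * n⌋₊| := by
        rw [Finset.sum_add_distrib, Finset.sum_comm (s := Icc 1 Q)]
    _ ≤ L ^ (k + 1) * (N : ℝ) ^ (1 - 2 * η) * (Cw * C1 * (2 ^ (j0 + 1) + 1)) +
          ∑ j ∈ Ico j1 J2, (N : ℝ) ^ (1 - 2 * η) := add_le_add hA2 (Finset.sum_le_sum hB)
    _ = L ^ (k + 1) * (N : ℝ) ^ (1 - 2 * η) * (Cw * C1 * (2 ^ (j0 + 1) + 1)) +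
          ((J2 - j1 : ℕ) : ℝ) * (N : ℝ) ^ (1 - 2 * η) := by
        rw [Finset.sum_const, Nat.card_Ico, nsmul_eq_mul]
    _ ≤ L ^ (k + 1) * (N : ℝ) ^ (1 - 2 * η) * (Cw * C1 * (2 ^ (j0 + 1) + 1)) +
          2 * L ^ (k + 1) * (N : ℝ) ^ (1 - 2 * η) := by
        have := mul_le_mul_of_nonneg_right hcard hP0.le
        linarith
    _ = L ^ (k + 1) * ((N : ℝ) ^ (1 - 2 * η) * (Cw * C1 * (2 ^ (j0 + 1) + 1) + 2)) := by ring
    _ ≤ (C2 * (N : ℝ) ^ η) * ((N : ℝ) ^ (1 - 2 * η) * (Cw * C1 * (2 ^ (j0 + 1) + 1) + 2)) := by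
        apply mul_le_mul_of_nonneg_right (hlog N hN)
        positivity
    _ = C2 * (Cw * C1 * (2 ^ (j0 + 1) + 1) + 2) * ((N : ℝ) ^ η * (N : ℝ) ^ (1 - 2 * η)) := by ring
    _ = C2 * (Cw * C1 * (2 ^ (j0 + 1) + 1) + 2) * (N : ℝ) ^ (1 - η) := by
        rw [← Real.rpow_add hN0]
        congr 2
        ring

theorem final (ε η₀ : ℝ) (hε : 0 < ε) (hε1 : ε < 1) (hη₀ : 0 < η₀) (hη₁ : η₀ < 1)
    (hd : ∀ (w : ℕ → ℝ) (_ : LogBdd w) (b : ℕ → ℕ → ℕ) (A : ℝ) (_ : 0 < A),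
      ∀ᵐ u ∂(volume.restrict (Set.Icc (Real.log A) (Real.log (2 * A)))), ∀ᶠ j : ℕ in atTop, ∀ M i : ℕ → ℕ,
        (∀ q, 2 ^ j ≤ M q ∧ M q ≤ 2 ^ (j + 1)) → (∀ q, (i q : ℝ) ≤ ((2 : ℝ) ^ j) ^ η₀) →
        ∑ q ∈ Icc 1 ⌊((2 : ℝ) ^ j) ^ (1 - ε / 2)⌋₊, |∑ n ∈ Ioc (2 ^ j) (M q), w n * gq q (b q (i q)) ⌊Real.exp u * n⌋₊| ≤
          ((2 : ℝ) ^ j) ^ (1 - η₀)) :
    ∃ η : ℝ, 0 < η ∧ ∀ (w : ℕ → ℝ) (_ : LogBdd w) (b : ℕ → ℕ → ℕ), ∀ᵐ α : ℝ, 0 < α → ∃ C : ℝ, ∀ N : ℕ, 1 ≤ N →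
      ∀ M i : ℕ → ℕ, (∀ q, M q ≤ N) → (∀ q, (i q : ℝ) ≤ (N : ℝ) ^ η) →
        ∑ q ∈ Icc 1 ⌊(N : ℝ) ^ (1 - ε)⌋₊, |∑ n ∈ Icc 1 (M q), w n * gq q (b q (i q)) ⌊α * n⌋₊| ≤ C * (N : ℝ) ^ (1 - η) := by
  have hd0 : (0 : ℝ) < 1 - ε / 2 := by linarith
  have hθ0 : 0 < (1 - ε) / (1 - ε / 2) := div_pos (by linarith) hd0
  have hθ1 : (1 - ε) / (1 - ε / 2) < 1 := by
    rw [div_lt_one hd0]; linarith
  have hθe : (1 - ε) / (1 - ε / 2) * (1 - ε / 2) = 1 - ε := div_mul_cancel₀ _ hd0.ne'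
  have hm : 0 < min ((1 - ε) / (1 - ε / 2) * η₀) (min (1 - (1 - ε) / (1 - ε / 2)) ε) :=
    lt_min (mul_pos hθ0 hη₀) (lt_min (by linarith) hε)
  have m1 : min ((1 - ε) / (1 - ε / 2) * η₀) (min (1 - (1 - ε) / (1 - ε / 2)) ε) ≤
    (1 - ε) / (1 - ε / 2) * η₀ := min_le_left _ _
  have m2 : min ((1 - ε) / (1 - ε / 2) * η₀) (min (1 - (1 - ε) / (1 - ε / 2)) ε) ≤
    1 - (1 - ε) / (1 - ε / 2) := (min_le_right _ _).trans (min_le_left _ _)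
  have m3 : min ((1 - ε) / (1 - ε / 2) * η₀) (min (1 - (1 - ε) / (1 - ε / 2)) ε) ≤ ε :=
    (min_le_right _ _).trans (min_le_right _ _)
  refine ⟨min ((1 - ε) / (1 - ε / 2) * η₀) (min (1 - (1 - ε) / (1 - ε / 2)) ε) / 2,
    by linarith, fun w hw b => ?_⟩
  have hae := fin_ae (fun α => ∀ᶠ j : ℕ in atTop, ∀ M i : ℕ → ℕ,
        (∀ q, 2 ^ j ≤ M q ∧ M q ≤ 2 ^ (j + 1)) → (∀ q, (i q : ℝ) ≤ ((2 : ℝ) ^ j) ^ η₀) →
        ∑ q ∈ Icc 1 ⌊((2 : ℝ) ^ j) ^ (1 - ε / 2)⌋₊,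
          |∑ n ∈ Ioc (2 ^ j) (M q), w n * gq q (b q (i q)) ⌊α * n⌋₊| ≤
          ((2 : ℝ) ^ j) ^ (1 - η₀)) (fun A hA => hd w hw b A hA)
  filter_upwards [hae] with α hα hα0
  exact fin_det ε η₀ ((1 - ε) / (1 - ε / 2)) _ hε1 hη₀ hη₁ hθ0 hθ1 hθe (by linarith)
    (by linarith) (by linarith) (by linarith) w hw b α hα0 (hα hα0)

end TQ12

end Pool.Agent.helper616_TQ
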