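import Pool.Agent.helper616_TQ.Defs

/-!
# Project TQ (helper616): exponential sums over logarithms
-/

set_option autoImplicit false
set_option maxHeartbeats 4000000

open Finset MeasureTheory Filter Topology
open Pool.Agent.helper616_TS (e LogBdd S_VDC Psi)

namespace Pool.Agent.helper616_TQ

namespace TQ1


/-- the derivatives of the logarithm -/
noncomputable def vdcl_phi (m : ℕ) (t : ℝ) : ℝ :=
  if m = 0 then Real.log t else (-1) ^ (m + 1) * ((m - 1).factorial : ℝ) * (t ^ m)⁻¹

theorem vdcl_deriv (m : ℕ) {t : ℝ} (ht : 0 < t) :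
    HasDerivAt (vdcl_phi m) (vdcl_phi (m + 1) t) t := by
  rcases Nat.eq_zero_or_pos m with rfl | hm
  · have h1 : vdcl_phi 0 = Real.log := by funext s; simp [vdcl_phi]
    have h2 : vdcl_phi (0 + 1) t = t⁻¹ := by simp [vdcl_phi]
    rw [h1, h2]
    exact Real.hasDerivAt_log ht.ne'
  · obtain ⟨k, rfl⟩ : ∃ k, m = k + 1 := ⟨m - 1, by omega⟩
    have h1 : vdcl_phi (k + 1) = fun s => (-1) ^ (k + 2) * (k.factorial : ℝ) * (s ^ (k + 1))⁻¹ := by
      funext s
      simp [vdcl_phi]
    rw [h1]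
    have h2 : HasDerivAt (fun s : ℝ => s ^ (k + 1)) (((k + 1 : ℕ) : ℝ) * t ^ k) t := by
      simpa using hasDerivAt_pow (k + 1) t
    have h3 := (h2.inv (pow_ne_zero _ ht.ne')).const_mul ((-1) ^ (k + 2) * (k.factorial : ℝ))
    refine h3.congr_deriv ?_
    have h4 : vdcl_phi (k + 1 + 1) t =
        (-1) ^ (k + 3) * ((k + 1).factorial : ℝ) * (t ^ (k + 2))⁻¹ := by
      simp [vdcl_phi]
    rw [h4, Nat.factorial_succ]
    have ht' := ht.ne'
    push_cast
    field_simp
    ring

/-- cutting a sum into blocks -/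
theorem vdcl_blocks (F : ℕ → ℂ) (J : ℕ) (K : ℝ) (hK : 0 ≤ K) (B : ℕ)
    (h : ∀ i < B, ∀ l ≤ J, ‖∑ n ∈ range l, F (i * J + n)‖ ≤ K) (L : ℕ) (hL : L ≤ B * J) :
    ‖∑ j ∈ range L, F j‖ ≤ B * K := by
  induction B generalizing L with
  | zero =>
    have : L = 0 := by omega
    subst this
    simp
  | succ B ih =>
    have ih' := ih (fun i hi => h i (by omega))
    push_cast
    by_cases hLB : L ≤ B * J
    · have := ih' L hLB
      nlinarith
    · obtain ⟨l, rfl⟩ : ∃ l, L = B * J + l := ⟨L - B * J, by omega⟩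
      have hl : l ≤ J := by
        have : (B + 1) * J = B * J + J := by ring
        omega
      rw [Finset.sum_range_add]
      have h1 := ih' (B * J) le_rfl
      have h2 := h B (by omega) l hl
      calc _ ≤ ‖∑ j ∈ range (B * J), F j‖ + ‖∑ n ∈ range l, F (B * J + n)‖ := norm_add_le _ _
        _ ≤ B * K + K := add_le_add h1 h2
        _ = (B + 1) * K := by ring

theorem vdcl_norm (x : ℝ) : ‖e x‖ = 1 := by
  unfold e
  exact Complex.norm_exp_ofReal_mul_I _

theorem vdc_log (hV : S_VDC) (M : ℕ) : ∃ η : ℝ, 0 < η ∧ η ≤ 1 ∧ ∃ C : ℝ, 0 < C ∧ ∀ (y ξ : ℝ) (L : ℕ),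
    1 ≤ y → (L : ℝ) ≤ 4 * y → 1 ≤ |ξ| → |ξ| ≤ y ^ M →
    ‖∑ j ∈ range L, e (ξ * Real.log (y + j))‖ ≤ C * (y ^ (1 - η) + y / |ξ|) := by
  obtain ⟨η, hη0, hη1, C, hC, hVC⟩ := hV (2 * M) ((1 / 3) ^ (2 * M + 4))
    ((2 * M + 4).factorial : ℝ) (by positivity)
  refine ⟨η, hη0, hη1, 36 * C + 8, by positivity, ?_⟩
  intro y ξ L hy hL hξ1 hξM
  have hy0 : 0 < y := by linarith
  have hp1 : 1 ≤ y ^ (1 - η) := Real.one_le_rpow hy (by linarith)
  have hq0 : 0 ≤ y / |ξ| := div_nonneg hy0.le (abs_nonneg _)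
  by_cases hy2 : y < 2
  · -- short sums
    have h1 : ‖∑ j ∈ range L, e (ξ * Real.log (y + j))‖ ≤ L := by
      calc ‖∑ j ∈ range L, e (ξ * Real.log (y + j))‖
          ≤ ∑ j ∈ range L, ‖e (ξ * Real.log (y + j))‖ := norm_sum_le _ _
        _ = L := by simp [vdcl_norm]
    have h2 : (L : ℝ) ≤ 8 := by linarith
    have h3 : 0 ≤ 36 * C * (y ^ (1 - η) + y / |ξ|) := by positivity
    nlinarith
  · push Not at hy2
    set J : ℕ := ⌊y⌋₊ with hJ
    have hJy : (J : ℝ) ≤ y := Nat.floor_le hy0.le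
    have hyJ : y < J + 1 := Nat.lt_floor_add_one y
    have hJ2 : 2 ≤ J := Nat.le_floor (by exact_mod_cast hy2)
    have hJ2r : (2 : ℝ) ≤ J := by exact_mod_cast hJ2
    have key : ∀ i < 6, ∀ l ≤ J, ‖∑ n ∈ range l, e (ξ * Real.log (y + ((i * J + n : ℕ) : ℝ)))‖ ≤
        6 * C * (y ^ (1 - η) + y / |ξ|) := by
      intro i hi l hl
      set u : ℝ := y + i * J with hu
      have hir : (i : ℝ) ≤ 5 := by
        have : i ≤ 5 := by omega
        exact_mod_cast this
      have hi0 : (0 : ℝ) ≤ i := Nat.cast_nonneg i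
      have huy : y ≤ u := by
        rw [hu]
        have : (0 : ℝ) ≤ i * J := by positivity
        linarith
      have hu6 : u ≤ 6 * y := by
        rw [hu]
        have : (i : ℝ) * J ≤ 5 * y := mul_le_mul hir hJy (by positivity) (by norm_num)
        linarith
      set K : ℕ := ⌊u⌋₊ with hK
      have hKu : (K : ℝ) ≤ u := Nat.floor_le (by linarith)
      have huK : u < K + 1 := Nat.lt_floor_add_one u
      have hJK : J ≤ K := Nat.floor_le_floor huy
      have hK1 : 1 ≤ K := by omega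
      have hJKr : (J : ℝ) ≤ K := by exact_mod_cast hJK
      have hlr : (l : ℝ) ≤ K := by exact_mod_cast hl.trans hJK
      have hK0 : (0 : ℝ) < K := by exact_mod_cast hK1
      have h1 := hVC K l u ξ vdcl_phi hK1 hKu (hl.trans hJK) (by linarith)
        (fun m _ t ht => vdcl_deriv m (hK0.trans_le ht.1)) ?_ hξ1 ?_
      · have h2 : ∀ n : ℕ, ξ * vdcl_phi 0 (u + n) = ξ * Real.log (y + ((i * J + n : ℕ) : ℝ)) := by
          intro n
          have : u + n = y + ((i * J + n : ℕ) : ℝ) := by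
            rw [hu]
            push_cast
            ring
          simp [vdcl_phi, this]
        simp only [h2] at h1
        refine h1.trans ?_
        have h3 : (K : ℝ) ^ (1 - η) ≤ 6 * y ^ (1 - η) := by
          calc (K : ℝ) ^ (1 - η) ≤ (6 * y) ^ (1 - η) :=
                Real.rpow_le_rpow hK0.le (hKu.trans hu6) (by linarith)
            _ = 6 ^ (1 - η) * y ^ (1 - η) := Real.mul_rpow (by norm_num) hy0.le
            _ ≤ 6 * y ^ (1 - η) := by
              have h6 : (6 : ℝ) ^ (1 - η) ≤ 6 ^ (1 : ℝ) :=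
                Real.rpow_le_rpow_of_exponent_le (by norm_num) (by linarith)
              rw [Real.rpow_one] at h6
              exact mul_le_mul_of_nonneg_right h6 (by linarith)
        have h4 : (K : ℝ) / |ξ| ≤ 6 * (y / |ξ|) := by
          rw [← mul_div_assoc]
          exact div_le_div_of_nonneg_right (hKu.trans hu6) (abs_nonneg _)
        calc C * ((K : ℝ) ^ (1 - η) + K / |ξ|) ≤ C * (6 * y ^ (1 - η) + 6 * (y / |ξ|)) :=
              mul_le_mul_of_nonneg_left (add_le_add h3 h4) hC.le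
          _ = 6 * C * (y ^ (1 - η) + y / |ξ|) := by ring
      · intro m hm1 hm2 t ht
        have ht0 : 0 < t := hK0.trans_le ht.1
        have e1 : (-1) ^ (m + 1) * vdcl_phi m t * (K : ℝ) ^ m =
            ((m - 1).factorial : ℝ) * (K / t) ^ m := by
          have h5 : ((-1 : ℝ) ^ (m + 1)) * (-1) ^ (m + 1) = 1 := by
            rw [← mul_pow]
            simp
          rw [vdcl_phi, if_neg (by omega), div_pow, div_eq_mul_inv]
          linear_combination ((m - 1).factorial : ℝ) * (t ^ m)⁻¹ * (K : ℝ) ^ m * h5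
        rw [e1]
        have hr1 : (K : ℝ) / t ≤ 1 := (div_le_one ht0).2 ht.1
        have hr3 : 1 / 3 ≤ (K : ℝ) / t := by
          rw [div_le_div_iff₀ (by norm_num) ht0]
          have := ht.2
          linarith
        have hf1 : (1 : ℝ) ≤ ((m - 1).factorial : ℝ) := by
          exact_mod_cast Nat.one_le_iff_ne_zero.2 (Nat.factorial_ne_zero _)
        have hf2 : ((m - 1).factorial : ℝ) ≤ ((2 * M + 4).factorial : ℝ) := by
          exact_mod_cast Nat.factorial_le (by omega)
        constructor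
        · calc ((1 : ℝ) / 3) ^ (2 * M + 4) ≤ (1 / 3) ^ m :=
                pow_le_pow_of_le_one (by norm_num) (by norm_num) hm2
            _ ≤ (K / t) ^ m := pow_le_pow_left₀ (by norm_num) hr3 m
            _ = 1 * (K / t) ^ m := (one_mul _).symm
            _ ≤ ((m - 1).factorial : ℝ) * (K / t) ^ m :=
                mul_le_mul_of_nonneg_right hf1 (by positivity)
        · calc ((m - 1).factorial : ℝ) * (K / t) ^ m ≤ ((2 * M + 4).factorial : ℝ) * 1 :=
                mul_le_mul hf2 (pow_le_one₀ (by positivity) hr1) (by positivity) (by positivity)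
            _ = _ := mul_one _
      · have h5 : y ≤ (K : ℝ) ^ 2 := by nlinarith
        calc |ξ| ≤ y ^ M := hξM
          _ ≤ ((K : ℝ) ^ 2) ^ M := pow_le_pow_left₀ hy0.le h5 M
          _ = (K : ℝ) ^ (2 * M) := by rw [← pow_mul]
    have hL6 : L ≤ 6 * J := by
      have : (L : ℝ) < 6 * J + 1 := by linarith
      have h2 : L < 6 * J + 1 := by exact_mod_cast this
      omega
    have hfin := vdcl_blocks (fun j => e (ξ * Real.log (y + (j : ℝ)))) J
      (6 * C * (y ^ (1 - η) + y / |ξ|)) (by positivity) 6 key L hL6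
    refine hfin.trans ?_
    have h3 : 0 ≤ 8 * (y ^ (1 - η) + y / |ξ|) := by positivity
    push_cast
    nlinarith

end TQ1

end Pool.Agent.helper616_TQ
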