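import Pool.Agent.helper616_TQ.Defs
import Pool.Agent.helper616_TQ.TQ1

/-!
# Project TQ (helper616): the same with a weight
-/

set_option autoImplicit false
set_option maxHeartbeats 4000000

open Finset MeasureTheory Filter Topology
open Pool.Agent.helper616_TS (e LogBdd S_VDC Psi)

namespace Pool.Agent.helper616_TQ

open TQ1 (vdc_log)

namespace TQ2


/-- Abel summation with nonnegative weights -/
theorem ser_high_abel (w : ℕ → ℝ) (f : ℕ → ℂ) (L : ℕ) :
    ∑ j ∈ range L, ((w j : ℝ) : ℂ) * f j =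
      ((w L : ℝ) : ℂ) * ∑ j ∈ range L, f j +
        ∑ j ∈ range L, (((w j - w (j + 1) : ℝ)) : ℂ) * ∑ i ∈ range (j + 1), f i := by
  induction L with
  | zero => simp
  | succ L ih =>
    rw [sum_range_succ, ih, sum_range_succ (fun j => (((w j - w (j + 1) : ℝ)) : ℂ) *
      ∑ i ∈ range (j + 1), f i)]
    rw [sum_range_succ f L]
    push_cast
    ring

theorem ser_high_bound (w : ℕ → ℝ) (f : ℕ → ℂ) (L : ℕ) (B : ℝ) (hw : ∀ j, 0 ≤ w j)
    (hanti : ∀ j, w (j + 1) ≤ w j) (hB : ∀ k ≤ L, ‖∑ j ∈ range k, f j‖ ≤ B) :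
    ‖∑ j ∈ range L, ((w j : ℝ) : ℂ) * f j‖ ≤ w 0 * B := by
  rw [ser_high_abel]
  have hB0 : 0 ≤ B := (norm_nonneg _).trans (hB 0 (Nat.zero_le _))
  have h1 : ‖((w L : ℝ) : ℂ) * ∑ j ∈ range L, f j‖ ≤ w L * B := by
    rw [norm_mul, Complex.norm_real, Real.norm_of_nonneg (hw L)]
    exact mul_le_mul_of_nonneg_left (hB L le_rfl) (hw L)
  have h2 : ‖∑ j ∈ range L, (((w j - w (j + 1) : ℝ)) : ℂ) * ∑ i ∈ range (j + 1), f i‖ ≤
      ∑ j ∈ range L, (w j - w (j + 1)) * B := by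
    refine (norm_sum_le _ _).trans (sum_le_sum ?_)
    intro j hj
    rw [norm_mul, Complex.norm_real, Real.norm_of_nonneg (by linarith [hanti j])]
    exact mul_le_mul_of_nonneg_left (hB (j + 1) (by have := mem_range.mp hj; omega))
      (by linarith [hanti j])
  have h3 : ∑ j ∈ range L, (w j - w (j + 1)) * B = (w 0 - w L) * B := by
    rw [← sum_mul, sum_range_sub']
  calc _ ≤ w L * B + (w 0 - w L) * B := (norm_add_le _ _).trans (by rw [← h3]; exact add_le_add h1 h2)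
    _ = w 0 * B := by ring

theorem ser_high (hV : S_VDC) (M : ℕ) : ∃ η : ℝ, 0 < η ∧ η ≤ 1 ∧ ∃ C : ℝ, 0 < C ∧ ∀ (y ξ : ℝ) (L : ℕ),
    1 ≤ y → (L : ℝ) ≤ 4 * y → 1 ≤ |ξ| → |ξ| ≤ y ^ M →
    ‖∑ j ∈ range L, ker ξ (y + j)‖ ≤ C * (y ^ (-η) + 1 / |ξ|) := by
  obtain ⟨η, hη0, hη1, C, hC, h⟩ := vdc_log hV M
  refine ⟨η, hη0, hη1, C, hC, ?_⟩
  intro y ξ L hy hL hξ1 hξM
  have hy0 : 0 < y := by linarith
  have hB : ∀ k ≤ L, ‖∑ j ∈ range k, e (-(ξ * Real.log (y + j)))‖ ≤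
      C * (y ^ (1 - η) + y / |ξ|) := by
    intro k hk
    have := h y (-ξ) k hy (le_trans (by exact_mod_cast hk) hL) (by rwa [abs_neg])
      (by rwa [abs_neg])
    rw [abs_neg] at this
    simpa only [neg_mul] using this
  have hk := ser_high_bound (fun j : ℕ => 1 / (y + j)) (fun j : ℕ => e (-(ξ * Real.log (y + j)))) L
    (C * (y ^ (1 - η) + y / |ξ|)) (fun j => by positivity) (fun j => by
      apply one_div_le_one_div_of_le
      · positivity
      · push_cast; linarith) hB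
  have he : ∑ j ∈ range L, ker ξ (y + j) = ∑ j ∈ range L, (((1 / (y + (j:ℝ)) : ℝ)) : ℂ) *
      e (-(ξ * Real.log (y + j))) := by
    apply sum_congr rfl
    intro j _
    rfl
  rw [he]
  refine hk.trans (le_of_eq ?_)
  have e1 : y ^ (1 - η) = y * y ^ (-η) := by
    rw [sub_eq_add_neg, Real.rpow_add hy0, Real.rpow_one]
  simp only [Nat.cast_zero, add_zero]
  rw [e1]
  have hξ0 : |ξ| ≠ 0 := by linarith
  field_simp

end TQ2

end Pool.Agent.helper616_TQ
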