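import Pool.Agent.helper616_TQ.Defs

/-!
# Project TQ (helper616): Euler-Maclaurin
-/

set_option autoImplicit false
set_option maxHeartbeats 4000000

open Finset MeasureTheory Filter Topology
open Pool.Agent.helper616_TS (e LogBdd S_VDC Psi)

namespace Pool.Agent.helper616_TQ

namespace TQ3


theorem norm_e' (x : ℝ) : ‖e x‖ = 1 := by
  unfold e
  exact Complex.norm_exp_ofReal_mul_I _

noncomputable def kerD (ξ x : ℝ) : ℂ :=
  ((-(1 / x ^ 2) : ℝ) : ℂ) * e (-(ξ * Real.log x)) +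
    ((1 / x : ℝ) : ℂ) * (e (-(ξ * Real.log x)) * (((2 * Real.pi * (-(ξ * (1 / x))) : ℝ) : ℂ) * Complex.I))

theorem hasDerivAt_ker (ξ x : ℝ) (hx : 0 < x) : HasDerivAt (ker ξ) (kerD ξ x) x := by
  have h1 : HasDerivAt (fun x : ℝ => 1 / x) (-(1 / x ^ 2)) x := by
    have := hasDerivAt_inv hx.ne'
    simp only [one_div]
    exact this
  have h1' : HasDerivAt (fun x : ℝ => ((1 / x : ℝ) : ℂ)) ((-(1 / x ^ 2) : ℝ) : ℂ) x := h1.ofReal_comp
  have h2 : HasDerivAt (fun x : ℝ => 2 * Real.pi * (-(ξ * Real.log x))) (2 * Real.pi * (-(ξ * (1 / x)))) x := by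
    have := ((Real.hasDerivAt_log hx.ne').const_mul ξ).fun_neg.const_mul (2 * Real.pi)
    rw [one_div]
    exact this
  have h3 : HasDerivAt (fun x : ℝ => (((2 * Real.pi * (-(ξ * Real.log x)) : ℝ) : ℂ) * Complex.I))
      (((2 * Real.pi * (-(ξ * (1 / x))) : ℝ) : ℂ) * Complex.I) x := h2.ofReal_comp.mul_const Complex.I
  have h4 : HasDerivAt (fun x : ℝ => e (-(ξ * Real.log x)))
      (e (-(ξ * Real.log x)) * (((2 * Real.pi * (-(ξ * (1 / x))) : ℝ) : ℂ) * Complex.I)) x := by
    unfold e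
    exact h3.cexp
  exact h1'.mul h4

theorem norm_kerD (ξ x : ℝ) (hx : 0 < x) : ‖kerD ξ x‖ ≤ (1 + 2 * Real.pi * |ξ|) * (1 / x ^ 2) := by
  unfold kerD
  refine (norm_add_le _ _).trans ?_
  rw [norm_mul, norm_mul, norm_mul, norm_mul, norm_e', Complex.norm_I, Complex.norm_real, Complex.norm_real, Complex.norm_real]
  have e1 : ‖(-(1 / x ^ 2) : ℝ)‖ = 1 / x ^ 2 := by
    rw [norm_neg, Real.norm_of_nonneg (by positivity)]
  have e2 : ‖(1 / x : ℝ)‖ = 1 / x := Real.norm_of_nonneg (by positivity)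
  have e3 : ‖(2 * Real.pi * (-(ξ * (1 / x))) : ℝ)‖ = 2 * Real.pi * |ξ| * (1 / x) := by
    rw [norm_mul, norm_neg, norm_mul ξ (1 / x), e2, Real.norm_of_nonneg (by positivity : (0:ℝ) ≤ 2 * Real.pi), Real.norm_eq_abs]
    ring
  rw [e1, e2, e3]
  have : (1 / x ^ 2) * 1 + 1 / x * (1 * (2 * Real.pi * |ξ| * (1 / x) * 1)) = (1 + 2 * Real.pi * |ξ|) * (1 / x ^ 2) := by
    field_simp
  rw [this]

theorem kerD_continuousOn (ξ a b : ℝ) (ha : 0 < a) : ContinuousOn (kerD ξ) (Set.Icc a b) := by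
  have hne : ∀ x ∈ Set.Icc a b, x ≠ 0 := fun x hx => (lt_of_lt_of_le ha hx.1).ne'
  have hlog : ContinuousOn (fun x : ℝ => Real.log x) (Set.Icc a b) :=
    Real.continuousOn_log.mono (fun x hx => hne x hx)
  have h0 : ContinuousOn (fun x : ℝ => 1 / x) (Set.Icc a b) :=
    continuousOn_const.div continuousOn_id hne
  have h1 : ContinuousOn (fun x : ℝ => 1 / x ^ 2) (Set.Icc a b) :=
    continuousOn_const.div (continuousOn_id.pow 2) (fun x hx => pow_ne_zero 2 (hne x hx))
  have he : ContinuousOn (fun x : ℝ => e (-(ξ * Real.log x))) (Set.Icc a b) := by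
    unfold e
    refine Complex.continuous_exp.comp_continuousOn ?_
    refine ContinuousOn.mul ?_ continuousOn_const
    refine Complex.continuous_ofReal.comp_continuousOn ?_
    exact continuousOn_const.mul (continuousOn_const.mul hlog).neg
  unfold kerD
  refine ContinuousOn.add ?_ ?_
  · exact (Complex.continuous_ofReal.comp_continuousOn h1.neg).mul he
  · refine ContinuousOn.mul (Complex.continuous_ofReal.comp_continuousOn h0) (he.mul ?_)
    refine ContinuousOn.mul ?_ continuousOn_const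
    refine Complex.continuous_ofReal.comp_continuousOn ?_
    exact continuousOn_const.mul (continuousOn_const.mul h0).neg

theorem ker_continuousOn (ξ a b : ℝ) (ha : 0 < a) : ContinuousOn (ker ξ) (Set.Icc a b) :=
  fun x hx => (hasDerivAt_ker ξ x (lt_of_lt_of_le ha hx.1)).continuousAt.continuousWithinAt

theorem em_step (a ξ : ℝ) (ha : 0 < a) :
    ‖ker ξ a - ∫ t in a..(a + 1), ker ξ t‖ ≤ (1 + 2 * Real.pi * |ξ|) * (1 / a - 1 / (a + 1)) := by
  have hle : a ≤ a + 1 := by linarith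
  have huI : Set.uIcc a (a + 1) = Set.Icc a (a + 1) := Set.uIcc_of_le hle
  have hi1 : IntervalIntegrable (ker ξ) volume a (a + 1) := by
    apply ContinuousOn.intervalIntegrable
    rw [huI]; exact ker_continuousOn ξ a (a + 1) ha
  have hc2 : ContinuousOn (fun t : ℝ => (((t - (a + 1) : ℝ)) : ℂ) * kerD ξ t) (Set.Icc a (a + 1)) :=
    ContinuousOn.mul (Complex.continuous_ofReal.comp_continuousOn (continuousOn_id.sub continuousOn_const))
      (kerD_continuousOn ξ a (a + 1) ha)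
  have hi2 : IntervalIntegrable (fun t : ℝ => (((t - (a + 1) : ℝ)) : ℂ) * kerD ξ t) volume a (a + 1) := by
    apply ContinuousOn.intervalIntegrable
    rw [huI]; exact hc2
  have hF : ∀ t ∈ Set.uIcc a (a + 1), HasDerivAt (fun t : ℝ => (((t - (a + 1) : ℝ)) : ℂ) * ker ξ t)
      (ker ξ t + (((t - (a + 1) : ℝ)) : ℂ) * kerD ξ t) t := by
    intro t ht
    rw [huI] at ht
    have h1 : HasDerivAt (fun t : ℝ => t - (a + 1)) 1 t := (hasDerivAt_id t).sub_const _
    have h2 : HasDerivAt (fun t : ℝ => (((t - (a + 1) : ℝ)) : ℂ)) ((1 : ℝ) : ℂ) t := h1.ofReal_comp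
    have h3 := h2.fun_mul (hasDerivAt_ker ξ t (lt_of_lt_of_le ha ht.1))
    rw [Complex.ofReal_one, one_mul] at h3
    exact h3
  have hFTC := intervalIntegral.integral_eq_sub_of_hasDerivAt hF (hi1.add hi2)
  rw [intervalIntegral.integral_add hi1 hi2] at hFTC
  have hval : ker ξ a - ∫ t in a..(a + 1), ker ξ t
      = ∫ t in a..(a + 1), (((t - (a + 1) : ℝ)) : ℂ) * kerD ξ t := by
    have e1 : (((a + 1 - (a + 1) : ℝ)) : ℂ) * ker ξ (a + 1) - (((a - (a + 1) : ℝ)) : ℂ) * ker ξ a = ker ξ a := by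
      push_cast; ring
    rw [e1] at hFTC
    rw [← hFTC]; ring
  rw [hval]
  have hi3 : IntervalIntegrable (fun t : ℝ => (1 + 2 * Real.pi * |ξ|) * (1 / t ^ 2)) volume a (a + 1) := by
    apply ContinuousOn.intervalIntegrable
    rw [huI]
    exact continuousOn_const.mul (continuousOn_const.div (continuousOn_id.pow 2)
      (fun x hx => pow_ne_zero 2 (lt_of_lt_of_le ha hx.1).ne'))
  have hG : ∀ t ∈ Set.uIcc a (a + 1), HasDerivAt (fun t : ℝ => (1 + 2 * Real.pi * |ξ|) * (-(1 / t)))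
      ((1 + 2 * Real.pi * |ξ|) * (1 / t ^ 2)) t := by
    intro t ht
    rw [huI] at ht
    have ht0 : 0 < t := lt_of_lt_of_le ha ht.1
    have := (hasDerivAt_inv ht0.ne').fun_neg.const_mul (1 + 2 * Real.pi * |ξ|)
    rw [neg_neg] at this
    simp only [one_div]
    exact this
  have hGi := intervalIntegral.integral_eq_sub_of_hasDerivAt hG hi3
  calc ‖∫ t in a..(a + 1), (((t - (a + 1) : ℝ)) : ℂ) * kerD ξ t‖
      ≤ ∫ t in a..(a + 1), ‖(((t - (a + 1) : ℝ)) : ℂ) * kerD ξ t‖ :=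
        intervalIntegral.norm_integral_le_integral_norm hle
    _ ≤ ∫ t in a..(a + 1), (1 + 2 * Real.pi * |ξ|) * (1 / t ^ 2) := by
        refine intervalIntegral.integral_mono_on hle hi2.norm hi3 ?_
        intro t ht
        have ht0 : 0 < t := lt_of_lt_of_le ha ht.1
        rw [norm_mul, Complex.norm_real, Real.norm_eq_abs]
        have h1 : |t - (a + 1)| ≤ 1 := by
          rw [abs_le]; constructor <;> linarith [ht.1, ht.2]
        calc |t - (a + 1)| * ‖kerD ξ t‖ ≤ 1 * ‖kerD ξ t‖ :=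
              mul_le_mul_of_nonneg_right h1 (norm_nonneg _)
          _ = ‖kerD ξ t‖ := one_mul _
          _ ≤ _ := norm_kerD ξ t ht0
    _ = (1 + 2 * Real.pi * |ξ|) * (1 / a - 1 / (a + 1)) := by
        rw [hGi]; ring

theorem em (y ξ : ℝ) (L : ℕ) (hy : 1 ≤ y) :
    ‖∑ j ∈ range L, ker ξ (y + j) - ∫ t in y..(y + L), ker ξ t‖ ≤ (1 + 2 * Real.pi * |ξ|) / y := by
  have hy0 : 0 < y := by linarith
  have hK : 0 ≤ 1 + 2 * Real.pi * |ξ| := by positivity
  have key : ∀ L : ℕ, ‖∑ j ∈ range L, ker ξ (y + j) - ∫ t in y..(y + L), ker ξ t‖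
      ≤ (1 + 2 * Real.pi * |ξ|) * (1 / y - 1 / (y + L)) := by
    intro L
    induction L with
    | zero => simp
    | succ n ih =>
      have hn : (0 : ℝ) ≤ (n : ℝ) := Nat.cast_nonneg n
      have i1 : IntervalIntegrable (ker ξ) volume y (y + n) := by
        apply ContinuousOn.intervalIntegrable
        rw [Set.uIcc_of_le (by linarith)]; exact ker_continuousOn ξ _ _ hy0
      have i2 : IntervalIntegrable (ker ξ) volume (y + n) (y + n + 1) := by
        apply ContinuousOn.intervalIntegrable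
        rw [Set.uIcc_of_le (by linarith)]; exact ker_continuousOn ξ _ _ (by linarith)
      have hsplit : ∫ t in y..(y + ((n + 1 : ℕ) : ℝ)), ker ξ t
          = (∫ t in y..(y + n), ker ξ t) + ∫ t in (y + n)..(y + n + 1), ker ξ t := by
        rw [intervalIntegral.integral_add_adjacent_intervals i1 i2]
        congr 1
        push_cast; ring
      rw [sum_range_succ, hsplit]
      have hst := em_step (y + n) ξ (by linarith)
      calc ‖∑ j ∈ range n, ker ξ (y + j) + ker ξ (y + n)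
              - ((∫ t in y..(y + n), ker ξ t) + ∫ t in (y + n)..(y + n + 1), ker ξ t)‖
          = ‖(∑ j ∈ range n, ker ξ (y + j) - ∫ t in y..(y + n), ker ξ t)
              + (ker ξ (y + n) - ∫ t in (y + n)..(y + n + 1), ker ξ t)‖ := by
            congr 1; ring
        _ ≤ _ := norm_add_le _ _
        _ ≤ (1 + 2 * Real.pi * |ξ|) * (1 / y - 1 / (y + n))
              + (1 + 2 * Real.pi * |ξ|) * (1 / (y + n) - 1 / (y + n + 1)) := add_le_add ih hst
        _ = (1 + 2 * Real.pi * |ξ|) * (1 / y - 1 / (y + ((n + 1 : ℕ) : ℝ))) := by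
            push_cast
            rw [show y + ((n : ℝ) + 1) = y + n + 1 by ring]
            ring
  refine (key L).trans ?_
  rw [div_eq_mul_one_div (1 + 2 * Real.pi * |ξ|) y]
  apply mul_le_mul_of_nonneg_left _ hK
  have : 0 ≤ 1 / (y + (L : ℝ)) := by positivity
  linarith

end TQ3

end Pool.Agent.helper616_TQ
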