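import Pool.Agent.helper616_TQ.Defs
import Pool.Agent.helper616_TQ.TQ2
import Pool.Agent.helper616_TQ.TQ3

/-!
# Project TQ (helper616): sums over a residue class
-/

set_option autoImplicit false
set_option maxHeartbeats 4000000

open Finset MeasureTheory Filter Topology
open Pool.Agent.helper616_TS (e LogBdd S_VDC Psi)

namespace Pool.Agent.helper616_TQ

open TQ2 (ser_high)
open TQ3 (em)

namespace TQ4


theorem norm_e (x : ℝ) : ‖e x‖ = 1 := by
  unfold e
  exact Complex.norm_exp_ofReal_mul_I _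

theorem e_add (x y : ℝ) : e (x + y) = e x * e y := by
  unfold e
  rw [← Complex.exp_add]
  congr 1
  push_cast
  ring

theorem ker_mul (ξ q t : ℝ) (hq : 0 < q) (ht : 0 < t) :
    ker ξ (q * t) = ((1 / q : ℝ) : ℂ) * e (-(ξ * Real.log q)) * ker ξ t := by
  unfold ker
  rw [Real.log_mul hq.ne' ht.ne', show -(ξ * (Real.log q + Real.log t))
    = -(ξ * Real.log q) + -(ξ * Real.log t) by ring, e_add]
  have hq' : (q : ℂ) ≠ 0 := by exact_mod_cast hq.ne'
  have ht' : (t : ℂ) ≠ 0 := by exact_mod_cast ht.ne'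
  push_cast
  field_simp

theorem norm_ker (ξ t : ℝ) (ht : 0 < t) : ‖ker ξ t‖ = 1 / t := by
  unfold ker
  rw [norm_mul, norm_e, mul_one, Complex.norm_real, Real.norm_eq_abs, abs_of_pos (by positivity)]

theorem contOn_ker (ξ : ℝ) : ContinuousOn (ker ξ) (Set.Ioi 0) := by
  unfold ker e
  apply ContinuousOn.mul
  · apply Complex.continuous_ofReal.comp_continuousOn
    apply ContinuousOn.div continuousOn_const continuousOn_id
    intro x hx
    exact (ne_of_gt hx)
  · apply Complex.continuous_exp.comp_continuousOn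
    apply ContinuousOn.mul _ continuousOn_const
    apply Complex.continuous_ofReal.comp_continuousOn
    apply ContinuousOn.mul continuousOn_const
    apply ContinuousOn.neg
    apply ContinuousOn.mul continuousOn_const
    apply Real.continuousOn_log.mono
    intro x hx
    exact (ne_of_gt hx)

theorem ii_ker (ξ a b : ℝ) (ha : 0 < a) (hb : 0 < b) : IntervalIntegrable (ker ξ) volume a b := by
  apply ContinuousOn.intervalIntegrable
  apply (contOn_ker ξ).mono
  intro x hx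
  rw [Set.mem_uIcc] at hx
  rcases hx with h | h
  · exact lt_of_lt_of_le ha h.1
  · exact lt_of_lt_of_le hb h.1

theorem int_small (ξ K a b : ℝ) (hK : 0 < K) (ha : K ≤ a) (hb : K ≤ b) (hab : |b - a| ≤ 1) :
    ‖∫ t in a..b, ker ξ t‖ ≤ 1 / K := by
  have h := intervalIntegral.norm_integral_le_of_norm_le_const (a := a) (b := b) (f := ker ξ) (C := 1 / K)
    (by
      intro x hx
      have hx' : K ≤ x := by
        have := Set.uIoc_subset_uIcc hx
        rw [Set.mem_uIcc] at this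
        rcases this with h | h
        · linarith [h.1]
        · linarith [h.1]
      rw [norm_ker ξ x (by linarith)]
      exact one_div_le_one_div_of_le hK hx')
  calc _ ≤ 1 / K * |b - a| := h
    _ ≤ 1 / K * 1 := by
        apply mul_le_mul_of_nonneg_left hab (by positivity)
    _ = 1 / K := by ring

theorem int_high (ξ a b : ℝ) (ha : 0 < a) (hb : 0 < b) (hξ : 0 < |ξ|) :
    ‖∫ t in a..b, ker ξ t‖ ≤ 1 / |ξ| := by
  have hξ0 : ξ ≠ 0 := abs_pos.mp hξ
  have hc : (2 * Real.pi * ξ : ℂ) * Complex.I ≠ 0 := by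
    apply mul_ne_zero _ Complex.I_ne_zero
    apply mul_ne_zero
    · apply mul_ne_zero (by norm_num)
      exact_mod_cast Real.pi_ne_zero
    · exact_mod_cast hξ0
  have hd : ∀ t ∈ Set.uIcc a b, HasDerivAt (fun t : ℝ => -(e (-(ξ * Real.log t)) / ((2 * Real.pi * ξ : ℂ) * Complex.I))) (ker ξ t) t := by
    intro t ht
    have ht0 : 0 < t := by
      rw [Set.mem_uIcc] at ht
      rcases ht with h | h
      · exact lt_of_lt_of_le ha h.1
      · exact lt_of_lt_of_le hb h.1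
    have ht0' : (t : ℂ) ≠ 0 := by exact_mod_cast ht0.ne'
    have h1 : HasDerivAt (fun t : ℝ => (2 * Real.pi * (-(ξ * Real.log t)) : ℝ)) (2 * Real.pi * (-(ξ * t⁻¹))) t :=
      (((Real.hasDerivAt_log ht0.ne').const_mul ξ).neg).const_mul (2 * Real.pi)
    have h2 : HasDerivAt (fun t : ℝ => ((2 * Real.pi * (-(ξ * Real.log t)) : ℝ) : ℂ)) ((2 * Real.pi * (-(ξ * t⁻¹)) : ℝ) : ℂ) t :=
      h1.ofReal_comp
    have h3 := (h2.mul_const Complex.I).cexp
    have h4 := (h3.div_const ((2 * Real.pi * ξ : ℂ) * Complex.I)).neg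
    unfold e
    refine h4.congr_deriv ?_
    unfold ker e
    push_cast
    field_simp
    exact div_self (by exact_mod_cast hξ0)
  rw [intervalIntegral.integral_eq_sub_of_hasDerivAt hd (ii_ker ξ a b ha hb)]
  have hn : ∀ x : ℝ, ‖-(e x / ((2 * Real.pi * ξ : ℂ) * Complex.I))‖ = 1 / (2 * Real.pi * |ξ|) := by
    intro x
    rw [norm_neg, norm_div, norm_e, norm_mul, Complex.norm_I, mul_one, norm_mul, norm_mul]
    simp [abs_of_pos Real.pi_pos]
  calc _ ≤ 1 / (2 * Real.pi * |ξ|) + 1 / (2 * Real.pi * |ξ|) := by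
        refine (norm_sub_le _ _).trans ?_
        rw [hn, hn]
    _ = (1 / Real.pi) * (1 / |ξ|) := by field_simp; ring
    _ ≤ 1 * (1 / |ξ|) := by
        apply mul_le_mul_of_nonneg_right _ (by positivity)
        rw [div_le_one Real.pi_pos]
        linarith [Real.pi_gt_three]
    _ = 1 / |ξ| := by ring

/-- the normalised comparison -/
theorem core (hV : S_VDC) (M : ℕ) : ∃ η : ℝ, 0 < η ∧ ∃ C : ℝ, 0 < C ∧ ∀ (K K1 y ξ : ℝ) (L : ℕ), 1 ≤ K →
    K ≤ K1 → K1 ≤ 4 * K → K ≤ y → y ≤ K + 1 → K1 ≤ y + L → y + L ≤ K1 + 1 → |ξ| ≤ K ^ M →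
    ‖∑ j ∈ range L, ker ξ (y + j) - ∫ x in K..K1, ker ξ x‖ ≤ C * K ^ (-η) := by
  obtain ⟨η', h0, h1, C', hC', hser⟩ := ser_high hV M
  refine ⟨min η' (1 / 2), lt_min h0 (by norm_num), 2 * C' + 4 + 2 * Real.pi, by positivity, ?_⟩
  intro K K1 y ξ L hK hKK1 hK1 hy0 hy1 hL0 hL1 hξ
  have hKpos : 0 < K := by linarith
  have hmono1 : K ^ (-(1 / 2 : ℝ)) ≤ K ^ (-(min η' (1 / 2))) :=
    Real.rpow_le_rpow_of_exponent_le hK (by linarith [min_le_right η' (1 / 2 : ℝ)])
  have hmono2 : K ^ (-η') ≤ K ^ (-(min η' (1 / 2))) :=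
    Real.rpow_le_rpow_of_exponent_le hK (by linarith [min_le_left η' (1 / 2 : ℝ)])
  have hPpos : 0 < K ^ (-(min η' (1 / 2))) := Real.rpow_pos_of_pos hKpos _
  set P := K ^ (-(min η' (1 / 2))) with hP
  have hsq : K ^ (1 / 2 : ℝ) * K ^ (-(1 / 2 : ℝ)) = 1 := by
    rw [← Real.rpow_add hKpos]; simp
  have hKinv : 1 / K ≤ K ^ (-(1 / 2 : ℝ)) := by
    rw [one_div, ← Real.rpow_neg_one]
    exact Real.rpow_le_rpow_of_exponent_le hK (by norm_num)
  have hs1 : 1 ≤ K ^ (1 / 2 : ℝ) := Real.one_le_rpow hK (by norm_num)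
  have hspos : 0 < K ^ (-(1 / 2 : ℝ)) := Real.rpow_pos_of_pos hKpos _
  by_cases hcase : |ξ| < K ^ (1 / 2 : ℝ)
  · -- low frequencies
    have hem := em y ξ L (by linarith)
    have hyL : 0 < y + L := by linarith
    have hsplit : (∫ x in K..K1, ker ξ x) = (∫ x in K..y, ker ξ x) + (∫ x in y..(y + L), ker ξ x)
        + ∫ x in (y + L)..K1, ker ξ x := by
      rw [intervalIntegral.integral_add_adjacent_intervals (ii_ker ξ K y hKpos (by linarith)) (ii_ker ξ y (y + L) (by linarith) hyL),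
        intervalIntegral.integral_add_adjacent_intervals (ii_ker ξ K (y + L) hKpos hyL) (ii_ker ξ (y + L) K1 hyL (by linarith))]
    have hs_a := int_small ξ K K y hKpos le_rfl hy0 (by rw [abs_of_nonneg (by linarith)]; linarith)
    have hs_b := int_small ξ K (y + L) K1 hKpos (by linarith) hKK1 (by rw [abs_of_nonpos (by linarith)]; linarith)
    have hbound : (1 + 2 * Real.pi * |ξ|) / y ≤ (1 + 2 * Real.pi) * K ^ (-(1 / 2 : ℝ)) := by
      have h2 : (1 + 2 * Real.pi * |ξ|) / y ≤ (1 + 2 * Real.pi * |ξ|) / K := by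
        apply div_le_div_of_nonneg_left (by positivity) hKpos hy0
      have h3 : (1 + 2 * Real.pi * |ξ|) / K ≤ ((1 + 2 * Real.pi) * K ^ (1 / 2 : ℝ)) / K := by
        apply div_le_div_of_nonneg_right _ hKpos.le
        have : 2 * Real.pi * |ξ| ≤ 2 * Real.pi * K ^ (1 / 2 : ℝ) :=
          mul_le_mul_of_nonneg_left hcase.le (by positivity)
        nlinarith
      have h4 : ((1 + 2 * Real.pi) * K ^ (1 / 2 : ℝ)) / K = (1 + 2 * Real.pi) * K ^ (-(1 / 2 : ℝ)) := by
        have : K ^ (1 / 2 : ℝ) / K = K ^ (-(1 / 2 : ℝ)) := by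
          rw [div_eq_mul_inv, ← Real.rpow_neg_one, ← Real.rpow_add hKpos]
          norm_num
        rw [mul_div_assoc, this]
      linarith
    have e1 : ∑ j ∈ range L, ker ξ (y + j) - ∫ x in K..K1, ker ξ x
        = (∑ j ∈ range L, ker ξ (y + j) - ∫ t in y..(y + L), ker ξ t)
          - (∫ x in K..y, ker ξ x) - ∫ x in (y + L)..K1, ker ξ x := by
      rw [hsplit]; ring
    rw [e1]
    calc _ ≤ ‖∑ j ∈ range L, ker ξ (y + j) - ∫ t in y..(y + L), ker ξ t‖ + ‖∫ x in K..y, ker ξ x‖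
          + ‖∫ x in (y + L)..K1, ker ξ x‖ := by
          refine (norm_sub_le _ _).trans ?_
          gcongr
          exact norm_sub_le _ _
      _ ≤ (1 + 2 * Real.pi) * K ^ (-(1 / 2 : ℝ)) + K ^ (-(1 / 2 : ℝ)) + K ^ (-(1 / 2 : ℝ)) := by
          linarith
      _ = (3 + 2 * Real.pi) * K ^ (-(1 / 2 : ℝ)) := by ring
      _ ≤ (2 * C' + 4 + 2 * Real.pi) * P := by
          apply mul_le_mul _ hmono1 hspos.le (by positivity)
          linarith
  · -- high frequencies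
    push Not at hcase
    have hξ1 : 1 ≤ |ξ| := hs1.trans hcase
    have hxi : 1 / |ξ| ≤ K ^ (-(1 / 2 : ℝ)) := by
      rw [div_le_iff₀ (by linarith)]
      calc 1 = K ^ (1 / 2 : ℝ) * K ^ (-(1 / 2 : ℝ)) := hsq.symm
        _ ≤ |ξ| * K ^ (-(1 / 2 : ℝ)) := mul_le_mul_of_nonneg_right hcase hspos.le
        _ = K ^ (-(1 / 2 : ℝ)) * |ξ| := by ring
    have hser' := hser y ξ L (by linarith) (by linarith) hξ1
      (hξ.trans (pow_le_pow_left₀ hKpos.le hy0 M))
    have hyη : y ^ (-η') ≤ K ^ (-η') := by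
      apply Real.rpow_le_rpow_of_nonpos hKpos hy0 (by linarith)
    have hint := int_high ξ K K1 hKpos (by linarith) (by linarith)
    calc _ ≤ ‖∑ j ∈ range L, ker ξ (y + j)‖ + ‖∫ x in K..K1, ker ξ x‖ := norm_sub_le _ _
      _ ≤ C' * (y ^ (-η') + 1 / |ξ|) + 1 / |ξ| := add_le_add hser' hint
      _ ≤ C' * (P + P) + P := by
          have h5 : y ^ (-η') + 1 / |ξ| ≤ P + P := by linarith
          have h6 : C' * (y ^ (-η') + 1 / |ξ|) ≤ C' * (P + P) := mul_le_mul_of_nonneg_left h5 hC'.le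
          linarith
      _ = (2 * C' + 1) * P := by ring
      _ ≤ (2 * C' + 4 + 2 * Real.pi) * P := by
          apply mul_le_mul_of_nonneg_right _ hPpos.le
          linarith [Real.pi_pos]

theorem point (hV : S_VDC) (M : ℕ) : ∃ η : ℝ, 0 < η ∧ ∃ C : ℝ, 0 < C ∧ ∀ (q : ℕ) (r X0 X1 ξ : ℝ), 1 ≤ q →
    0 ≤ r → r < q → (q : ℝ) ≤ X0 → X0 ≤ X1 → X1 ≤ 4 * X0 → |ξ| ≤ (X0 / q) ^ M →
    ‖apS q r X0 X1 ξ - ((1 / (q : ℝ) : ℝ) : ℂ) * ∫ x in X0..X1, ker ξ x‖ ≤ C / q * (X0 / q) ^ (-η) := by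
  obtain ⟨η, hη, C, hC, hcore⟩ := core hV M
  refine ⟨η, hη, C, hC, ?_⟩
  intro q r X0 X1 ξ hq hr0 hr1 hX0 hX01 hX1 hξ
  have hqpos : (0 : ℝ) < q := by exact_mod_cast hq
  have hX0pos : 0 < X0 := by linarith
  set K := X0 / q with hKdef
  set K1 := X1 / q with hK1def
  set ρ := r / q with hρdef
  have hK1 : 1 ≤ K := by rw [hKdef, le_div_iff₀ hqpos]; linarith
  have hρ0 : 0 ≤ ρ := by positivity
  have hρ1 : ρ < 1 := by rw [hρdef, div_lt_one hqpos]; exact hr1
  have hKK1 : K ≤ K1 := div_le_div_of_nonneg_right hX01 hqpos.le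
  have hK1K : K1 ≤ 4 * K := by
    rw [hK1def, hKdef, ← mul_div_assoc]
    exact div_le_div_of_nonneg_right hX1 hqpos.le
  set j0 := ⌊K - ρ⌋₊ + 1 with hj0
  set j1 := ⌊K1 - ρ⌋₊ + 1 with hj1
  have hj01 : j0 ≤ j1 := by
    rw [hj0, hj1]
    exact Nat.add_le_add_right (Nat.floor_le_floor (by linarith)) 1
  have hset : (range (⌊X1⌋₊ + 1)).filter (fun j : ℕ => X0 < r + q * j ∧ r + q * j ≤ X1) = Finset.Ico j0 j1 := by
    ext j
    rw [Finset.mem_filter, Finset.mem_Ico, Finset.mem_range]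
    have a1 : (X0 < r + q * j) ↔ j0 ≤ j := by
      rw [hj0, Nat.add_one_le_iff, Nat.floor_lt (by linarith), sub_lt_iff_lt_add, hKdef, hρdef, div_lt_iff₀ hqpos, add_mul, div_mul_cancel₀ _ hqpos.ne']
      constructor
      · intro h; linarith
      · intro h; linarith
    have a2 : (r + q * j ≤ X1) ↔ j < j1 := by
      rw [hj1, Nat.lt_add_one_iff, Nat.le_floor_iff (by linarith), le_sub_iff_add_le, hK1def, hρdef, le_div_iff₀ hqpos, add_mul, div_mul_cancel₀ _ hqpos.ne']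
      constructor
      · intro h; linarith
      · intro h; linarith
    rw [a1, a2]
    constructor
    · rintro ⟨_, h2, h3⟩
      exact ⟨h2, h3⟩
    · rintro ⟨h2, h3⟩
      refine ⟨?_, h2, h3⟩
      rw [Nat.lt_add_one_iff, Nat.le_floor_iff (by linarith)]
      have h4 := a2.mpr h3
      have h5 : (j : ℝ) ≤ q * j := by
        have : (1 : ℝ) ≤ q := by exact_mod_cast hq
        nlinarith [Nat.cast_nonneg (α := ℝ) j]
      linarith
  have hj0R : (j0 : ℝ) = (⌊K - ρ⌋₊ : ℝ) + 1 := by rw [hj0]; push_cast; ring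
  have hj1R : (j1 : ℝ) = (⌊K1 - ρ⌋₊ : ℝ) + 1 := by rw [hj1]; push_cast; ring
  have f0 := Nat.lt_floor_add_one (K - ρ)
  have f0' := Nat.floor_le (show 0 ≤ K - ρ by linarith)
  have f1 := Nat.lt_floor_add_one (K1 - ρ)
  have f1' := Nat.floor_le (show 0 ≤ K1 - ρ by linarith)
  have hLR : ((j1 - j0 : ℕ) : ℝ) = (j1 : ℝ) - j0 := by rw [Nat.cast_sub hj01]
  have hc := hcore K K1 (ρ + j0) ξ (j1 - j0) hK1 hKK1 hK1K (by linarith) (by linarith)
    (by rw [hLR]; linarith) (by rw [hLR]; linarith) hξ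
  have hap : apS q r X0 X1 ξ = ((1 / (q : ℝ) : ℝ) : ℂ) * e (-(ξ * Real.log q)) *
      ∑ j ∈ range (j1 - j0), ker ξ ((ρ + j0) + j) := by
    unfold apS
    rw [hset, Finset.sum_Ico_eq_sum_range, Finset.mul_sum]
    apply Finset.sum_congr rfl
    intro j _
    rw [← ker_mul ξ q _ hqpos (by positivity)]
    congr 1
    rw [hρdef]
    push_cast
    field_simp
    ring
  have hint : (∫ x in X0..X1, ker ξ x) = e (-(ξ * Real.log q)) * ∫ x in K..K1, ker ξ x := by
    have h1 : (∫ x in K..K1, ker ξ (q * x)) = (q : ℝ)⁻¹ • ∫ x in (q * K)..(q * K1), ker ξ x :=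
      intervalIntegral.integral_comp_mul_left (fun x => ker ξ x) hqpos.ne'
    have h2 : (q : ℝ) * K = X0 := by rw [hKdef]; field_simp
    have h3 : (q : ℝ) * K1 = X1 := by rw [hK1def]; field_simp
    rw [h2, h3] at h1
    have h4 : (∫ x in K..K1, ker ξ (q * x)) = ∫ x in K..K1, ((1 / (q : ℝ) : ℝ) : ℂ) * e (-(ξ * Real.log q)) * ker ξ x := by
      apply intervalIntegral.integral_congr
      intro x hx
      rw [Set.uIcc_of_le hKK1] at hx
      exact ker_mul ξ q x hqpos (by linarith [hx.1])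
    rw [h4, intervalIntegral.integral_const_mul] at h1
    have hq' : ((q : ℝ) : ℂ) ≠ 0 := by exact_mod_cast hqpos.ne'
    have h5 : (∫ x in X0..X1, ker ξ x) = ((q : ℝ) : ℂ) * ((q : ℝ)⁻¹ • ∫ x in X0..X1, ker ξ x) := by
      rw [Complex.real_smul, ← mul_assoc]
      push_cast
      rw [mul_inv_cancel₀ (by exact_mod_cast hq'), one_mul]
    have hq'' : (q : ℂ) ≠ 0 := by exact_mod_cast hqpos.ne'
    rw [h5, ← h1]
    push_cast
    field_simp
  have hfin : apS q r X0 X1 ξ - ((1 / (q : ℝ) : ℝ) : ℂ) * ∫ x in X0..X1, ker ξ x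
      = ((1 / (q : ℝ) : ℝ) : ℂ) * e (-(ξ * Real.log q)) *
        (∑ j ∈ range (j1 - j0), ker ξ ((ρ + j0) + j) - ∫ x in K..K1, ker ξ x) := by
    rw [hap, hint]; ring
  rw [hfin, norm_mul, norm_mul, norm_e, mul_one, Complex.norm_real, Real.norm_eq_abs, abs_of_pos (by positivity)]
  calc 1 / (q : ℝ) * _ ≤ 1 / (q : ℝ) * (C * K ^ (-η)) := mul_le_mul_of_nonneg_left hc (by positivity)
    _ = C / q * K ^ (-η) := by ring

end TQ4

end Pool.Agent.helper616_TQ
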