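import Pool.Agent.helper616_TQ.Defs

/-!
# Project TQ (helper616): the Fourier transform of a residue class in the logarithmic variable
-/

set_option autoImplicit false
set_option maxHeartbeats 4000000

open Finset MeasureTheory Filter Topology
open Pool.Agent.helper616_TS (e LogBdd S_VDC Psi)

namespace Pool.Agent.helper616_TQ

namespace TQ5


/-- the kernel restricted to `(X0, X1]` -/
noncomputable def four_K (ξ X0 X1 : ℝ) : ℝ → ℂ := Set.indicator (Set.Ioc X0 X1) (ker ξ)

theorem four_ker_cont (ξ X0 X1 : ℝ) (h0 : 0 < X0) : ContinuousOn (ker ξ) (Set.Icc X0 X1) := by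
  unfold ker e
  have hne : ∀ x ∈ Set.Icc X0 X1, x ≠ 0 := fun x hx => (lt_of_lt_of_le h0 hx.1).ne'
  have hlog : ContinuousOn Real.log (Set.Icc X0 X1) :=
    Real.continuousOn_log.mono (fun x hx => hne x hx)
  refine ContinuousOn.mul ?_ ?_
  · refine Complex.continuous_ofReal.comp_continuousOn ?_
    exact continuousOn_const.div continuousOn_id hne
  · refine Complex.continuous_exp.comp_continuousOn ?_
    refine ContinuousOn.mul ?_ continuousOn_const
    refine Complex.continuous_ofReal.comp_continuousOn ?_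
    exact continuousOn_const.mul (continuousOn_const.mul hlog).neg

theorem four_K_int (ξ X0 X1 : ℝ) (h0 : 0 < X0) : Integrable (four_K ξ X0 X1) := by
  unfold four_K
  rw [integrable_indicator_iff measurableSet_Ioc]
  exact ((four_ker_cont ξ X0 X1 h0).integrableOn_Icc).mono_set Set.Ioc_subset_Icc_self

theorem four_image (v0 v1 : ℝ) :
    Real.exp '' Set.Ioc v0 v1 = Set.Ioc (Real.exp v0) (Real.exp v1) := by
  ext x
  constructor
  · rintro ⟨v, hv, rfl⟩
    exact ⟨Real.exp_lt_exp.mpr hv.1, Real.exp_le_exp.mpr hv.2⟩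
  · intro hx
    have hx0 : 0 < x := lt_trans (Real.exp_pos v0) hx.1
    refine ⟨Real.log x, ⟨?_, ?_⟩, Real.exp_log hx0⟩
    · exact (Real.lt_log_iff_exp_lt hx0).mpr hx.1
    · exact (Real.log_le_iff_le_exp hx0).mpr hx.2

open FourierTransform in
theorem four_stepA (q b : ℕ) (v0 v1 ξ : ℝ) :
    𝓕 (Psi (gq q b) v0 v1) ξ =
      ∫ x, ((gq q b ⌊x⌋₊ : ℝ) : ℂ) * four_K ξ (Real.exp v0) (Real.exp v1) x := by
  have h1 : ∀ x, ((gq q b ⌊x⌋₊ : ℝ) : ℂ) * four_K ξ (Real.exp v0) (Real.exp v1) x =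
      Set.indicator (Set.Ioc (Real.exp v0) (Real.exp v1))
        (fun x => ((gq q b ⌊x⌋₊ : ℝ) : ℂ) * ker ξ x) x := by
    intro x
    unfold four_K
    by_cases hx : x ∈ Set.Ioc (Real.exp v0) (Real.exp v1)
    · rw [Set.indicator_of_mem hx, Set.indicator_of_mem hx]
    · rw [Set.indicator_of_notMem hx, Set.indicator_of_notMem hx, mul_zero]
  simp_rw [h1]
  rw [integral_indicator measurableSet_Ioc, ← four_image,
    integral_image_eq_integral_abs_deriv_smul measurableSet_Ioc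
      (fun x _ => (Real.hasDerivAt_exp x).hasDerivWithinAt) Real.exp_injective.injOn,
    ← integral_indicator measurableSet_Ioc, Real.fourier_real_eq_integral_exp_smul]
  congr 1
  funext v
  unfold Psi
  by_cases hv : v ∈ Set.Ioc v0 v1
  · rw [Set.indicator_of_mem hv, Set.indicator_of_mem hv]
    unfold ker e
    rw [Real.log_exp, abs_of_pos (Real.exp_pos v), Complex.real_smul, smul_eq_mul]
    have h2 : ((Real.exp v : ℝ) : ℂ) ≠ 0 := by
      exact_mod_cast (Real.exp_pos v).ne'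
    have h3 : ((1 / Real.exp v : ℝ) : ℂ) = 1 / ((Real.exp v : ℝ) : ℂ) := by push_cast; rfl
    have h4 : (-2 * Real.pi * v * ξ : ℝ) = 2 * Real.pi * (-(ξ * v)) := by ring
    rw [h3, h4]
    field_simp
  · rw [Set.indicator_of_notMem hv, Set.indicator_of_notMem hv, smul_zero]

/-- the residue class is the union of the unit intervals -/
theorem four_floor (q r N : ℕ) (x : ℝ) (hq : 1 ≤ q) (hr : r < q) (hx : 0 ≤ x) (hN : ⌊x⌋₊ ≤ N) :
    (if ⌊x⌋₊ % q = r then (1 : ℂ) else 0) =
      ∑ j ∈ range (N + 1), Set.indicator (Set.Ico ((r : ℝ) + q * j) ((r : ℝ) + q * j + 1))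
        (fun _ => (1 : ℂ)) x := by
  have key : ∀ j : ℕ, x ∈ Set.Ico ((r : ℝ) + q * j) ((r : ℝ) + q * j + 1) ↔ ⌊x⌋₊ = r + q * j := by
    intro j
    rw [Nat.floor_eq_iff hx, Set.mem_Ico]
    push_cast
    rfl
  have h1 : ∀ j : ℕ, Set.indicator (Set.Ico ((r : ℝ) + q * j) ((r : ℝ) + q * j + 1))
        (fun _ => (1 : ℂ)) x = if ⌊x⌋₊ = r + q * j then 1 else 0 := by
    intro j
    by_cases h : ⌊x⌋₊ = r + q * j
    · rw [Set.indicator_of_mem ((key j).mpr h), if_pos h]
    · rw [Set.indicator_of_notMem (fun h' => h ((key j).mp h')), if_neg h]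
  simp_rw [h1]
  by_cases h : ⌊x⌋₊ % q = r
  · rw [if_pos h]
    have hdm := Nat.mod_add_div ⌊x⌋₊ q
    rw [h] at hdm
    rw [Finset.sum_eq_single (⌊x⌋₊ / q)]
    · rw [if_pos hdm.symm]
    · intro j _ hj
      rw [if_neg]
      intro h2
      apply hj
      have h3 : q * (⌊x⌋₊ / q) = q * j := by omega
      exact (Nat.eq_of_mul_eq_mul_left (by omega) h3).symm
    · intro h2
      exfalso
      apply h2
      rw [Finset.mem_range]
      have := Nat.div_le_self ⌊x⌋₊ q
      omega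
  · rw [if_neg h]
    symm
    refine Finset.sum_eq_zero (fun j _ => ?_)
    rw [if_neg]
    intro h2
    apply h
    rw [h2, Nat.add_mul_mod_self_left, Nat.mod_eq_of_lt hr]

theorem four_stepB (q b : ℕ) (X0 X1 ξ x : ℝ) (hq : 1 ≤ q) (h0 : 0 < X0) :
    ((gq q b ⌊x⌋₊ : ℝ) : ℂ) * four_K ξ X0 X1 x =
      (∑ j ∈ range (⌊X1⌋₊ + 1), Set.indicator
        (Set.Ico (((b % q : ℕ) : ℝ) + q * j) (((b % q : ℕ) : ℝ) + q * j + 1))
        (four_K ξ X0 X1) x) - ((1 / (q : ℝ) : ℝ) : ℂ) * four_K ξ X0 X1 x := by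
  by_cases hx : x ∈ Set.Ioc X0 X1
  · have h1 := four_floor q (b % q) ⌊X1⌋₊ x hq (Nat.mod_lt _ (by omega))
      (le_of_lt (lt_trans h0 hx.1)) (Nat.floor_le_floor hx.2)
    have h2 : ∀ j : ℕ, Set.indicator
        (Set.Ico (((b % q : ℕ) : ℝ) + q * j) (((b % q : ℕ) : ℝ) + q * j + 1))
        (four_K ξ X0 X1) x = Set.indicator
        (Set.Ico (((b % q : ℕ) : ℝ) + q * j) (((b % q : ℕ) : ℝ) + q * j + 1))
        (fun _ => (1 : ℂ)) x * four_K ξ X0 X1 x := by
      intro j
      by_cases h : x ∈ Set.Ico (((b % q : ℕ) : ℝ) + q * j) (((b % q : ℕ) : ℝ) + q * j + 1)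
      · rw [Set.indicator_of_mem h, Set.indicator_of_mem h, one_mul]
      · rw [Set.indicator_of_notMem h, Set.indicator_of_notMem h, zero_mul]
    simp_rw [h2]
    rw [← Finset.sum_mul, ← h1, ← sub_mul]
    congr 1
    unfold gq
    split_ifs <;> push_cast <;> ring
  · have h1 : four_K ξ X0 X1 x = 0 := by
      unfold four_K
      exact Set.indicator_of_notMem hx _
    rw [h1, mul_zero, mul_zero, sub_zero]
    symm
    refine Finset.sum_eq_zero (fun j _ => ?_)
    by_cases h : x ∈ Set.Ico (((b % q : ℕ) : ℝ) + q * j) (((b % q : ℕ) : ℝ) + q * j + 1)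
    · rw [Set.indicator_of_mem h, h1]
    · rw [Set.indicator_of_notMem h]

theorem four_apS (q : ℕ) (r s X0 X1 ξ : ℝ) :
    apS q (r + s) X0 X1 ξ = ∑ j ∈ range (⌊X1⌋₊ + 1), four_K ξ X0 X1 (s + (r + q * j)) := by
  unfold apS four_K
  rw [Finset.sum_filter]
  refine Finset.sum_congr rfl (fun j _ => ?_)
  have h1 : s + (r + (q : ℝ) * j) = r + s + q * j := by ring
  rw [h1, Set.indicator_apply]
  rfl

open FourierTransform in
theorem four_repr (q b : ℕ) (v0 v1 ξ : ℝ) (hq : 1 ≤ q) (h1 : v0 ≤ v1) :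
    𝓕 (Psi (gq q b) v0 v1) ξ = ∫ s in (0 : ℝ)..1, (apS q (((b % q : ℕ) : ℝ) + s) (Real.exp v0) (Real.exp v1) ξ -
      ((1 / (q : ℝ) : ℝ) : ℂ) * ∫ x in (Real.exp v0)..(Real.exp v1), ker ξ x) := by
  have h0 : 0 < Real.exp v0 := Real.exp_pos v0
  have h01 : Real.exp v0 ≤ Real.exp v1 := Real.exp_le_exp.mpr h1
  have hK := four_K_int ξ (Real.exp v0) (Real.exp v1) h0
  have hKi : ∫ x, four_K ξ (Real.exp v0) (Real.exp v1) x =
      ∫ x in (Real.exp v0)..(Real.exp v1), ker ξ x := by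
    unfold four_K
    rw [integral_indicator measurableSet_Ioc, intervalIntegral.integral_of_le h01]
  rw [four_stepA]
  simp_rw [fun x => four_stepB q b (Real.exp v0) (Real.exp v1) ξ x hq h0]
  rw [integral_sub (integrable_finsetSum _ (fun j _ => hK.indicator measurableSet_Ico))
    (hK.const_mul _), integral_finsetSum _ (fun j _ => hK.indicator measurableSet_Ico),
    integral_const_mul, hKi]
  have h2 : ∀ j : ℕ, Integrable (fun s : ℝ => four_K ξ (Real.exp v0) (Real.exp v1)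
      (s + (((b % q : ℕ) : ℝ) + q * j))) := fun j => hK.comp_add_right _
  have h3 : ∀ s : ℝ, apS q (((b % q : ℕ) : ℝ) + s) (Real.exp v0) (Real.exp v1) ξ =
      ∑ j ∈ range (⌊Real.exp v1⌋₊ + 1), four_K ξ (Real.exp v0) (Real.exp v1)
        (s + (((b % q : ℕ) : ℝ) + q * j)) := fun s => four_apS _ _ _ _ _ _
  simp_rw [h3]
  rw [intervalIntegral.integral_sub
    ((integrable_finsetSum _ (fun j _ => h2 j)).intervalIntegrable)
    (intervalIntegrable_const), intervalIntegral.integral_const,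
    intervalIntegral.integral_finsetSum (fun j _ => (h2 j).intervalIntegrable)]
  rw [sub_zero, one_smul]
  congr 1
  refine Finset.sum_congr rfl (fun j _ => ?_)
  rw [intervalIntegral.integral_comp_add_right (f := four_K ξ (Real.exp v0) (Real.exp v1)),
    zero_add, add_comm (1 : ℝ), intervalIntegral.integral_of_le (by linarith),
    integral_indicator measurableSet_Ico, integral_Ico_eq_integral_Ioc]

end TQ5

end Pool.Agent.helper616_TQ
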