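import Pool.Agent.helper616_TQ.Defs
import Pool.Agent.helper616_TQ.TQ4
import Pool.Agent.helper616_TQ.TQ5

/-!
# Project TQ (helper616): low frequencies
-/

set_option autoImplicit false
set_option maxHeartbeats 4000000

open Finset MeasureTheory Filter Topology
open Pool.Agent.helper616_TS (e LogBdd S_VDC Psi)

namespace Pool.Agent.helper616_TQ

open TQ4 (point)
open TQ5 (four_repr)

namespace TQ6


open FourierTransform in
theorem four_low (hV : S_VDC) (M : ℕ) : ∃ η : ℝ, 0 < η ∧ ∃ C : ℝ, 0 < C ∧ ∀ (q b : ℕ) (v0 v1 ξ : ℝ), 1 ≤ q →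
    (q : ℝ) ≤ Real.exp v0 → v0 ≤ v1 → v1 ≤ v0 + Real.log 4 → |ξ| ≤ (Real.exp v0 / q) ^ M →
    ‖𝓕 (Psi (gq q b) v0 v1) ξ‖ ≤ C / q * (Real.exp v0 / q) ^ (-η) := by
  obtain ⟨η, hη, C, hC, hp⟩ := point hV M
  refine ⟨η, hη, C, hC, ?_⟩
  intro q b v0 v1 ξ hq h0 h1 h2 h3
  rw [four_repr q b v0 v1 ξ hq h1]
  have hne : ∀ᵐ s : ℝ, s ≠ 1 := by
    have := MeasureTheory.Measure.ae_ne (volume : MeasureTheory.Measure ℝ) (1 : ℝ)
    exact this
  have hae : ∀ᵐ s : ℝ, s ∈ Set.uIoc (0 : ℝ) 1 →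
      ‖apS q (((b % q : ℕ) : ℝ) + s) (Real.exp v0) (Real.exp v1) ξ -
      ((1 / (q : ℝ) : ℝ) : ℂ) * ∫ x in (Real.exp v0)..(Real.exp v1), ker ξ x‖ ≤
        C / q * (Real.exp v0 / q) ^ (-η) := by
    filter_upwards [hne] with s hs hs'
    rw [Set.uIoc_of_le zero_le_one] at hs'
    have hs1 : s < 1 := lt_of_le_of_ne hs'.2 hs
    have hmod : b % q < q := Nat.mod_lt _ hq
    have hmod' : ((b % q : ℕ) : ℝ) + 1 ≤ (q : ℝ) := by exact_mod_cast hmod
    refine hp q (((b % q : ℕ) : ℝ) + s) (Real.exp v0) (Real.exp v1) ξ hq ?_ ?_ h0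
      (Real.exp_le_exp.2 h1) ?_ h3
    · have : (0 : ℝ) ≤ ((b % q : ℕ) : ℝ) := Nat.cast_nonneg _
      linarith [hs'.1]
    · linarith
    · calc Real.exp v1 ≤ Real.exp (v0 + Real.log 4) := Real.exp_le_exp.2 h2
        _ = 4 * Real.exp v0 := by
          rw [Real.exp_add, Real.exp_log (by norm_num)]; ring
  have h4 := intervalIntegral.norm_integral_le_of_norm_le_const_ae hae
  simpa using h4

end TQ6

end Pool.Agent.helper616_TQ
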