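import Pool.Agent.helper616_TQ.Defs

/-!
# Project TQ (helper616): high frequencies
-/

set_option autoImplicit false
set_option maxHeartbeats 4000000

open Finset MeasureTheory Filter Topology
open Pool.Agent.helper616_TS (e LogBdd S_VDC Psi)

namespace Pool.Agent.helper616_TQ

namespace TQ7


/-- the integral of the character over an interval -/
theorem ph_int (s t ξ : ℝ) (hξ : ξ ≠ 0) :
    ‖∫ v in Set.Ioc s t, Complex.exp ((-2 * Real.pi * ξ * Complex.I : ℂ) * (v : ℂ))‖ ≤ 1 / |ξ| := by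
  have hx : 0 < |ξ| := abs_pos.mpr hξ
  rcases le_or_gt s t with h | h
  · rw [← intervalIntegral.integral_of_le h]
    have hc : (-2 * Real.pi * ξ * Complex.I : ℂ) ≠ 0 := by
      simp [Real.pi_ne_zero, hξ]
    rw [integral_exp_mul_complex hc, norm_div]
    have hn : ‖(-2 * Real.pi * ξ * Complex.I : ℂ)‖ = 2 * Real.pi * |ξ| := by
      simp [abs_of_pos Real.pi_pos]
    have h1 : ∀ v : ℝ, ‖Complex.exp ((-2 * Real.pi * ξ * Complex.I : ℂ) * (v : ℂ))‖ = 1 := by
      intro v
      have : (-2 * Real.pi * ξ * Complex.I : ℂ) * (v : ℂ) = ((-2 * Real.pi * ξ * v : ℝ) : ℂ) * Complex.I := by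
        push_cast; ring
      rw [this, Complex.norm_exp_ofReal_mul_I]
    rw [hn]
    have h2 : ‖Complex.exp ((-2 * Real.pi * ξ * Complex.I : ℂ) * (t : ℂ)) -
        Complex.exp ((-2 * Real.pi * ξ * Complex.I : ℂ) * (s : ℂ))‖ ≤ 2 := by
      refine (norm_sub_le _ _).trans ?_
      rw [h1, h1]; norm_num
    rw [div_le_div_iff₀ (by positivity) hx]
    have hpi : 3 < Real.pi := Real.pi_gt_three
    nlinarith [mul_le_mul_of_nonneg_right h2 hx.le]
  · rw [Set.Ioc_eq_empty (not_lt.mpr h.le)]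
    simp

/-- the level set -/
def phS (v0 v1 : ℝ) (m : ℕ) : Set ℝ := {v | v ∈ Set.Ioc v0 v1 ∧ ⌊Real.exp v⌋₊ = m}

theorem ph_ae (v0 v1 : ℝ) (m : ℕ) : ∃ s t : ℝ, phS v0 v1 m =ᵐ[volume] Set.Ioc s t := by
  rcases Nat.eq_zero_or_pos m with h | h
  · subst h
    refine ⟨v0, min v1 0, ?_⟩
    have hsub : phS v0 v1 0 = Set.Ioc v0 v1 ∩ Set.Iio 0 := by
      ext v
      simp only [phS, Set.mem_setOf_eq, Set.mem_inter_iff, Set.mem_Iio, Nat.floor_eq_zero, Real.exp_lt_one_iff]
    rw [hsub]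
    have h2 : (Set.Ioc v0 v1 ∩ Set.Iio 0 : Set ℝ) =ᵐ[volume] (Set.Ioc v0 v1 ∩ Set.Iic 0 : Set ℝ) :=
      Filter.EventuallyEq.inter (Filter.EventuallyEq.refl _ _) Iio_ae_eq_Iic
    have h3 : (Set.Ioc v0 v1 ∩ Set.Iic 0 : Set ℝ) = Set.Ioc v0 (min v1 0) := by
      ext v; simp only [Set.mem_inter_iff, Set.mem_Ioc, Set.mem_Iic, le_min_iff]; tauto
    exact h2.trans (Filter.EventuallyEq.of_eq h3)
  · refine ⟨max v0 (Real.log m), min v1 (Real.log (m + 1)), ?_⟩
    have hm : (0 : ℝ) < m := by exact_mod_cast h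
    have hsub : phS v0 v1 m = Set.Ioc v0 v1 ∩ Set.Ico (Real.log m) (Real.log (m + 1)) := by
      ext v
      simp only [phS, Set.mem_setOf_eq, Set.mem_inter_iff, Set.mem_Ico]
      rw [Nat.floor_eq_iff (Real.exp_pos v).le, Real.log_le_iff_le_exp hm, Real.lt_log_iff_exp_lt (by positivity)]
    rw [hsub]
    have h2 : (Set.Ioc v0 v1 ∩ Set.Ico (Real.log m) (Real.log (m + 1)) : Set ℝ) =ᵐ[volume]
        (Set.Ioc v0 v1 ∩ Set.Ioc (Real.log m) (Real.log (m + 1)) : Set ℝ) :=
      Filter.EventuallyEq.inter (Filter.EventuallyEq.refl _ _) Ico_ae_eq_Ioc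
    exact h2.trans (Filter.EventuallyEq.of_eq Set.Ioc_inter_Ioc)

theorem ph_meas (v0 v1 : ℝ) (m : ℕ) : MeasurableSet (phS v0 v1 m) := by
  have h1 : Measurable (fun v : ℝ => ⌊Real.exp v⌋₊) := Nat.measurable_floor.comp Real.measurable_exp
  exact measurableSet_Ioc.inter (h1 (measurableSet_singleton m))

/-- the number of elements of a residue class in a window -/
theorem ph_card (q b A B : ℕ) (hq : 1 ≤ q) (hAB : A ≤ B) :
    (((Finset.Ico A B).filter (fun m => m % q = b % q)).card : ℝ) ≤ ((B : ℝ) - A) / q + 1 := by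
  have hq0 : (0 : ℚ) < q := by exact_mod_cast hq
  have h1 : (Finset.Ico A B).filter (fun m => m % q = b % q) =
      (Finset.Ico A B).filter (fun m => m ≡ b [MOD q]) := rfl
  have h2 : ((((Finset.Ico A B).filter (fun m => m ≡ b [MOD q])).card : ℕ) : ℤ) =
      max (⌈((B : ℚ) - b) / (q : ℚ)⌉ - ⌈((A : ℚ) - b) / (q : ℚ)⌉) 0 := by
    exact_mod_cast Nat.Ico_filter_modEq_card A B (by omega) b
  have h3 : ((((Finset.Ico A B).filter (fun m => m % q = b % q)).card : ℕ) : ℚ) ≤
      ((B : ℚ) - A) / q + 1 := by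
    rw [h1]
    have h4 : ((((Finset.Ico A B).filter (fun m => m ≡ b [MOD q])).card : ℕ) : ℚ) =
      ((max (⌈((B : ℚ) - b) / (q : ℚ)⌉ - ⌈((A : ℚ) - b) / (q : ℚ)⌉) 0 : ℤ) : ℚ) := by
      rw [← h2]; push_cast; rfl
    rw [h4]
    push_cast
    apply max_le
    · have h5 := Int.ceil_lt_add_one (((B : ℚ) - b) / (q : ℚ))
      have h6 := Int.le_ceil (((A : ℚ) - b) / (q : ℚ))
      have h7 : ((B : ℚ) - A) / q = ((B : ℚ) - b) / (q : ℚ) - ((A : ℚ) - b) / (q : ℚ) := by
        field_simp; ring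
      rw [h7]; linarith
    · have : (0 : ℚ) ≤ ((B : ℚ) - A) / q := by
        apply div_nonneg _ hq0.le
        have : (A : ℚ) ≤ B := by exact_mod_cast hAB
        linarith
      linarith
  have h8 : (((((Finset.Ico A B).filter (fun m => m % q = b % q)).card : ℕ) : ℚ) : ℝ) ≤
      ((((B : ℚ) - A) / q + 1 : ℚ) : ℝ) := by exact_mod_cast h3
  push_cast at h8
  exact h8

open FourierTransform in
theorem four_high : ∃ C : ℝ, 0 < C ∧ ∀ (q b : ℕ) (v0 v1 ξ : ℝ), 1 ≤ q →
    (q : ℝ) ≤ Real.exp v0 → v0 ≤ v1 → v1 ≤ v0 + Real.log 4 → ξ ≠ 0 →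
    ‖𝓕 (Psi (gq q b) v0 v1) ξ‖ ≤ C * (Real.exp v0 / q) / |ξ| := by
  refine ⟨7, by norm_num, ?_⟩
  intro q b v0 v1 ξ hq hqX hv hv4 hξ
  have hx : 0 < |ξ| := abs_pos.mpr hξ
  have hq0 : (0 : ℝ) < q := by exact_mod_cast hq
  rw [Real.fourier_eq']
  set c : ℂ := (-2 * Real.pi * ξ * Complex.I : ℂ) with hc
  set E : ℝ → ℂ := fun v => Complex.exp (c * (v : ℂ)) with hE
  have hEc : Continuous E := by
    rw [hE]; fun_prop
  set A : ℕ := ⌊Real.exp v0⌋₊ with hA
  set B : ℕ := ⌊Real.exp v1⌋₊ + 1 with hB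
  have hAB : A ≤ B := by
    rw [hA, hB]
    exact (Nat.floor_le_floor (Real.exp_le_exp.mpr hv)).trans (Nat.le_succ _)
  set F : Finset ℕ := (Finset.Ico A B).filter (fun m => m % q = b % q) with hF
  have hpt : ∀ v : ℝ, Complex.exp (((-2 * Real.pi * inner ℝ v ξ : ℝ) : ℂ) * Complex.I) • Psi (gq q b) v0 v1 v =
      ∑ m ∈ F, (phS v0 v1 m).indicator E v -
        (Set.Ioc v0 v1).indicator (fun v => (1 / (q : ℂ)) * E v) v := by
    intro v
    have hexp : Complex.exp (((-2 * Real.pi * inner ℝ v ξ : ℝ) : ℂ) * Complex.I) = E v := by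
      rw [hE, hc]
      simp only
      congr 1
      simp only [RCLike.inner_apply, conj_trivial]
      push_cast; ring
    rw [hexp]
    by_cases hvI : v ∈ Set.Ioc v0 v1
    · rw [Psi, Set.indicator_of_mem hvI, Set.indicator_of_mem hvI]
      have hmem : ⌊Real.exp v⌋₊ ∈ Finset.Ico A B := by
        rw [Finset.mem_Ico, hA, hB]
        exact ⟨Nat.floor_le_floor (Real.exp_le_exp.mpr hvI.1.le),
          Nat.lt_succ_of_le (Nat.floor_le_floor (Real.exp_le_exp.mpr hvI.2))⟩
      have hsum : ∑ m ∈ F, (phS v0 v1 m).indicator E v =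
          if ⌊Real.exp v⌋₊ % q = b % q then E v else 0 := by
        split_ifs with hr
        · rw [Finset.sum_eq_single ⌊Real.exp v⌋₊]
          · rw [Set.indicator_of_mem (show v ∈ phS v0 v1 ⌊Real.exp v⌋₊ from ⟨hvI, rfl⟩)]
          · intro b _ hb'
            rw [Set.indicator_of_notMem]
            rintro ⟨_, h2⟩
            exact hb' h2.symm
          · intro hn
            exact absurd (Finset.mem_filter.mpr ⟨hmem, hr⟩) hn
        · apply Finset.sum_eq_zero
          intro m hm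
          rw [Set.indicator_of_notMem]
          rintro ⟨_, h2⟩
          apply hr
          rw [h2]
          exact (Finset.mem_filter.mp hm).2
      rw [hsum, gq]
      split_ifs with hr
      · simp only [smul_eq_mul]; push_cast; ring
      · simp only [smul_eq_mul]; push_cast; ring
    · rw [Psi, Set.indicator_of_notMem hvI, Set.indicator_of_notMem hvI, smul_zero, sub_zero]
      symm
      apply Finset.sum_eq_zero
      intro m _
      rw [Set.indicator_of_notMem]
      rintro ⟨h1, _⟩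
      exact hvI h1
  simp_rw [hpt]
  have hint : ∀ m ∈ F, Integrable ((phS v0 v1 m).indicator E) volume := by
    intro m _
    rw [integrable_indicator_iff (ph_meas v0 v1 m)]
    have h1 : IntegrableOn E (Set.Icc v0 v1) volume :=
      hEc.continuousOn.integrableOn_compact isCompact_Icc
    exact h1.mono_set (fun v hv' => ⟨hv'.1.1.le, hv'.1.2⟩)
  have hint2 : Integrable ((Set.Ioc v0 v1).indicator (fun v => (1 / (q : ℂ)) * E v)) volume := by
    rw [integrable_indicator_iff measurableSet_Ioc]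
    have h1 : IntegrableOn (fun v => (1 / (q : ℂ)) * E v) (Set.Icc v0 v1) volume :=
      (continuous_const.mul hEc).continuousOn.integrableOn_compact isCompact_Icc
    exact h1.mono_set Set.Ioc_subset_Icc_self
  rw [integral_sub (integrable_finset_sum _ hint) hint2, integral_finset_sum _ hint]
  have hone : ∀ m ∈ F, ‖∫ v, (phS v0 v1 m).indicator E v‖ ≤ 1 / |ξ| := by
    intro m _
    rw [integral_indicator (ph_meas v0 v1 m)]
    obtain ⟨s, t, hst⟩ := ph_ae v0 v1 m
    rw [setIntegral_congr_set hst]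
    exact ph_int s t ξ hξ
  have htwo : ‖∫ v, (Set.Ioc v0 v1).indicator (fun v => (1 / (q : ℂ)) * E v) v‖ ≤ 1 / q * (1 / |ξ|) := by
    rw [integral_indicator measurableSet_Ioc, integral_const_mul, norm_mul]
    have h1 : ‖(1 / (q : ℂ))‖ = 1 / q := by simp
    rw [h1]
    exact mul_le_mul_of_nonneg_left (ph_int v0 v1 ξ hξ) (by positivity)
  have hX0 : 0 < Real.exp v0 := Real.exp_pos v0
  have hX1 : Real.exp v1 ≤ 4 * Real.exp v0 := by
    calc Real.exp v1 ≤ Real.exp (v0 + Real.log 4) := Real.exp_le_exp.mpr hv4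
      _ = 4 * Real.exp v0 := by rw [Real.exp_add, Real.exp_log (by norm_num)]; ring
  have hq1 : (1 : ℝ) ≤ q := by exact_mod_cast hq
  have hcard : (F.card : ℝ) ≤ 6 * (Real.exp v0 / q) := by
    have h1 := ph_card q b A B hq hAB
    have h2 : (B : ℝ) ≤ Real.exp v1 + 1 := by
      rw [hB]; push_cast
      have := Nat.floor_le (Real.exp_pos v1).le
      linarith
    have h3 : Real.exp v0 - 1 ≤ (A : ℝ) := by
      rw [hA]
      have := Nat.lt_floor_add_one (Real.exp v0)
      linarith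
    have h4 : ((B : ℝ) - A) / q ≤ 5 * (Real.exp v0 / q) := by
      rw [← mul_div_assoc]
      apply div_le_div_of_nonneg_right _ hq0.le
      linarith
    have h5 : (1 : ℝ) ≤ Real.exp v0 / q := by
      rw [le_div_iff₀ hq0]; linarith
    rw [hF]
    linarith
  have hq2 : (1 : ℝ) / q ≤ Real.exp v0 / q := by
    apply div_le_div_of_nonneg_right _ hq0.le
    linarith
  calc ‖(∑ m ∈ F, ∫ v, (phS v0 v1 m).indicator E v) -
        ∫ v, (Set.Ioc v0 v1).indicator (fun v => (1 / (q : ℂ)) * E v) v‖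
      ≤ ‖∑ m ∈ F, ∫ v, (phS v0 v1 m).indicator E v‖ +
        ‖∫ v, (Set.Ioc v0 v1).indicator (fun v => (1 / (q : ℂ)) * E v) v‖ := norm_sub_le _ _
    _ ≤ ∑ _m ∈ F, 1 / |ξ| + 1 / q * (1 / |ξ|) := by
        refine add_le_add ((norm_sum_le _ _).trans (Finset.sum_le_sum hone)) htwo
    _ = (F.card + 1 / q : ℝ) * (1 / |ξ|) := by
        rw [Finset.sum_const, nsmul_eq_mul]; ring
    _ ≤ (7 * (Real.exp v0 / q)) * (1 / |ξ|) := by
        apply mul_le_mul_of_nonneg_right _ (by positivity)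
        linarith
    _ = 7 * (Real.exp v0 / q) / |ξ| := by ring

end TQ7

end Pool.Agent.helper616_TQ
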