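import Pool.Agent.helper616_TQ.Defs
import Pool.Agent.H370R2.MV

/-!
# Project TQ (helper616): mean values of exponential sums
-/

set_option autoImplicit false
set_option maxHeartbeats 4000000

open Finset MeasureTheory Filter Topology
open Pool.Agent.helper616_TS (e LogBdd S_VDC Psi)

namespace Pool.Agent.helper616_TQ

open H370 (mean_value)

namespace TQ8


theorem tq8_e_cont : Continuous e := by
  unfold e
  fun_prop

theorem tq8_pow (n : ℕ) (hn : 1 ≤ n) (ξ : ℝ) :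
    (n : ℂ) ^ (-((-(2 * Real.pi) * ξ : ℝ) : ℂ) * Complex.I) = e (ξ * Real.log n) := by
  have h0 : (n : ℂ) ≠ 0 := by
    exact_mod_cast (by omega : n ≠ 0)
  rw [Complex.cpow_def_of_ne_zero h0, e]
  congr 1
  rw [← Complex.natCast_log]
  push_cast
  ring

theorem tq8_sum (w : ℕ → ℝ) (P M : ℕ) (ξ : ℝ) :
    ∑ n ∈ Finset.Icc 1 M, (if P < n then (w n : ℂ) else 0) *
      (n : ℂ) ^ (-((-(2 * Real.pi) * ξ : ℝ) : ℂ) * Complex.I) =
      ∑ n ∈ Ioc P M, (w n : ℂ) * e (ξ * Real.log n) := by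
  have h1 : Ioc P M = (Finset.Icc 1 M).filter (fun n => P < n) := by
    ext n
    simp only [Finset.mem_Ioc, Finset.mem_filter, Finset.mem_Icc]
    omega
  rw [h1, Finset.sum_filter]
  apply Finset.sum_congr rfl
  intro n hn
  rw [tq8_pow n (Finset.mem_Icc.1 hn).1]
  split_ifs <;> simp

theorem tq8_int (w : ℕ → ℝ) (P M : ℕ) (T : ℝ) (hT : 0 ≤ T) :
    ∫ ξ in (-T)..T, ‖∑ n ∈ Ioc P M, (w n : ℂ) * e (ξ * Real.log n)‖ ^ 2 ≤
      (2 * T + 4 * M * (1 + Real.log M)) * ∑ n ∈ Ioc P M, (w n) ^ 2 := by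
  have hpi := Real.pi_pos
  have h1 := mean_value (fun n => if P < n then (w n : ℂ) else 0) M (-(2 * Real.pi * T))
    (2 * Real.pi * T) (by nlinarith [mul_nonneg hpi.le hT])
  have h2 : ∑ n ∈ Finset.Icc 1 M, ‖(if P < n then (w n : ℂ) else 0 : ℂ)‖ ^ 2 =
      ∑ n ∈ Ioc P M, (w n) ^ 2 := by
    have h1 : Ioc P M = (Finset.Icc 1 M).filter (fun n => P < n) := by
      ext n
      simp only [Finset.mem_Ioc, Finset.mem_filter, Finset.mem_Icc]
      omega
    rw [h1, Finset.sum_filter]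
    apply Finset.sum_congr rfl
    intro n hn
    split_ifs
    · rw [Complex.norm_real, Real.norm_eq_abs, sq_abs]
    · simp
  rw [h2] at h1
  have h3 : ∫ ξ in (-T)..T, ‖∑ n ∈ Ioc P M, (w n : ℂ) * e (ξ * Real.log n)‖ ^ 2 =
      (2 * Real.pi)⁻¹ * ∫ t in (-(2 * Real.pi * T))..(2 * Real.pi * T),
        ‖∑ n ∈ Finset.Icc 1 M, (if P < n then (w n : ℂ) else 0) *
          (n : ℂ) ^ (-(t : ℂ) * Complex.I)‖ ^ 2 := by
    have h4 := intervalIntegral.integral_comp_mul_left (a := -T) (b := T)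
      (fun t : ℝ => ‖∑ n ∈ Finset.Icc 1 M, (if P < n then (w n : ℂ) else 0) *
          (n : ℂ) ^ (-(t : ℂ) * Complex.I)‖ ^ 2) (c := -(2 * Real.pi)) (by
            have := hpi.ne'
            simp [this])
    simp only [tq8_sum] at h4
    rw [h4, intervalIntegral.integral_symm]
    have h5 : -(2 * Real.pi) * T = -(2 * Real.pi * T) := by ring
    have h6 : -(2 * Real.pi) * -T = 2 * Real.pi * T := by ring
    rw [h5, h6, smul_eq_mul, inv_neg]
    ring
  rw [h3]
  have h7 : 0 ≤ ∑ n ∈ Ioc P M, (w n) ^ 2 := Finset.sum_nonneg fun _ _ => sq_nonneg _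
  have h8 : 0 ≤ (M : ℝ) * (1 + Real.log M) := by
    rcases Nat.eq_zero_or_pos M with h | h
    · simp [h]
    · have : 0 ≤ Real.log M := Real.log_natCast_nonneg M
      positivity
  calc (2 * Real.pi)⁻¹ * _ ≤ (2 * Real.pi)⁻¹ * ((2 * Real.pi * T - -(2 * Real.pi * T) +
        8 * M * (1 + Real.log M)) * ∑ n ∈ Ioc P M, (w n) ^ 2) := by
        apply mul_le_mul_of_nonneg_left h1
        positivity
    _ = (2 * T + (2 * Real.pi)⁻¹ * 8 * (M * (1 + Real.log M))) * ∑ n ∈ Ioc P M, (w n) ^ 2 := by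
        field_simp
        ring
    _ ≤ _ := by
        apply mul_le_mul_of_nonneg_right _ h7
        have h9 : (2 * Real.pi)⁻¹ * 8 ≤ 4 := by
          rw [inv_mul_le_iff₀ (by positivity)]
          nlinarith [Real.pi_gt_three]
        nlinarith

theorem tq8_log (P : ℕ) (hP : 2 ≤ P) (n : ℕ) (hn : n ≤ 2 * P) :
    Real.log (n + 2) ≤ 3 * Real.log P := by
  have hP' : (2 : ℝ) ≤ P := by exact_mod_cast hP
  have h1 : (n : ℝ) + 2 ≤ (P : ℝ) ^ 3 := by
    have hn' : (n : ℝ) ≤ 2 * P := by exact_mod_cast hn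
    have : 2 * (P : ℝ) + 2 ≤ (P : ℝ) ^ 3 := by
      nlinarith [mul_nonneg (by linarith : (0 : ℝ) ≤ P - 2) (by linarith : (0 : ℝ) ≤ P), sq_nonneg ((P : ℝ) - 2), mul_nonneg (by linarith : (0 : ℝ) ≤ P - 2) (mul_nonneg (by linarith : (0 : ℝ) ≤ P) (by linarith : (0 : ℝ) ≤ P))]
    linarith
  calc Real.log (n + 2) ≤ Real.log ((P : ℝ) ^ 3) := Real.log_le_log (by positivity) h1
    _ = 3 * Real.log P := by rw [Real.log_pow]; norm_num

/-- mean values of the exponential sums with a weight -/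
theorem mvt (w : ℕ → ℝ) (hw : LogBdd w) : ∃ C : ℝ, ∃ k : ℕ, 0 < C ∧ ∀ P M : ℕ, 2 ≤ P → P ≤ M → M ≤ 2 * P → ∀ T : ℝ, 1 ≤ T →
    ∫⁻ ξ in Set.Icc (-T) T, ‖∑ n ∈ Ioc P M, (w n : ℂ) * e (ξ * Real.log n)‖ₑ ^ 2 ≤
      ENNReal.ofReal (C * (T + P) * P * (Real.log P) ^ k) := by
  obtain ⟨C0, k, hC0⟩ := hw
  refine ⟨64 * ((|C0| * 3 ^ k) ^ 2 + 1), 2 * k + 1, by positivity, ?_⟩
  intro P M hP hPM hM T hT
  have hP' : (2 : ℝ) ≤ P := by exact_mod_cast hP
  have hM' : (M : ℝ) ≤ 2 * P := by exact_mod_cast hM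
  have hM1 : (1 : ℝ) ≤ M := by exact_mod_cast (by omega : 1 ≤ M)
  have hlogP : Real.log 2 ≤ Real.log P := Real.log_le_log (by norm_num) hP'
  have hlog2 : (1 : ℝ) / 2 < Real.log 2 := by
    have := Real.log_two_gt_d9
    linarith
  have hL : (1 : ℝ) / 2 < Real.log P := by linarith
  -- the norm
  have hcont : Continuous (fun ξ : ℝ => ‖∑ n ∈ Ioc P M, (w n : ℂ) * e (ξ * Real.log n)‖ ^ 2) := by
    refine Continuous.pow (continuous_norm.comp ?_) 2
    refine continuous_finsetSum _ fun n _ => continuous_const.mul (tq8_e_cont.comp ?_)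
    exact continuous_id.mul continuous_const
  have h1 : ∫⁻ ξ in Set.Icc (-T) T, ‖∑ n ∈ Ioc P M, (w n : ℂ) * e (ξ * Real.log n)‖ₑ ^ 2 =
      ENNReal.ofReal (∫ ξ in Set.Icc (-T) T,
        ‖∑ n ∈ Ioc P M, (w n : ℂ) * e (ξ * Real.log n)‖ ^ 2) := by
    rw [ofReal_integral_eq_lintegral_ofReal (hcont.continuousOn.integrableOn_compact isCompact_Icc)
      (Filter.Eventually.of_forall fun x => by positivity)]
    apply lintegral_congr
    intro ξ
    rw [← ofReal_norm, ENNReal.ofReal_pow (norm_nonneg _)]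
  rw [h1]
  apply ENNReal.ofReal_le_ofReal
  rw [MeasureTheory.integral_Icc_eq_integral_Ioc, ← intervalIntegral.integral_of_le (by linarith)]
  refine (tq8_int w P M T (by linarith)).trans ?_
  -- the sum of the squares
  have h2 : ∑ n ∈ Ioc P M, (w n) ^ 2 ≤ P * ((|C0| * 3 ^ k) ^ 2 * (Real.log P) ^ (2 * k)) := by
    have h3 : ∀ n ∈ Ioc P M, (w n) ^ 2 ≤ (|C0| * 3 ^ k) ^ 2 * (Real.log P) ^ (2 * k) := by
      intro n hn
      have hn' := (Finset.mem_Ioc.1 hn).2
      have h4 : |w n| ≤ |C0| * 3 ^ k * (Real.log P) ^ k := by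
        have h5 := tq8_log P hP n (by omega)
        have h6 : 0 ≤ Real.log ((n : ℝ) + 2) := by
          apply Real.log_nonneg
          have : (0 : ℝ) ≤ n := Nat.cast_nonneg n
          linarith
        calc |w n| ≤ C0 * (Real.log (n + 2)) ^ k := hC0 n
          _ ≤ |C0| * (Real.log (n + 2)) ^ k :=
              mul_le_mul_of_nonneg_right (le_abs_self _) (pow_nonneg h6 k)
          _ ≤ |C0| * (3 * Real.log P) ^ k :=
              mul_le_mul_of_nonneg_left (pow_le_pow_left₀ h6 h5 k) (abs_nonneg _)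
          _ = _ := by rw [mul_pow]; ring
      calc (w n) ^ 2 = |w n| ^ 2 := (sq_abs _).symm
        _ ≤ (|C0| * 3 ^ k * (Real.log P) ^ k) ^ 2 := pow_le_pow_left₀ (abs_nonneg _) h4 2
        _ = _ := by rw [mul_pow, ← pow_mul, mul_comm k 2]
    calc ∑ n ∈ Ioc P M, (w n) ^ 2 ≤ ∑ n ∈ Ioc P M, (|C0| * 3 ^ k) ^ 2 * (Real.log P) ^ (2 * k) :=
          Finset.sum_le_sum h3
      _ = ((M - P : ℕ) : ℝ) * ((|C0| * 3 ^ k) ^ 2 * (Real.log P) ^ (2 * k)) := by
          rw [Finset.sum_const, Nat.card_Ioc, nsmul_eq_mul]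
      _ ≤ _ := by
          apply mul_le_mul_of_nonneg_right
          · exact_mod_cast (by omega : M - P ≤ P)
          · have : 0 ≤ Real.log P := by linarith
            positivity
  have hlogM : 1 + Real.log M ≤ 4 * Real.log P := by
    have : Real.log M ≤ Real.log (2 * P) := Real.log_le_log (by linarith) hM'
    rw [Real.log_mul (by norm_num) (by linarith)] at this
    linarith
  have h9 : 2 * T + 4 * M * (1 + Real.log M) ≤ 64 * (T + P) * Real.log P := by
    have h10 : (M : ℝ) * (1 + Real.log M) ≤ 2 * P * (4 * Real.log P) :=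
      mul_le_mul hM' hlogM (by have := Real.log_nonneg hM1; linarith) (by linarith)
    have h11 : T * (1 / 2) ≤ T * Real.log P := mul_le_mul_of_nonneg_left hL.le (by linarith)
    have h12 : 0 ≤ (P : ℝ) * Real.log P := mul_nonneg (by linarith) (by linarith)
    nlinarith
  have hlog0 : 0 ≤ Real.log P := by linarith
  calc (2 * T + 4 * M * (1 + Real.log M)) * ∑ n ∈ Ioc P M, (w n) ^ 2
      ≤ (64 * (T + P) * Real.log P) * (P * ((|C0| * 3 ^ k) ^ 2 * (Real.log P) ^ (2 * k))) := by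
        apply mul_le_mul h9 h2 (Finset.sum_nonneg fun _ _ => sq_nonneg _)
        have : 0 ≤ T + P := by linarith
        positivity
    _ = 64 * (|C0| * 3 ^ k) ^ 2 * ((T + P) * P * (Real.log P) ^ (2 * k + 1)) := by ring
    _ ≤ 64 * ((|C0| * 3 ^ k) ^ 2 + 1) * ((T + P) * P * (Real.log P) ^ (2 * k + 1)) := by
        apply mul_le_mul_of_nonneg_right
        · linarith
        · have : 0 ≤ T + P := by linarith
          positivity
    _ = _ := by ring

end TQ8

end Pool.Agent.helper616_TQ
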