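import Pool.Agent.helper616_TQ.Defs
import Pool.Agent.helper616_TQ.TQ6
import Pool.Agent.helper616_TQ.TQ7
import Pool.Agent.helper616_TS.TS5
import Pool.Agent.helper616_TQ.TQ8

/-!
# Project TQ (helper616): the mean square
-/

set_option autoImplicit false
set_option maxHeartbeats 4000000

open Finset MeasureTheory Filter Topology
open Pool.Agent.helper616_TS (e LogBdd S_VDC Psi)

namespace Pool.Agent.helper616_TQ

open TQ6 (four_low)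
open TQ7 (four_high)
open Pool.Agent.helper616_TS.TS5 (plancherel_sum)
open TQ8 (mvt)

namespace TQ9


theorem q9_hen (z : ℂ) (B : ℝ) (hB : ‖z‖ ≤ B) : ‖z‖ₑ ^ 2 ≤ ENNReal.ofReal (B ^ 2) := by
  have hB0 : 0 ≤ B := le_trans (norm_nonneg _) hB
  rw [ENNReal.ofReal_pow hB0]
  gcongr
  rw [← ofReal_norm]
  exact ENNReal.ofReal_le_ofReal hB

theorem q9_piece (F E : ℝ → ℂ) (G T X : ℝ) (S : Set ℝ) (hS : MeasurableSet S) (hST : S ⊆ Set.Icc (-T) T)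
    (hF : ∀ ξ ∈ S, ‖F ξ‖ ≤ G) (hE : ∫⁻ ξ in Set.Icc (-T) T, ‖E ξ‖ₑ ^ 2 ≤ ENNReal.ofReal X) :
    ∫⁻ ξ in S, ‖F ξ‖ₑ ^ 2 * ‖E ξ‖ₑ ^ 2 ≤ ENNReal.ofReal (G ^ 2 * X) := by
  calc ∫⁻ ξ in S, ‖F ξ‖ₑ ^ 2 * ‖E ξ‖ₑ ^ 2
      ≤ ∫⁻ ξ in S, ENNReal.ofReal (G ^ 2) * ‖E ξ‖ₑ ^ 2 := by
        apply setLIntegral_mono' hS
        intro ξ hξ
        exact mul_le_mul' (q9_hen _ _ (hF ξ hξ)) le_rfl
    _ = ENNReal.ofReal (G ^ 2) * ∫⁻ ξ in S, ‖E ξ‖ₑ ^ 2 :=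
        lintegral_const_mul' _ _ ENNReal.ofReal_ne_top
    _ ≤ ENNReal.ofReal (G ^ 2) * ENNReal.ofReal X := by
        gcongr
        exact (lintegral_mono_set hST).trans hE
    _ = ENNReal.ofReal (G ^ 2 * X) := by rw [← ENNReal.ofReal_mul (by positivity)]

theorem q9_core (F E : ℝ → ℂ) (Y P K G H : ℝ) (hY : 1 ≤ Y) (hPY : P ≤ Y) (_hP : 0 ≤ P) (hK : 0 ≤ K)
    (hH : 0 ≤ H)
    (hF1 : ∀ ξ, |ξ| ≤ Y → ‖F ξ‖ ≤ G) (hF2 : ∀ ξ, ξ ≠ 0 → ‖F ξ‖ ≤ H / |ξ|)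
    (hE : ∀ T : ℝ, 1 ≤ T → ∫⁻ ξ in Set.Icc (-T) T, ‖E ξ‖ₑ ^ 2 ≤ ENNReal.ofReal (K * (T + P))) :
    ∫⁻ ξ : ℝ, ‖F ξ‖ₑ ^ 2 * ‖E ξ‖ₑ ^ 2 ≤ ENNReal.ofReal (2 * G ^ 2 * K * Y + 6 * H ^ 2 * K / Y) := by
  have hY0 : 0 < Y := by linarith
  obtain ⟨S, hSdef⟩ : ∃ S : ℕ → Set ℝ, S = fun k => {ξ : ℝ | (2 : ℝ) ^ k * Y ≤ |ξ| ∧ |ξ| ≤ (2 : ℝ) ^ (k + 1) * Y} := ⟨_, rfl⟩
  have hSm : ∀ k, MeasurableSet (S k) := by
    intro k
    rw [hSdef]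
    have h1 : MeasurableSet {ξ : ℝ | (2 : ℝ) ^ k * Y ≤ |ξ|} := measurableSet_le measurable_const measurable_abs
    have h2 : MeasurableSet {ξ : ℝ | |ξ| ≤ (2 : ℝ) ^ (k + 1) * Y} := measurableSet_le measurable_abs measurable_const
    exact h1.inter h2
  have hcov : (Set.univ : Set ℝ) ⊆ Set.Icc (-Y) Y ∪ ⋃ k, S k := by
    intro ξ _
    by_cases h1 : |ξ| ≤ Y
    · left; exact abs_le.mp h1
    · right
      push Not at h1
      have h2 : 1 ≤ |ξ| / Y := by rw [le_div_iff₀ hY0]; linarith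
      obtain ⟨n, hn1, hn2⟩ := exists_nat_pow_near h2 (y := (2 : ℝ)) (by norm_num)
      rw [Set.mem_iUnion]
      refine ⟨n, ?_⟩
      rw [hSdef]
      refine ⟨?_, ?_⟩
      · rwa [le_div_iff₀ hY0] at hn1
      · rw [div_lt_iff₀ hY0] at hn2; exact hn2.le
  have hlow : ∫⁻ ξ in Set.Icc (-Y) Y, ‖F ξ‖ₑ ^ 2 * ‖E ξ‖ₑ ^ 2 ≤ ENNReal.ofReal (2 * G ^ 2 * K * Y) := by
    refine (q9_piece F E G Y _ _ measurableSet_Icc subset_rfl (fun ξ hξ => hF1 ξ (abs_le.mpr hξ)) (hE Y hY)).trans ?_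
    apply ENNReal.ofReal_le_ofReal
    have : K * (Y + P) ≤ K * (Y + Y) := by gcongr
    calc G ^ 2 * (K * (Y + P)) ≤ G ^ 2 * (K * (Y + Y)) := by gcongr
      _ = 2 * G ^ 2 * K * Y := by ring
  have hS1 : ∀ k, ∫⁻ ξ in S k, ‖F ξ‖ₑ ^ 2 * ‖E ξ‖ₑ ^ 2 ≤ ENNReal.ofReal (3 * H ^ 2 * K / Y * (1 / 2 : ℝ) ^ k) := by
    intro k
    have h2k : (1 : ℝ) ≤ 2 ^ k := one_le_pow₀ (by norm_num)
    have hT : 1 ≤ (2 : ℝ) ^ (k + 1) * Y := by
      have : (1 : ℝ) ≤ 2 ^ (k + 1) := one_le_pow₀ (by norm_num)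
      nlinarith
    refine (q9_piece F E (H / (2 ^ k * Y)) ((2 : ℝ) ^ (k + 1) * Y) _ (S k) (hSm k) ?_ ?_ (hE _ hT)).trans ?_
    · intro ξ hξ
      rw [hSdef] at hξ
      exact abs_le.mp hξ.2
    · intro ξ hξ
      rw [hSdef] at hξ
      have h1 : (2 : ℝ) ^ k * Y ≤ |ξ| := hξ.1
      have h2 : 0 < (2 : ℝ) ^ k * Y := by positivity
      have h3 : 0 < |ξ| := by linarith
      refine (hF2 ξ (abs_pos.mp h3)).trans ?_
      gcongr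
    · apply ENNReal.ofReal_le_ofReal
      have h1 : (2 : ℝ) ^ (k + 1) * Y + P ≤ 3 * (2 ^ k * Y) := by
        rw [pow_succ]
        nlinarith
      calc (H / (2 ^ k * Y)) ^ 2 * (K * ((2 : ℝ) ^ (k + 1) * Y + P))
          ≤ (H / (2 ^ k * Y)) ^ 2 * (K * (3 * (2 ^ k * Y))) := by gcongr
        _ = 3 * H ^ 2 * K / Y * (1 / 2 : ℝ) ^ k := by
          have : (2 : ℝ) ^ k ≠ 0 := by positivity
          rw [one_div, inv_pow]
          field_simp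
  have hsum : HasSum (fun k : ℕ => 3 * H ^ 2 * K / Y * (1 / 2 : ℝ) ^ k) (3 * H ^ 2 * K / Y * 2) :=
    hasSum_geometric_two.mul_left _
  calc ∫⁻ ξ : ℝ, ‖F ξ‖ₑ ^ 2 * ‖E ξ‖ₑ ^ 2
      = ∫⁻ ξ in Set.univ, ‖F ξ‖ₑ ^ 2 * ‖E ξ‖ₑ ^ 2 := (setLIntegral_univ _).symm
    _ ≤ ∫⁻ ξ in Set.Icc (-Y) Y ∪ ⋃ k, S k, ‖F ξ‖ₑ ^ 2 * ‖E ξ‖ₑ ^ 2 := lintegral_mono_set hcov
    _ ≤ (∫⁻ ξ in Set.Icc (-Y) Y, ‖F ξ‖ₑ ^ 2 * ‖E ξ‖ₑ ^ 2) + ∫⁻ ξ in ⋃ k, S k, ‖F ξ‖ₑ ^ 2 * ‖E ξ‖ₑ ^ 2 :=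
        lintegral_union_le _ _ _
    _ ≤ ENNReal.ofReal (2 * G ^ 2 * K * Y) + ∑' k, ∫⁻ ξ in S k, ‖F ξ‖ₑ ^ 2 * ‖E ξ‖ₑ ^ 2 :=
        add_le_add hlow (lintegral_iUnion_le _ _)
    _ ≤ ENNReal.ofReal (2 * G ^ 2 * K * Y) + ∑' k, ENNReal.ofReal (3 * H ^ 2 * K / Y * (1 / 2 : ℝ) ^ k) := by
        gcongr with k
        exact hS1 k
    _ = ENNReal.ofReal (2 * G ^ 2 * K * Y) + ENNReal.ofReal (3 * H ^ 2 * K / Y * 2) := by
        rw [← ENNReal.ofReal_tsum_of_nonneg (fun k => by positivity) hsum.summable, hsum.tsum_eq]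
    _ = ENNReal.ofReal (2 * G ^ 2 * K * Y + 6 * H ^ 2 * K / Y) := by
        rw [← ENNReal.ofReal_add (by positivity) (by positivity)]
        congr 1
        ring

theorem q9_props (q b : ℕ) (v0 v1 : ℝ) :
    Integrable (Psi (gq q b) v0 v1) ∧ MemLp (Psi (gq q b) v0 v1) 2 := by
  have hmeas : Measurable (fun v : ℝ => (gq q b ⌊Real.exp v⌋₊ : ℂ)) := by
    have h1 : Measurable (fun v : ℝ => ⌊Real.exp v⌋₊) := Real.measurable_exp.nat_floor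
    have h2 : Measurable (gq q b) := measurable_from_top
    exact Complex.measurable_ofReal.comp (h2.comp h1)
  have hbd : ∀ v, ‖(gq q b ⌊Real.exp v⌋₊ : ℂ)‖ ≤ 1 := by
    intro v
    rw [Complex.norm_real, Real.norm_eq_abs]
    unfold gq
    have h1 : 0 ≤ 1 / (q : ℝ) := by positivity
    have h2 : 1 / (q : ℝ) ≤ 1 := by
      rcases Nat.eq_zero_or_pos q with h | h
      · rw [h]; norm_num
      · have : (1 : ℝ) ≤ q := by exact_mod_cast h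
        rw [div_le_one (by linarith)]
        exact this
    rw [abs_le]
    split_ifs <;> constructor <;> linarith
  refine ⟨?_, ?_⟩
  · unfold Psi
    rw [integrable_indicator_iff measurableSet_Ioc]
    exact Integrable.of_bound hmeas.aestronglyMeasurable 1 (Eventually.of_forall hbd)
  · unfold Psi
    rw [memLp_indicator_iff_restrict measurableSet_Ioc]
    exact MemLp.of_bound hmeas.aestronglyMeasurable 1 (Eventually.of_forall hbd)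

theorem q9_sum {β : Type} [AddCommMonoid β] (f : ℕ → β) (P M : ℕ) :
    ∑ n ∈ Ioc P M, f n = ∑ n ∈ range (M - P), f (P + 1 + n) := by
  have h1 : Ioc P M = Ico (P + 1) (M + 1) := by
    ext x; simp only [mem_Ioc, mem_Ico]; omega
  rw [h1, sum_Ico_eq_sum_range]
  congr 1
  congr 1
  omega

open FourierTransform in
theorem msq (hV : S_VDC) (hPl : ∀ (g : ℝ → ℂ), Integrable g → MemLp g 2 →
      ∫⁻ ξ : ℝ, ‖𝓕 g ξ‖ₑ ^ 2 = ∫⁻ z : ℝ, ‖g z‖ₑ ^ 2) (ε : ℝ) (hε : 0 < ε) (hε1 : ε < 1) :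
    ∃ δ : ℝ, 0 < δ ∧ ∀ (w : ℕ → ℝ) (_ : LogBdd w) (A : ℝ) (_ : 0 < A), ∃ P₀ : ℕ, ∀ P : ℕ, P₀ ≤ P → ∀ q : ℕ, 1 ≤ q →
      (q : ℝ) ≤ (P : ℝ) ^ (1 - ε) → ∀ b M : ℕ, P ≤ M → M ≤ 2 * P →
      ∫⁻ u in Set.Icc (Real.log A) (Real.log (2 * A)), ‖∑ n ∈ Ioc P M, w n * gq q b ⌊Real.exp u * n⌋₊‖ₑ ^ 2 ≤
        ENNReal.ofReal (((P : ℝ) / q) ^ 2 * (P : ℝ) ^ (-δ)) := by
  obtain ⟨N, hN⟩ := exists_nat_ge (4 / ε)
  obtain ⟨η0, hη0, C1, hC1, hlow⟩ := four_low hV N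
  obtain ⟨C2, hC2, hhigh⟩ := four_high
  obtain ⟨η, hηd⟩ : ∃ η, η = min η0 1 := ⟨_, rfl⟩
  have hη : 0 < η := by rw [hηd]; positivity
  have hηle : η ≤ η0 := by rw [hηd]; exact min_le_left _ _
  have hη1 : η ≤ 1 := by rw [hηd]; exact min_le_right _ _
  obtain ⟨κ, hκd⟩ : ∃ κ, κ = η * ε := ⟨_, rfl⟩
  have hκ : 0 < κ := by rw [hκd]; positivity
  have hκ1 : κ ≤ 1 := by rw [hκd]; nlinarith
  refine ⟨κ / 2, by positivity, ?_⟩
  intro w hw A hA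
  obtain ⟨C3, k, hC3, hm⟩ := mvt w hw
  obtain ⟨D, hD⟩ : ∃ D, D = 2 * C1 ^ 2 * C3 * (A ^ (-η)) ^ 2 + 6 * C2 ^ 2 * A ^ 2 * C3 := ⟨_, rfl⟩
  have hD0 : 0 < D := by rw [hD]; positivity
  have ev1 : ∀ᶠ P : ℕ in atTop, 1 / A ≤ (P : ℝ) ^ ε :=
    ((tendsto_rpow_atTop hε).comp tendsto_natCast_atTop_atTop).eventually_ge_atTop _
  have ev2 : ∀ᶠ P : ℕ in atTop, 1 / A ^ N ≤ (P : ℝ) := tendsto_natCast_atTop_atTop.eventually_ge_atTop _
  have ev3 : ∀ᶠ P : ℕ in atTop, D * (Real.log P) ^ k ≤ (P : ℝ) ^ (κ / 2) := by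
    have h1 := (isLittleO_log_rpow_rpow_atTop (s := κ / 2) (k : ℝ) (by positivity)).bound (c := 1 / D) (by positivity)
    have h2 := tendsto_natCast_atTop_atTop.eventually h1
    filter_upwards [h2, eventually_ge_atTop 1] with P hP hP1
    have hP1' : (1 : ℝ) ≤ P := by exact_mod_cast hP1
    have hlog : 0 ≤ Real.log P := Real.log_nonneg hP1'
    rw [Real.rpow_natCast, Real.norm_of_nonneg (by positivity), Real.norm_of_nonneg (by positivity)] at hP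
    calc D * (Real.log P) ^ k ≤ D * (1 / D * (P : ℝ) ^ (κ / 2)) := by gcongr
      _ = (P : ℝ) ^ (κ / 2) := by field_simp
  have ev4 : ∀ᶠ P : ℕ in atTop, 2 ≤ P := eventually_ge_atTop 2
  obtain ⟨P₀, hP₀⟩ := eventually_atTop.mp (ev1.and (ev2.and (ev3.and ev4)))
  refine ⟨P₀, ?_⟩
  intro P hPP q hq hqP b M hPM hM2
  obtain ⟨h1, h2, h3, h4⟩ := hP₀ P hPP
  have hP2 : (2 : ℝ) ≤ P := by exact_mod_cast h4
  have hP0 : (0 : ℝ) < P := by linarith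
  have hq1 : (1 : ℝ) ≤ q := by exact_mod_cast hq
  have hq0 : (0 : ℝ) < q := by linarith
  have hlogP : 0 ≤ Real.log P := Real.log_nonneg (by linarith)
  -- size of A P / q
  have hAPe : 1 ≤ A * (P : ℝ) ^ ε := by
    rw [div_le_iff₀ hA] at h1; linarith
  have hsplit : (P : ℝ) ^ (1 - ε) * (P : ℝ) ^ ε = P := by
    rw [← Real.rpow_add hP0]; norm_num
  have hrat : A * (P : ℝ) ^ ε ≤ A * P / q := by
    rw [le_div_iff₀ hq0]
    have hPe : 0 < (P : ℝ) ^ ε := by positivity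
    calc A * (P : ℝ) ^ ε * q ≤ A * (P : ℝ) ^ ε * (P : ℝ) ^ (1 - ε) := by gcongr
      _ = A * ((P : ℝ) ^ (1 - ε) * (P : ℝ) ^ ε) := by ring
      _ = A * P := by rw [hsplit]
  have hqAP : (q : ℝ) ≤ A * P := by
    have : 1 ≤ A * P / q := hAPe.trans hrat
    rwa [le_div_iff₀ hq0, one_mul] at this
  obtain ⟨v0, hv0⟩ : ∃ v0, v0 = Real.log (A * P) := ⟨_, rfl⟩
  have hexpv0 : Real.exp v0 = A * P := by rw [hv0, Real.exp_log (by positivity)]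
  obtain ⟨v1, hv1⟩ : ∃ v1, v1 = v0 + Real.log 4 := ⟨_, rfl⟩
  have hlog4 : 0 ≤ Real.log 4 := Real.log_nonneg (by norm_num)
  -- the quantities
  obtain ⟨c, hc⟩ : ∃ c, c = (P : ℝ) ^ (κ / 2) := ⟨_, rfl⟩
  have hc0 : 0 < c := by rw [hc]; positivity
  have hc1 : 1 ≤ c := by rw [hc]; exact Real.one_le_rpow (by linarith) (by positivity)
  have hcc : (P : ℝ) ^ κ = c ^ 2 := by
    rw [hc, ← Real.rpow_natCast, ← Real.rpow_mul hP0.le]; congr 1; push_cast; ring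
  have hcle : c ^ 2 ≤ P := by
    rw [← hcc]
    calc (P : ℝ) ^ κ ≤ (P : ℝ) ^ (1 : ℝ) := Real.rpow_le_rpow_of_exponent_le (by linarith) hκ1
      _ = P := Real.rpow_one _
  obtain ⟨Y, hY⟩ : ∃ Y, Y = (P : ℝ) * c ^ 2 := ⟨_, rfl⟩
  have hc21 : 1 ≤ c ^ 2 := one_le_pow₀ hc1
  have hYP : (P : ℝ) ≤ Y := by rw [hY]; nlinarith
  have hY1 : 1 ≤ Y := by linarith
  have hYle : Y ≤ (A * P / q) ^ N := by
    have e1 : (A * (P : ℝ) ^ ε) ^ N ≤ (A * P / q) ^ N := by gcongr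
    refine le_trans ?_ e1
    rw [mul_pow, ← Real.rpow_natCast ((P : ℝ) ^ ε) N, ← Real.rpow_mul hP0.le]
    have e2 : (4 : ℝ) ≤ ε * N := by
      rw [div_le_iff₀ hε] at hN; linarith
    have e3 : (P : ℝ) ^ (4 : ℝ) ≤ (P : ℝ) ^ (ε * N) := Real.rpow_le_rpow_of_exponent_le (by linarith) e2
    have e4 : (P : ℝ) ^ (4 : ℝ) = (P : ℝ) ^ 4 := by
      rw [show (4 : ℝ) = ((4 : ℕ) : ℝ) by norm_num, Real.rpow_natCast]
    rw [e4] at e3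
    have hAN : 0 < A ^ N := by positivity
    have e5 : 1 ≤ A ^ N * P := by
      rw [div_le_iff₀ hAN] at h2; linarith
    calc Y ≤ (P : ℝ) ^ 2 := by rw [hY]; nlinarith
      _ = 1 * (P : ℝ) ^ 2 := by ring
      _ ≤ (A ^ N * P) * (P : ℝ) ^ 2 := by gcongr
      _ = A ^ N * (P : ℝ) ^ 3 := by ring
      _ ≤ A ^ N * (P : ℝ) ^ 4 := by
        gcongr
        · linarith
        · norm_num
      _ ≤ A ^ N * (P : ℝ) ^ (ε * N) := by gcongr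
  have hG : ∀ ξ, |ξ| ≤ Y → ‖𝓕 (Psi (gq q b) v0 v1) ξ‖ ≤ C1 / q * (A ^ (-η) / c ^ 2) := by
    intro ξ hξ
    have e0 := hlow q b v0 v1 ξ hq (by rw [hexpv0]; exact hqAP) (by rw [hv1]; linarith) (by rw [hv1])
      (by rw [hexpv0]; exact hξ.trans hYle)
    refine e0.trans ?_
    rw [hexpv0]
    have hx1 : 1 ≤ A * P / q := hAPe.trans hrat
    have e1 : (A * P / q) ^ (-η0) ≤ (A * P / q) ^ (-η) :=
      Real.rpow_le_rpow_of_exponent_le hx1 (by linarith)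
    have e2 : (A * P / q) ^ (-η) ≤ (A * (P : ℝ) ^ ε) ^ (-η) :=
      Real.rpow_le_rpow_of_nonpos (by linarith) hrat (by linarith)
    have e3 : (A * (P : ℝ) ^ ε) ^ (-η) = A ^ (-η) / c ^ 2 := by
      rw [Real.mul_rpow hA.le (by positivity), ← Real.rpow_mul hP0.le, ← hcc, hκd, mul_neg,
        Real.rpow_neg hP0.le, mul_comm ε η]
      rfl
    rw [← e3]
    have : 0 ≤ C1 / (q : ℝ) := by positivity
    exact mul_le_mul_of_nonneg_left (e1.trans e2) this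
  have hH : ∀ ξ, ξ ≠ 0 → ‖𝓕 (Psi (gq q b) v0 v1) ξ‖ ≤ (C2 * (A * P / q)) / |ξ| := by
    intro ξ hξ
    have e0 := hhigh q b v0 v1 ξ hq (by rw [hexpv0]; exact hqAP) (by rw [hv1]; linarith) (by rw [hv1]) hξ
    rwa [hexpv0] at e0
  have hpr := q9_props q b v0 v1
  have hpl := plancherel_sum hPl (Psi (gq q b) v0 v1) hpr.1 hpr.2 (M - P) (fun n => w (P + 1 + n))
    (fun n => Real.log ((P + 1 + n : ℕ) : ℝ))
  obtain ⟨E, hE⟩ : ∃ E : ℝ → ℂ, E = fun ξ => ∑ n ∈ range (M - P), (w (P + 1 + n) : ℂ) * e (ξ * Real.log ((P + 1 + n : ℕ) : ℝ)) :=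
    ⟨_, rfl⟩
  have hEm : ∀ T : ℝ, 1 ≤ T → ∫⁻ ξ in Set.Icc (-T) T, ‖E ξ‖ₑ ^ 2 ≤
      ENNReal.ofReal ((C3 * P * (Real.log P) ^ k) * (T + P)) := by
    intro T hT
    have e0 := hm P M h4 hPM hM2 T hT
    have e1 : ∀ ξ : ℝ, ∑ n ∈ Ioc P M, (w n : ℂ) * e (ξ * Real.log n) = E ξ := by
      intro ξ
      rw [q9_sum (fun n => (w n : ℂ) * e (ξ * Real.log n)) P M, hE]
    simp only [e1] at e0
    refine e0.trans (ENNReal.ofReal_le_ofReal (le_of_eq ?_))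
    ring
  have hcore := q9_core (𝓕 (Psi (gq q b) v0 v1)) E Y P (C3 * P * (Real.log P) ^ k)
    (C1 / q * (A ^ (-η) / c ^ 2)) (C2 * (A * P / q)) hY1 hYP hP0.le (by positivity) (by positivity) hG hH hEm
  have hle : ∫⁻ u in Set.Icc (Real.log A) (Real.log (2 * A)), ‖∑ n ∈ Ioc P M, w n * gq q b ⌊Real.exp u * n⌋₊‖ₑ ^ 2 ≤
      ∫⁻ u : ℝ, ‖∑ n ∈ range (M - P), (w (P + 1 + n) : ℂ) *
        Psi (gq q b) v0 v1 (u + Real.log ((P + 1 + n : ℕ) : ℝ))‖ₑ ^ 2 := by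
    refine le_trans ?_ (setLIntegral_le_lintegral (Set.Icc (Real.log A) (Real.log (2 * A))) _)
    apply setLIntegral_mono' measurableSet_Icc
    intro u hu
    have e1 : ∑ n ∈ range (M - P), (w (P + 1 + n) : ℂ) *
        Psi (gq q b) v0 v1 (u + Real.log ((P + 1 + n : ℕ) : ℝ)) =
        ((∑ n ∈ Ioc P M, w n * gq q b ⌊Real.exp u * n⌋₊ : ℝ) : ℂ) := by
      rw [q9_sum (fun n => w n * gq q b ⌊Real.exp u * n⌋₊) P M, Complex.ofReal_sum]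
      apply sum_congr rfl
      intro n hn
      have hn' := mem_range.mp hn
      have hpos : (0 : ℝ) < ((P + 1 + n : ℕ) : ℝ) := by positivity
      have hgt : (P : ℝ) < ((P + 1 + n : ℕ) : ℝ) := by
        have : P < P + 1 + n := by omega
        exact_mod_cast this
      have hle2 : ((P + 1 + n : ℕ) : ℝ) ≤ 2 * P := by
        have : P + 1 + n ≤ 2 * P := by omega
        exact_mod_cast this
      have hmem : u + Real.log ((P + 1 + n : ℕ) : ℝ) ∈ Set.Ioc v0 v1 := by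
        constructor
        · rw [hv0, Real.log_mul hA.ne' hP0.ne']
          have := Real.log_lt_log hP0 hgt
          linarith [hu.1]
        · rw [hv1, hv0, ← Real.log_mul (by positivity) (by norm_num)]
          have h5 := Real.log_le_log hpos hle2
          have h6 : Real.log (A * P * 4) = Real.log (2 * A) + Real.log (2 * P) := by
            rw [← Real.log_mul (by positivity) (by positivity)]
            congr 1; ring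
          rw [h6]
          linarith [hu.2]
      unfold Psi
      rw [Set.indicator_of_mem hmem, Real.exp_add, Real.exp_log hpos, Complex.ofReal_mul]
    rw [e1]
    rw [← ofReal_norm, ← ofReal_norm, Complex.norm_real]
  refine hle.trans ?_
  rw [hpl]
  rw [hE] at hcore
  refine hcore.trans ?_
  apply ENNReal.ofReal_le_ofReal
  have hPd : (P : ℝ) ^ (-(κ / 2)) = 1 / c := by
    rw [Real.rpow_neg hP0.le, hc, one_div]
  rw [hPd]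
  have hne : c ≠ 0 := hc0.ne'
  have e1 : 2 * (C1 / q * (A ^ (-η) / c ^ 2)) ^ 2 * (C3 * P * (Real.log P) ^ k) * Y +
      6 * (C2 * (A * P / q)) ^ 2 * (C3 * P * (Real.log P) ^ k) / Y =
      ((P : ℝ) / q) ^ 2 * ((D * (Real.log P) ^ k) / c ^ 2) := by
    rw [hY, hD]
    field_simp
  rw [e1]
  rw [← hc] at h3
  have e2 : (D * (Real.log P) ^ k) / c ^ 2 ≤ 1 / c := by
    rw [div_le_div_iff₀ (by positivity) hc0]
    nlinarith
  exact mul_le_mul_of_nonneg_left e2 (by positivity)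

end TQ9

end Pool.Agent.helper616_TQ
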