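import Pool.Agent.helper616_TS.Dep
import Pool.Agent.helper616_TQ.TQ9
import Pool.Agent.helper616_TQ.TQ11
import Pool.Agent.helper616_TQ.TQ12

/-!
# Project TQ (helper616): the level of distribution of almost all real multiples
-/

set_option autoImplicit false

open Finset MeasureTheory Filter Topology
open Pool.Agent.helper616_TS (e LogBdd S_VDC Psi t_VDC t_Pl)

namespace Pool.Agent.helper616_TQ

theorem level (ε : ℝ) (hε : 0 < ε) (hε1 : ε < 1) :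
    ∃ η : ℝ, 0 < η ∧ ∀ (w : ℕ → ℝ) (_ : LogBdd w) (b : ℕ → ℕ → ℕ), ∀ᵐ α : ℝ, 0 < α → ∃ C : ℝ, ∀ N : ℕ, 1 ≤ N →
      ∀ M i : ℕ → ℕ, (∀ q, M q ≤ N) → (∀ q, (i q : ℝ) ≤ (N : ℝ) ^ η) →
        ∑ q ∈ Icc 1 ⌊(N : ℝ) ^ (1 - ε)⌋₊, |∑ n ∈ Icc 1 (M q), w n * gq q (b q (i q)) ⌊α * n⌋₊| ≤ C * (N : ℝ) ^ (1 - η) := by
  obtain ⟨δ, hδ, h1⟩ := TQ9.msq t_VDC t_Pl (ε / 2) (by linarith) (by linarith)
  obtain ⟨η₀, h0, h01, h2⟩ := TQ11.dyadic (ε / 2) δ (by linarith) (by linarith) hδ h1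
  exact TQ12.final ε η₀ hε hε1 h0 h01 h2

end Pool.Agent.helper616_TQ
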